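import Pool.Agent.Lib.MP_b0e20b_ag.Special

/-!
Classification and counting of the solutions of the symmetric diagonal system.
-/

namespace Pool.Agent.MP_b0e20b_ag

open Finset

set_option linter.unusedSectionVars false

variable {ι : Type*} [Fintype ι] [DecidableEq ι]

section general

variable {K : Type*} [Field K]

/-- `∑ r² / (μ - σ²)` -/
def pf (σ r : ι → K) (μ : K) : K := ∑ j, r j ^ 2 / (μ - σ j ^ 2)
/-- `∑ r² / (μ - σ²)²` -/
def af (σ r : ι → K) (μ : K) : K := ∑ j, r j ^ 2 / (μ - σ j ^ 2) ^ 2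
/-- `∑ σ r² / (μ - σ²)²` -/
def bf (σ r : ι → K) (μ : K) : K := ∑ j, σ j * r j ^ 2 / (μ - σ j ^ 2) ^ 2
/-- `∑ σ² r² / (μ - σ²)²` -/
def cf (σ r : ι → K) (μ : K) : K := ∑ j, σ j ^ 2 * r j ^ 2 / (μ - σ j ^ 2) ^ 2
/-- `∑ r² / (ν - σ)²` -/
def sf (σ r : ι → K) (ν : K) : K := ∑ j, r j ^ 2 / (ν - σ j) ^ 2

lemma sum_sq (σ r : ι → K) (A μ : K) :
    ∑ j, ((A + σ j) * r j / (μ - σ j ^ 2)) ^ 2 = A ^ 2 * af σ r μ + 2 * A * bf σ r μ + cf σ r μ := by
  unfold af bf cf
  rw [Finset.mul_sum, Finset.mul_sum, ← Finset.sum_add_distrib, ← Finset.sum_add_distrib]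
  apply Finset.sum_congr rfl
  intro j _
  rw [div_pow]
  ring

lemma cf_eq (σ r : ι → K) (μ : K) (h : ∀ j, r j ≠ 0 → μ ≠ σ j ^ 2) :
    μ * af σ r μ - cf σ r μ = pf σ r μ := by
  unfold af cf pf
  rw [Finset.mul_sum, ← Finset.sum_sub_distrib]
  apply Finset.sum_congr rfl
  intro j _
  by_cases hj : r j = 0
  · simp [hj]
  · have := sub_ne_zero.2 (h j hj)
    field_simp

end general

/-- The two scalar equations. -/
lemma scalar_eqs {σ r : ι → ℂ} {A B : ℂ} (h1 : A - 1 = A ^ 2 * af σ r (A * B) + 2 * A * bf σ r (A * B) + cf σ r (A * B))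
    (h2 : B - 1 = B ^ 2 * af σ r (A * B) + 2 * B * bf σ r (A * B) + cf σ r (A * B)) (hne : A ≠ B) :
    (A * B) * af σ r (A * B) - cf σ r (A * B) = 1 ∧
      (A + B) * af σ r (A * B) = 1 - 2 * bf σ r (A * B) := by
  have h3 : A - B ≠ 0 := sub_ne_zero.2 hne
  constructor
  · apply mul_left_cancel₀ h3
    linear_combination A * h2 - B * h1
  · apply mul_left_cancel₀ h3
    linear_combination h2 - h1

/-- Classification of the complex solutions. -/
theorem classify {σ r : ι → ℝ} (hσ : ∀ i, 0 < σ i) (hinj : Function.Injective σ)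
    (hp : ∀ i, r i = 0 → pf (fun j => (σ j : ℂ)) (fun j => (r j : ℂ)) ((σ i : ℂ) ^ 2) ≠ 1)
    {z : (ι → ℂ) × (ι → ℂ)} (hz : z ∈ DSol σ r) :
    (∃ ν : ℂ, (∀ j, r j ≠ 0 → ν ≠ σ j) ∧ ν - 1 = sf (fun j => (σ j : ℂ)) (fun j => (r j : ℂ)) ν ∧
      z = (fun j => r j / (ν - σ j), fun j => r j / (ν - σ j))) ∨
    (∃ A B : ℂ, A ≠ B ∧ (∀ j, r j ≠ 0 → A * B ≠ (σ j : ℂ) ^ 2) ∧
      pf (fun j => (σ j : ℂ)) (fun j => (r j : ℂ)) (A * B) = 1 ∧
      (A + B) * af (fun j => (σ j : ℂ)) (fun j => (r j : ℂ)) (A * B) =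
        1 - 2 * bf (fun j => (σ j : ℂ)) (fun j => (r j : ℂ)) (A * B) ∧
      z = (fun j => (A + σ j) * r j / (A * B - (σ j : ℂ) ^ 2),
        fun j => (B + σ j) * r j / (A * B - (σ j : ℂ) ^ 2))) ∨
    (∃ i, r i = 0 ∧ ∃ ε : ℂ, (ε = 1 ∨ ε = -1) ∧ ∃ ξ : ℂ, ξ ≠ 0 ∧
      ξ ^ 2 = ε * σ i - 1 - sf (fun j => (σ j : ℂ)) (fun j => (r j : ℂ)) (ε * σ i) ∧
      z = (Function.update (fun j => r j / (ε * σ i - σ j)) i ξ,
        Function.update (fun j => r j / (ε * σ i - σ j)) i (ε * ξ))) := by
  have hA0 := DSol.A_ne_zero hσ hz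
  have hB0 := DSol.B_ne_zero hσ hz
  have hABj : ∀ j, r j ≠ 0 → _ := fun j hj => DSol.AB_ne hσ hinj hz hj
  obtain ⟨x, y⟩ := z
  have hx := hz.1
  have hy := hz.2
  simp only at hx hy hA0 hB0 hABj
  set A : ℂ := 1 + ∑ j, x j ^ 2 with hA
  set B : ℂ := 1 + ∑ j, y j ^ 2 with hB
  have hσc : ∀ i, ((σ i : ℝ) : ℂ) ≠ 0 := fun i => by exact_mod_cast (hσ i).ne'
  have hxr : ∀ j, r j ≠ 0 → x j = (A + σ j) * r j / (A * B - (σ j : ℂ) ^ 2) := by
    intro j hj
    have := sub_ne_zero.2 (hABj j hj)
    rw [eq_div_iff this]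
    linear_combination A * hx j + (σ j : ℂ) * hy j
  have hyr : ∀ j, r j ≠ 0 → y j = (B + σ j) * r j / (A * B - (σ j : ℂ) ^ 2) := by
    intro j hj
    have := sub_ne_zero.2 (hABj j hj)
    rw [eq_div_iff this]
    linear_combination B * hy j + (σ j : ℂ) * hx j
  have hyx : ∀ j, r j = 0 → y j = B / σ j * x j := by
    intro j hj
    have h1 := hx j
    rw [hj] at h1
    have := hσc j
    field_simp
    push_cast at h1
    linear_combination -h1
  have hAB' : ∀ j, r j = 0 → x j ≠ 0 → A * B = (σ j : ℂ) ^ 2 := by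
    intro j hj hxj
    have h1 := hx j
    have h2 := hy j
    rw [hj] at h1 h2
    push_cast at h1 h2
    have h3 : x j * (A * B - (σ j : ℂ) ^ 2) = 0 := by
      linear_combination A * h1 + (σ j : ℂ) * h2
    have := (mul_eq_zero.1 h3).resolve_left hxj
    linear_combination this
  by_cases hcase : ∃ i, r i = 0 ∧ x i ≠ 0
  · -- a solution supported on a further index
    right; right
    obtain ⟨i, hi, hxi⟩ := hcase
    have hμ := hAB' i hi hxi
    have hother : ∀ j, j ≠ i → r j = 0 → x j = 0 := by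
      intro j hji hj
      by_contra h
      have h1 := hAB' j hj h
      rw [hμ] at h1
      have h2 : σ i ^ 2 = σ j ^ 2 := by exact_mod_cast h1
      have h3 : σ i = σ j := by
        nlinarith [hσ i, hσ j, sq_nonneg (σ i - σ j), sq_nonneg (σ i + σ j)]
      exact hji (hinj h3.symm)
    have hpi := hp i hi
    set s : ι → ℂ := fun j => (σ j : ℂ) with hs
    set ρ : ι → ℂ := fun j => (r j : ℂ) with hρ
    have hx' : ∀ j, j ≠ i → x j = (A + σ j) * r j / (A * B - (σ j : ℂ) ^ 2) := by
      intro j hji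
      by_cases hj : r j = 0
      · rw [hother j hji hj, hj]
        simp
      · exact hxr j hj
    have hy' : ∀ j, j ≠ i → y j = (B + σ j) * r j / (A * B - (σ j : ℂ) ^ 2) := by
      intro j hji
      by_cases hj : r j = 0
      · rw [hyx j hj, hother j hji hj, hj]
        simp
      · exact hyr j hj
    have hsumx : A = 1 + x i ^ 2 + (A ^ 2 * af s ρ (A * B) + 2 * A * bf s ρ (A * B) + cf s ρ (A * B)) := by
      rw [← sum_sq, ← Finset.add_sum_erase _ (fun j => ((A + s j) * ρ j / (A * B - s j ^ 2)) ^ 2) (mem_univ i)]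
      simp only [hs, hρ, hi]
      have h1 : A = 1 + (x i ^ 2 + ∑ k ∈ univ.erase i, x k ^ 2) := by
        rw [hA, Finset.add_sum_erase _ (fun k => x k ^ 2) (mem_univ i)]
      have h2 : ∑ k ∈ univ.erase i, x k ^ 2 = ∑ k ∈ univ.erase i, ((A + σ k) * r k / (A * B - (σ k : ℂ) ^ 2)) ^ 2 := by
        apply Finset.sum_congr rfl
        intro k hk
        rw [hx' k (Finset.mem_erase.1 hk).1]
      rw [h2] at h1
      push_cast
      linear_combination h1
    have hsumy : B = 1 + y i ^ 2 + (B ^ 2 * af s ρ (A * B) + 2 * B * bf s ρ (A * B) + cf s ρ (A * B)) := by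
      rw [← sum_sq, ← Finset.add_sum_erase _ (fun j => ((B + s j) * ρ j / (A * B - s j ^ 2)) ^ 2) (mem_univ i)]
      simp only [hs, hρ, hi]
      have h1 : B = 1 + (y i ^ 2 + ∑ k ∈ univ.erase i, y k ^ 2) := by
        rw [hB, Finset.add_sum_erase _ (fun k => y k ^ 2) (mem_univ i)]
      have h2 : ∑ k ∈ univ.erase i, y k ^ 2 = ∑ k ∈ univ.erase i, ((B + σ k) * r k / (A * B - (σ k : ℂ) ^ 2)) ^ 2 := by
        apply Finset.sum_congr rfl
        intro k hk
        rw [hy' k (Finset.mem_erase.1 hk).1]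
      rw [h2] at h1
      push_cast
      linear_combination h1
    have hcf := cf_eq s ρ (A * B) (by
      intro j hj
      exact hABj j (by
        intro h
        apply hj
        rw [hρ]
        simp [h]))
    have hyi := hyx i hi
    have hAeqB : A = B := by
      have h1 : (A - B) * (1 - pf s ρ (A * B)) = 0 := by
        have h2 : A * y i ^ 2 = B * x i ^ 2 := by
          have h3 := hσc i
          have h4 : A * y i ^ 2 = (A * B) * B * x i ^ 2 / (σ i : ℂ) ^ 2 := by
            rw [hyi]
            ring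
          rw [h4, hμ]
          field_simp
        linear_combination -h2 - (A * hsumy - B * hsumx) + (A - B) * hcf
      rcases mul_eq_zero.1 h1 with h | h
      · linear_combination h
      · exfalso
        apply hpi
        rw [← hμ]
        linear_combination -h
    have hAA : (A - σ i) * (A + σ i) = 0 := by
      rw [← hAeqB] at hμ
      linear_combination hμ
    have hcases : ∃ ε : ℂ, (ε = 1 ∨ ε = -1) ∧ A = ε * σ i := by
      rcases mul_eq_zero.1 hAA with h | h
      · exact ⟨1, Or.inl rfl, by linear_combination h⟩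
      · exact ⟨-1, Or.inr rfl, by linear_combination h⟩
    obtain ⟨ε, hε, hAε⟩ := hcases
    have hε2 : ε * ε = 1 := by rcases hε with rfl | rfl <;> norm_num
    have hxval : ∀ j, j ≠ i → x j = r j / (ε * σ i - σ j) := by
      intro j hji
      rw [hx' j hji, ← hAeqB, ← hAε]
      by_cases hj : r j = 0
      · simp [hj]
      · have h1 := hABj j hj
        rw [← hAeqB] at h1
        have h2 : A * A - (σ j : ℂ) ^ 2 ≠ 0 := sub_ne_zero.2 h1
        have h3 : A - σ j ≠ 0 := by
          intro h
          apply h2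
          linear_combination (A + σ j) * h
        rw [div_eq_div_iff h2 h3]
        ring
    have hyval : ∀ j, j ≠ i → y j = r j / (ε * σ i - σ j) := by
      intro j hji
      rw [← hxval j hji, hy' j hji, hx' j hji, ← hAeqB]
    have hyi' : y i = ε * x i := by
      rw [hyi, ← hAeqB, hAε]
      have := hσc i
      field_simp
    refine ⟨i, hi, ε, hε, x i, hxi, ?_, ?_⟩
    · have h1 : sf s ρ (ε * σ i) = A ^ 2 * af s ρ (A * B) + 2 * A * bf s ρ (A * B) + cf s ρ (A * B) := by
        rw [← sum_sq]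
        unfold sf
        apply Finset.sum_congr rfl
        intro j _
        by_cases hj : r j = 0
        · simp [hρ, hj]
        · have hji : j ≠ i := by
            rintro rfl
            exact hj hi
          have h4 := hxval j hji
          have h5 := hx' j hji
          simp only [hs, hρ]
          rw [← h5, h4, div_pow]
      rw [h1, ← hAε]
      linear_combination -hsumx
    · ext j
      · by_cases hj : j = i
        · subst hj
          simp
        · simp only [Function.update_of_ne hj]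
          exact hxval j hj
      · by_cases hj : j = i
        · subst hj
          simp only [Function.update_self]
          exact hyi'
        · simp only [Function.update_of_ne hj]
          exact hyval j hj
  · push Not at hcase
    have hx' : ∀ j, x j = (A + σ j) * r j / (A * B - (σ j : ℂ) ^ 2) := by
      intro j
      by_cases hj : r j = 0
      · rw [hcase j hj, hj]
        simp
      · exact hxr j hj
    have hy' : ∀ j, y j = (B + σ j) * r j / (A * B - (σ j : ℂ) ^ 2) := by
      intro j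
      by_cases hj : r j = 0
      · rw [hyx j hj, hcase j hj, hj]
        simp
      · exact hyr j hj
    set s : ι → ℂ := fun j => (σ j : ℂ) with hs
    set ρ : ι → ℂ := fun j => (r j : ℂ) with hρ
    have hsumx : A - 1 = A ^ 2 * af s ρ (A * B) + 2 * A * bf s ρ (A * B) + cf s ρ (A * B) := by
      rw [← sum_sq]
      have h1 : ∑ k, x k ^ 2 = ∑ k, ((A + s k) * ρ k / (A * B - s k ^ 2)) ^ 2 := by
        apply Finset.sum_congr rfl
        intro k _
        rw [hx' k]
      rw [← h1, hA]
      ring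
    have hsumy : B - 1 = B ^ 2 * af s ρ (A * B) + 2 * B * bf s ρ (A * B) + cf s ρ (A * B) := by
      rw [← sum_sq]
      have h1 : ∑ k, y k ^ 2 = ∑ k, ((B + s k) * ρ k / (A * B - s k ^ 2)) ^ 2 := by
        apply Finset.sum_congr rfl
        intro k _
        rw [hy' k]
      rw [← h1, hB]
      ring
    by_cases hAeqB : A = B
    · left
      have hne : ∀ j, r j ≠ 0 → A - σ j ≠ 0 ∧ A * B - (σ j : ℂ) ^ 2 ≠ 0 := by
        intro j hj
        have h1 := hABj j hj
        have h2 : A * B - (σ j : ℂ) ^ 2 ≠ 0 := sub_ne_zero.2 h1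
        refine ⟨?_, h2⟩
        intro h
        apply h2
        rw [← hAeqB]
        linear_combination (A + σ j) * h
      have hxval : ∀ j, x j = r j / (A - σ j) := by
        intro j
        rw [hx' j]
        by_cases hj : r j = 0
        · simp [hj]
        · obtain ⟨h3, h2⟩ := hne j hj
          rw [div_eq_div_iff h2 h3, ← hAeqB]
          ring
      have hyval : ∀ j, y j = r j / (A - σ j) := by
        intro j
        rw [← hxval j, hy' j, hx' j, ← hAeqB]
      refine ⟨A, fun j hj => sub_ne_zero.1 (hne j hj).1, ?_, ?_⟩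
      · rw [hsumx, ← sum_sq]
        unfold sf
        apply Finset.sum_congr rfl
        intro j _
        have h4 := hxval j
        have h5 := hx' j
        simp only [hs, hρ]
        rw [← h5, h4, div_pow]
      · ext j
        · exact hxval j
        · exact hyval j
    · right; left
      obtain ⟨h1, h2⟩ := scalar_eqs hsumx hsumy hAeqB
      have hcf := cf_eq s ρ (A * B) (by
        intro j hj
        exact hABj j (by
          intro h
          apply hj
          rw [hρ]
          simp [h]))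
      refine ⟨A, B, hAeqB, hABj, ?_, h2, ?_⟩
      · rw [← hcf, h1]
      · ext j
        · exact hx' j
        · exact hy' j

end Pool.Agent.MP_b0e20b_ag
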