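import Mathlib

/-!
Real orthogonal coordinates adapted to the hyperplane of tensors with entries adding up to one.
-/

namespace Pool.Agent.MP_b0e20b_ag

open Finset Matrix

/-- Solutions of the critical equations in centred coordinates. -/
def Sol {ι κ : Type*} [Fintype ι] [Fintype κ] (r : ι → ℂ) (s : κ → ℂ) (W : Matrix ι κ ℂ) :
    Set ((ι → ℂ) × (κ → ℂ)) :=
  {z | (∀ i, (1 + ∑ j, z.2 j ^ 2) * z.1 i - ∑ j, W i j * z.2 j = r i) ∧
       (∀ j, (1 + ∑ i, z.1 i ^ 2) * z.2 j - ∑ i, W i j * z.1 i = s j)}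

/-- The constant in the first column. -/
noncomputable def cc (n : ℕ) : ℝ := (√((n : ℝ) + 1))⁻¹

lemma cc_pos (n : ℕ) : 0 < cc n := by
  unfold cc
  positivity

lemma cc_sq (n : ℕ) : cc n * cc n * ((n : ℝ) + 1) = 1 := by
  unfold cc
  have h : √((n : ℝ) + 1) * √((n : ℝ) + 1) = (n : ℝ) + 1 := Real.mul_self_sqrt (by positivity)
  have h2 : (n : ℝ) + 1 ≠ 0 := by positivity
  rw [← mul_inv, h, inv_mul_cancel₀ h2]

/-- An orthogonal matrix with constant first column. -/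
lemma exists_Q (n : ℕ) : ∃ Q : Matrix (Fin (n + 1)) (Fin (n + 1)) ℝ,
    Qᵀ * Q = 1 ∧ Q * Qᵀ = 1 ∧ ∀ i, Q i 0 = cc n := by
  set v : Fin (n + 1) → EuclideanSpace ℝ (Fin (n + 1)) := fun _ => WithLp.toLp 2 (fun _ => cc n) with hv
  have hnorm : ‖(WithLp.toLp 2 (fun _ => cc n) : EuclideanSpace ℝ (Fin (n + 1)))‖ = 1 := by
    rw [EuclideanSpace.norm_eq, Real.sqrt_eq_one]
    simp only [Real.norm_eq_abs, sq_abs, sum_const, card_univ, Fintype.card_fin, nsmul_eq_mul]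
    push_cast
    linear_combination cc_sq n
  have hon : Orthonormal ℝ (Set.domRestrict {(0 : Fin (n + 1))} v) := by
    constructor
    · intro i
      exact hnorm
    · intro i j hij
      exact absurd (Subsingleton.elim i j) hij
  obtain ⟨b, hb⟩ := hon.exists_orthonormalBasis_extension_of_card_eq (by simp)
  have h1 : (Matrix.of (fun i j => b j i))ᵀ * (Matrix.of (fun i j => b j i)) = (1 : Matrix (Fin (n + 1)) (Fin (n + 1)) ℝ) := by
    ext i j
    rw [Matrix.mul_apply]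
    have h2 := orthonormal_iff_ite.1 b.orthonormal i j
    rw [PiLp.inner_apply] at h2
    simp only [RCLike.inner_apply, conj_trivial] at h2
    rw [Matrix.one_apply, ← h2]
    apply Finset.sum_congr rfl
    intro k _
    simp only [transpose_apply, of_apply]
    ring
  refine ⟨Matrix.of (fun i j => b j i), h1, mul_eq_one_comm.1 h1, ?_⟩
  intro i
  rw [of_apply, hb 0 rfl]

section

variable {n : ℕ} {Q : Matrix (Fin (n + 1)) (Fin (n + 1)) ℂ} {c : ℂ}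

/-- The vector of total one attached to centred coordinates. -/
def vec (Q : Matrix (Fin (n + 1)) (Fin (n + 1)) ℂ) (c : ℂ) (x : Fin n → ℂ) : Fin (n + 1) → ℂ :=
  Q *ᵥ (c • (Fin.cons 1 x : Fin (n + 1) → ℂ))

lemma QT_vec (h1 : Qᵀ * Q = 1) (x : Fin n → ℂ) : Qᵀ *ᵥ (vec Q c x) = c • (Fin.cons 1 x : Fin (n + 1) → ℂ) := by
  unfold vec
  rw [mulVec_mulVec, h1, one_mulVec]

lemma sum_eq (hc : c ≠ 0) (h0 : ∀ i, Q i 0 = c) (v : Fin (n + 1) → ℂ) : ∑ i, v i = (Qᵀ *ᵥ v) 0 / c := by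
  rw [eq_div_iff hc]
  simp only [mulVec, dotProduct, transpose_apply, h0]
  rw [Finset.sum_mul]
  apply Finset.sum_congr rfl
  intro i _
  ring

lemma sum_vec (hc : c ≠ 0) (h1 : Qᵀ * Q = 1) (h0 : ∀ i, Q i 0 = c) (x : Fin n → ℂ) : ∑ i, vec Q c x i = 1 := by
  rw [sum_eq hc h0, QT_vec h1]
  simp [hc]

lemma dot_Q (h2 : Q * Qᵀ = 1) (v w : Fin (n + 1) → ℂ) : v ⬝ᵥ w = (Qᵀ *ᵥ v) ⬝ᵥ (Qᵀ *ᵥ w) := by
  rw [dotProduct_mulVec, vecMul_transpose, mulVec_mulVec, h2, one_mulVec]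

lemma vec_dot (h1 : Qᵀ * Q = 1) (h2 : Q * Qᵀ = 1) (x : Fin n → ℂ) :
    vec Q c x ⬝ᵥ vec Q c x = c * c * (1 + ∑ i, x i ^ 2) := by
  rw [dot_Q h2, QT_vec h1]
  simp only [dotProduct, Fin.sum_univ_succ, Pi.smul_apply, Fin.cons_zero, Fin.cons_succ, smul_eq_mul, mul_one]
  rw [mul_add, mul_one, Finset.mul_sum]
  congr 1
  apply Finset.sum_congr rfl
  intro i _
  ring

/-- Every vector of total one comes from centred coordinates. -/
lemma exists_vec (hc : c ≠ 0) (h2 : Q * Qᵀ = 1) (h0 : ∀ i, Q i 0 = c) (v : Fin (n + 1) → ℂ)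
    (hv : ∑ i, v i = 1) : ∃ x, v = vec Q c x := by
  refine ⟨fun j => (Qᵀ *ᵥ v) j.succ / c, ?_⟩
  have h3 : (c • (Fin.cons 1 (fun j => (Qᵀ *ᵥ v) j.succ / c) : Fin (n + 1) → ℂ)) = Qᵀ *ᵥ v := by
    ext j
    refine Fin.cases ?_ ?_ j
    · rw [sum_eq hc h0, div_eq_one_iff_eq hc] at hv
      rw [hv]
      simp
    · intro j
      simp only [Pi.smul_apply, Fin.cons_succ, smul_eq_mul]
      field_simp
  unfold vec
  rw [h3, mulVec_mulVec, h2, one_mulVec]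

lemma vec_inj (hc : c ≠ 0) (h1 : Qᵀ * Q = 1) {x x' : Fin n → ℂ} (h : vec Q c x = vec Q c x') : x = x' := by
  have h3 := QT_vec (c := c) h1 x
  rw [h, QT_vec h1] at h3
  ext j
  have h4 := congrFun h3 j.succ
  simp only [Pi.smul_apply, Fin.cons_succ, smul_eq_mul] at h4
  exact (mul_left_cancel₀ hc h4).symm

/-- Orthogonality to all vectors of total zero. -/
lemma orth_iff (hc : c ≠ 0) (h1 : Qᵀ * Q = 1) (h2 : Q * Qᵀ = 1) (h0 : ∀ i, Q i 0 = c)
    (u : Fin (n + 1) → ℂ) :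
    (∀ v' : Fin (n + 1) → ℂ, ∑ i, v' i = 0 → v' ⬝ᵥ u = 0) ↔ ∀ j : Fin n, (Qᵀ *ᵥ u) j.succ = 0 := by
  constructor
  · intro h j
    have h3 := h (fun i => Q i j.succ) (by
      rw [sum_eq hc h0]
      have h4 : (Qᵀ *ᵥ (fun i => Q i j.succ)) 0 = (Qᵀ * Q) 0 j.succ := by
        simp [mulVec, dotProduct, Matrix.mul_apply]
      rw [h4, h1, Matrix.one_apply_ne (Fin.succ_ne_zero j).symm, zero_div])
    rw [← h3]
    simp [mulVec, dotProduct]
  · intro h v' hv'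
    rw [dot_Q h2, dotProduct, Fin.sum_univ_succ]
    rw [sum_eq hc h0, div_eq_zero_iff, or_iff_left hc] at hv'
    rw [hv', zero_mul, zero_add]
    apply Finset.sum_eq_zero
    intro i _
    rw [h i, mul_zero]

end

end Pool.Agent.MP_b0e20b_ag
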