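import Pool.Agent.Lib.MP_b0e20b_ag.Classify

/-!
Counting the complex and the real solutions of the symmetric diagonal system.
-/

namespace Pool.Agent.MP_b0e20b_ag

open Finset

set_option linter.unusedSectionVars false

variable {ι : Type*} [Fintype ι] [DecidableEq ι]

/-- A pair of complex vectors with real coordinates. -/
def RealPair {ι κ : Type*} (z : (ι → ℂ) × (κ → ℂ)) : Prop :=
  (∀ i, (z.1 i).im = 0) ∧ ∀ j, (z.2 j).im = 0

/-- A complex square root of a real number. -/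
noncomputable def csq (c : ℝ) : ℂ := if 0 < c then ((√c : ℝ) : ℂ) else Complex.I * ((√(-c) : ℝ) : ℂ)

lemma csq_sq (c : ℝ) : csq c ^ 2 = c := by
  unfold csq
  split_ifs with h
  · rw [← Complex.ofReal_pow, Real.sq_sqrt h.le]
  · push Not at h
    rw [mul_pow, Complex.I_sq, ← Complex.ofReal_pow, Real.sq_sqrt (by linarith)]
    push_cast
    ring

lemma csq_ne_zero {c : ℝ} (hc : c ≠ 0) : csq c ≠ 0 := by
  intro h
  have := csq_sq c
  rw [h] at this
  apply hc
  have h2 : ((c : ℝ) : ℂ) = 0 := by rw [← this]; ring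
  exact_mod_cast h2

lemma csq_im {c : ℝ} (hc : c ≠ 0) : (csq c).im = 0 ↔ 0 < c := by
  unfold csq
  split_ifs with h
  · simp [h]
  · simp only [h, iff_false]
    push Not at h
    have h1 : 0 < -c := by
      rcases h.lt_or_eq with h | h
      · linarith
      · exact absurd h hc
    have h2 : 0 < √(-c) := Real.sqrt_pos.2 h1
    simpa using h2.ne'

/-- symmetric point -/
noncomputable def P1 (σ r : ι → ℝ) (t : ℝ) : (ι → ℂ) × (ι → ℂ) :=
  (fun j => ((r j / (t - σ j) : ℝ) : ℂ), fun j => ((r j / (t - σ j) : ℝ) : ℂ))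

/-- point with `A ≠ B` -/
noncomputable def P2 (σ r : ι → ℝ) (A B : ℝ) : (ι → ℂ) × (ι → ℂ) :=
  (fun j => (((A + σ j) * r j / (A * B - σ j ^ 2) : ℝ) : ℂ),
    fun j => (((B + σ j) * r j / (A * B - σ j ^ 2) : ℝ) : ℂ))

/-- point with a further nonzero coordinate -/
noncomputable def P3 (σ r : ι → ℝ) (i : ι) (ε : ℝ) (ξ : ℂ) : (ι → ℂ) × (ι → ℂ) :=
  (Function.update (fun j => ((r j / (ε * σ i - σ j) : ℝ) : ℂ)) i ξ,
    Function.update (fun j => ((r j / (ε * σ i - σ j) : ℝ) : ℂ)) i (ε * ξ))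

lemma sf_cast (σ r : ι → ℝ) (t : ℝ) :
    sf (fun j => (σ j : ℂ)) (fun j => (r j : ℂ)) (t : ℂ) = ((sf σ r t : ℝ) : ℂ) := by
  unfold sf
  push_cast
  rfl

lemma pf_cast (σ r : ι → ℝ) (t : ℝ) :
    pf (fun j => (σ j : ℂ)) (fun j => (r j : ℂ)) (t : ℂ) = ((pf σ r t : ℝ) : ℂ) := by
  unfold pf
  push_cast
  rfl

lemma af_cast (σ r : ι → ℝ) (t : ℝ) :
    af (fun j => (σ j : ℂ)) (fun j => (r j : ℂ)) (t : ℂ) = ((af σ r t : ℝ) : ℂ) := by
  unfold af
  push_cast
  rfl

lemma bf_cast (σ r : ι → ℝ) (t : ℝ) :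
    bf (fun j => (σ j : ℂ)) (fun j => (r j : ℂ)) (t : ℂ) = ((bf σ r t : ℝ) : ℂ) := by
  unfold bf
  push_cast
  rfl

lemma sum_P1 {σ r : ι → ℝ} {t : ℝ} (h : t - 1 = sf σ r t) :
    (1 + ∑ j, (P1 σ r t).1 j ^ 2) = (t : ℂ) ∧ (1 + ∑ j, (P1 σ r t).2 j ^ 2) = (t : ℂ) := by
  have h1 : (1 + ∑ j, (r j / (t - σ j)) ^ 2) = t := by
    unfold sf at h
    simp only [div_pow]
    linarith
  have h2 : (1 + ∑ j, (((r j / (t - σ j) : ℝ) : ℂ)) ^ 2) = (t : ℂ) := by
    exact_mod_cast h1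
  exact ⟨h2, h2⟩

lemma P1_mem {σ r : ι → ℝ} {t : ℝ} (h : t - 1 = sf σ r t) (ht : ∀ j, r j ≠ 0 → t ≠ σ j) :
    P1 σ r t ∈ DSol σ r := by
  obtain ⟨h1, h2⟩ := sum_P1 h
  have h3 : ∀ i, t * (r i / (t - σ i)) - σ i * (r i / (t - σ i)) = r i := by
    intro i
    by_cases hi : r i = 0
    · simp [hi]
    · have := sub_ne_zero.2 (ht i hi)
      field_simp
  constructor
  · intro i
    rw [h2]
    show (t : ℂ) * ((r i / (t - σ i) : ℝ) : ℂ) - σ i * ((r i / (t - σ i) : ℝ) : ℂ) = r i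
    exact_mod_cast h3 i
  · intro i
    rw [h1]
    show (t : ℂ) * ((r i / (t - σ i) : ℝ) : ℂ) - σ i * ((r i / (t - σ i) : ℝ) : ℂ) = r i
    exact_mod_cast h3 i

lemma sum_P2 {σ r : ι → ℝ} {A B : ℝ} (hj : ∀ j, r j ≠ 0 → A * B ≠ σ j ^ 2)
    (hp : pf σ r (A * B) = 1) (h : (A + B) * af σ r (A * B) = 1 - 2 * bf σ r (A * B)) :
    (1 + ∑ j, (P2 σ r A B).1 j ^ 2) = (A : ℂ) ∧ (1 + ∑ j, (P2 σ r A B).2 j ^ 2) = (B : ℂ) := by
  have hc := cf_eq σ r (A * B) hj
  rw [hp] at hc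
  have h1 : (1 + ∑ j, ((A + σ j) * r j / (A * B - σ j ^ 2)) ^ 2) = A := by
    rw [sum_sq]
    linear_combination A * h - hc
  have h2 : (1 + ∑ j, ((B + σ j) * r j / (A * B - σ j ^ 2)) ^ 2) = B := by
    rw [sum_sq]
    linear_combination B * h - hc
  constructor
  · show (1 + ∑ j, ((((A + σ j) * r j / (A * B - σ j ^ 2) : ℝ)) : ℂ) ^ 2) = (A : ℂ)
    exact_mod_cast h1
  · show (1 + ∑ j, ((((B + σ j) * r j / (A * B - σ j ^ 2) : ℝ)) : ℂ) ^ 2) = (B : ℂ)
    exact_mod_cast h2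

lemma P2_mem {σ r : ι → ℝ} {A B : ℝ} (hj : ∀ j, r j ≠ 0 → A * B ≠ σ j ^ 2)
    (hp : pf σ r (A * B) = 1) (h : (A + B) * af σ r (A * B) = 1 - 2 * bf σ r (A * B)) :
    P2 σ r A B ∈ DSol σ r := by
  obtain ⟨h1, h2⟩ := sum_P2 hj hp h
  constructor
  · intro i
    rw [h2]
    have h3 : B * ((A + σ i) * r i / (A * B - σ i ^ 2)) - σ i * ((B + σ i) * r i / (A * B - σ i ^ 2)) = r i := by
      by_cases hi : r i = 0
      · simp [hi]
      · have := sub_ne_zero.2 (hj i hi)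
        rw [← mul_div_assoc, ← mul_div_assoc, ← sub_div, div_eq_iff this]
        ring
    show (B : ℂ) * (((A + σ i) * r i / (A * B - σ i ^ 2) : ℝ) : ℂ) -
      σ i * (((B + σ i) * r i / (A * B - σ i ^ 2) : ℝ) : ℂ) = r i
    exact_mod_cast h3
  · intro i
    rw [h1]
    have h3 : A * ((B + σ i) * r i / (A * B - σ i ^ 2)) - σ i * ((A + σ i) * r i / (A * B - σ i ^ 2)) = r i := by
      by_cases hi : r i = 0
      · simp [hi]
      · have := sub_ne_zero.2 (hj i hi)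
        rw [← mul_div_assoc, ← mul_div_assoc, ← sub_div, div_eq_iff this]
        ring
    show (A : ℂ) * (((B + σ i) * r i / (A * B - σ i ^ 2) : ℝ) : ℂ) -
      σ i * (((A + σ i) * r i / (A * B - σ i ^ 2) : ℝ) : ℂ) = r i
    exact_mod_cast h3

lemma sum_update (σ r : ι → ℝ) (i : ι) (hi : r i = 0) (ν : ℝ) (ξ : ℂ) :
    ∑ j, (Function.update (fun j => ((r j / (ν - σ j) : ℝ) : ℂ)) i ξ j) ^ 2 =
      ξ ^ 2 + ((sf σ r ν : ℝ) : ℂ) := by
  rw [← Finset.add_sum_erase _ _ (mem_univ i)]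
  rw [Function.update_self]
  congr 1
  unfold sf
  rw [← Finset.add_sum_erase _ _ (mem_univ i), hi]
  push_cast
  simp only [ne_eq, OfNat.ofNat_ne_zero, not_false_eq_true, zero_pow, zero_div, zero_add]
  apply Finset.sum_congr rfl
  intro k hk
  rw [Function.update_of_ne (Finset.mem_erase.1 hk).1, div_pow]

lemma sum_P3 {σ r : ι → ℝ} {i : ι} (hi : r i = 0) {ε : ℝ} (hε : ε = 1 ∨ ε = -1) {ξ : ℂ}
    (hξ : ξ ^ 2 = ((ε * σ i - 1 - sf σ r (ε * σ i) : ℝ) : ℂ)) :
    (1 + ∑ j, (P3 σ r i ε ξ).1 j ^ 2) = ((ε * σ i : ℝ) : ℂ) ∧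
      (1 + ∑ j, (P3 σ r i ε ξ).2 j ^ 2) = ((ε * σ i : ℝ) : ℂ) := by
  have hε2 : ((ε : ℝ) : ℂ) ^ 2 = 1 := by rcases hε with rfl | rfl <;> norm_num
  constructor
  · show 1 + ∑ j, (Function.update (fun j => ((r j / (ε * σ i - σ j) : ℝ) : ℂ)) i ξ j) ^ 2 = _
    rw [sum_update σ r i hi, hξ]
    push_cast
    ring
  · show 1 + ∑ j, (Function.update (fun j => ((r j / (ε * σ i - σ j) : ℝ) : ℂ)) i (ε * ξ) j) ^ 2 = _
    rw [sum_update σ r i hi, mul_pow, hε2, hξ]
    push_cast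
    ring

lemma P3_mem {σ r : ι → ℝ} (hσ : ∀ i, 0 < σ i) (hinj : Function.Injective σ)
    {i : ι} (hi : r i = 0) {ε : ℝ} (hε : ε = 1 ∨ ε = -1) {ξ : ℂ}
    (hξ : ξ ^ 2 = ((ε * σ i - 1 - sf σ r (ε * σ i) : ℝ) : ℂ)) :
    P3 σ r i ε ξ ∈ DSol σ r := by
  obtain ⟨h1, h2⟩ := sum_P3 hi hε hξ
  have hε2 : ((ε : ℝ) : ℂ) * ε = 1 := by rcases hε with rfl | rfl <;> norm_num
  have hne : ∀ j, r j ≠ 0 → ε * σ i - σ j ≠ 0 := by
    intro j hj h
    rcases hε with rfl | rfl
    · have h3 : σ i = σ j := by linarith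
      have h4 := hinj h3
      subst h4
      exact hj hi
    · have := hσ i
      have := hσ j
      linarith
  have h3 : ∀ j, (ε * σ i) * (r j / (ε * σ i - σ j)) - σ j * (r j / (ε * σ i - σ j)) = r j := by
    intro j
    by_cases hj : r j = 0
    · simp [hj]
    · have := hne j hj
      field_simp
  constructor
  · intro j
    rw [h2]
    show ((ε * σ i : ℝ) : ℂ) * Function.update (fun j => ((r j / (ε * σ i - σ j) : ℝ) : ℂ)) i ξ j -
      σ j * Function.update (fun j => ((r j / (ε * σ i - σ j) : ℝ) : ℂ)) i (ε * ξ) j = r j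
    by_cases hj : j = i
    · subst hj
      rw [Function.update_self, Function.update_self, hi]
      push_cast
      ring
    · rw [Function.update_of_ne hj, Function.update_of_ne hj]
      exact_mod_cast h3 j
  · intro j
    rw [h1]
    show ((ε * σ i : ℝ) : ℂ) * Function.update (fun j => ((r j / (ε * σ i - σ j) : ℝ) : ℂ)) i (ε * ξ) j -
      σ j * Function.update (fun j => ((r j / (ε * σ i - σ j) : ℝ) : ℂ)) i ξ j = r j
    by_cases hj : j = i
    · subst hj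
      rw [Function.update_self, Function.update_self, hi]
      push_cast
      linear_combination (σ j : ℂ) * ξ * hε2
    · rw [Function.update_of_ne hj, Function.update_of_ne hj]
      exact_mod_cast h3 j

/-- The sign attached to a Boolean. -/
def sgn (b : Bool) : ℝ := if b then 1 else -1

lemma sgn_cases (b : Bool) : sgn b = 1 ∨ sgn b = -1 := by
  unfold sgn
  cases b <;> simp

lemma sgn_inj {b c : Bool} (h : sgn b = sgn c) : b = c := by
  unfold sgn at h
  cases b <;> cases c <;> simp at h ⊢ <;> norm_num at h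

/-- The two values `A`, `B` attached to a root `t` of `pf = 1`. -/
noncomputable def Ab (σ r : ι → ℝ) (t : ℝ) (b : Bool) : ℝ :=
  ((1 - 2 * bf σ r t) / af σ r t + sgn b * √(((1 - 2 * bf σ r t) / af σ r t) ^ 2 - 4 * t)) / 2

lemma Ab_add (σ r : ι → ℝ) (t : ℝ) (b : Bool) :
    Ab σ r t b + Ab σ r t (!b) = (1 - 2 * bf σ r t) / af σ r t := by
  unfold Ab sgn
  cases b <;> simp <;> ring

lemma Ab_mul {σ r : ι → ℝ} {t : ℝ} (h : 0 ≤ ((1 - 2 * bf σ r t) / af σ r t) ^ 2 - 4 * t) (b : Bool) :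
    Ab σ r t b * Ab σ r t (!b) = t := by
  have h1 := Real.sq_sqrt h
  unfold Ab sgn
  cases b
  · simp only [Bool.not_false, if_true]
    simp only [Bool.false_eq_true, if_false]
    linear_combination (-1/4) * h1
  · simp only [Bool.not_true, if_true]
    simp only [Bool.false_eq_true, if_false]
    linear_combination (-1/4) * h1

lemma Ab_sub {σ r : ι → ℝ} {t : ℝ} (h : 0 < ((1 - 2 * bf σ r t) / af σ r t) ^ 2 - 4 * t) {b c : Bool}
    (hbc : Ab σ r t b = Ab σ r t c) : b = c := by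
  have h1 := Real.sqrt_pos.2 h
  unfold Ab at hbc
  have h2 : sgn b * √(((1 - 2 * bf σ r t) / af σ r t) ^ 2 - 4 * t) =
    sgn c * √(((1 - 2 * bf σ r t) / af σ r t) ^ 2 - 4 * t) := by linarith
  exact sgn_inj (mul_right_cancel₀ h1.ne' h2)

lemma Ab_unique {σ r : ι → ℝ} {t : ℝ} (h : 0 ≤ ((1 - 2 * bf σ r t) / af σ r t) ^ 2 - 4 * t) {A B : ℂ}
    (hadd : A + B = (((1 - 2 * bf σ r t) / af σ r t : ℝ) : ℂ)) (hmul : A * B = t) :
    ∃ b, A = Ab σ r t b ∧ B = Ab σ r t (!b) := by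
  have h1 : (Ab σ r t true : ℂ) + Ab σ r t false = (((1 - 2 * bf σ r t) / af σ r t : ℝ) : ℂ) := by
    exact_mod_cast Ab_add σ r t true
  have h2 : (Ab σ r t true : ℂ) * Ab σ r t false = t := by
    exact_mod_cast Ab_mul h true
  have h3 : (A - Ab σ r t true) * (A - Ab σ r t false) = 0 := by
    linear_combination A * hadd - A * h1 - hmul + h2
  rcases mul_eq_zero.1 h3 with h4 | h4
  · refine ⟨true, by linear_combination h4, ?_⟩
    show B = (Ab σ r t false : ℂ)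
    linear_combination hadd - h1 - h4
  · refine ⟨false, by linear_combination h4, ?_⟩
    show B = (Ab σ r t true : ℂ)
    linear_combination hadd - h1 - h4

/-- The value whose square roots are the further coordinate. -/
noncomputable def cval (σ r : ι → ℝ) (i : ι) (e : Bool) : ℝ :=
  sgn e * σ i - 1 - sf σ r (sgn e * σ i)

/-- The parametrisation of the solutions. -/
noncomputable def F (σ r : ι → ℝ) (N M : Finset ℝ) :
    N ⊕ ((M × Bool) ⊕ ({i : ι // r i = 0} × Bool × Bool)) → (ι → ℂ) × (ι → ℂ)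
  | Sum.inl t => P1 σ r t
  | Sum.inr (Sum.inl (t, b)) => P2 σ r (Ab σ r t b) (Ab σ r t (!b))
  | Sum.inr (Sum.inr (i, e, b)) => P3 σ r i (sgn e) ((sgn b : ℂ) * csq (cval σ r i e))

/-- The hypotheses on the data. -/
structure Good (σ r : ι → ℝ) (N M : Finset ℝ) : Prop where
  pos : ∀ i, 0 < σ i
  inj : Function.Injective σ
  hN : ∀ ν : ℂ, (∀ j, r j ≠ 0 → ν ≠ σ j) →
    (ν - 1 = sf (fun j => (σ j : ℂ)) (fun j => (r j : ℂ)) ν ↔ ∃ t ∈ N, ν = ((t : ℝ) : ℂ))
  hN' : ∀ t ∈ N, ∀ j, r j ≠ 0 → t ≠ σ j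
  hM : ∀ μ : ℂ, (∀ j, r j ≠ 0 → μ ≠ (σ j : ℂ) ^ 2) →
    (pf (fun j => (σ j : ℂ)) (fun j => (r j : ℂ)) μ = 1 ↔ ∃ t ∈ M, μ = ((t : ℝ) : ℂ))
  hM' : ∀ t ∈ M, 0 < t ∧ (∀ j, r j ≠ 0 → t ≠ σ j ^ 2) ∧ 0 < af σ r t ∧
    4 * t * (af σ r t) ^ 2 < (1 - 2 * bf σ r t) ^ 2
  hp : ∀ i, r i = 0 → pf σ r (σ i ^ 2) ≠ 1
  hc : ∀ i, r i = 0 → cval σ r i true ≠ 0

lemma cval_false {σ r : ι → ℝ} (hσ : ∀ i, 0 < σ i) (i : ι) : cval σ r i false < 0 := by
  unfold cval sgn sf
  have h1 : 0 ≤ ∑ j, r j ^ 2 / ((if false = true then (1 : ℝ) else -1) * σ i - σ j) ^ 2 :=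
    Finset.sum_nonneg (fun j _ => by positivity)
  have h2 := hσ i
  have h3 : (if false = true then (1 : ℝ) else -1) * σ i = - σ i := by simp
  linarith

namespace Good

variable {σ r : ι → ℝ} {N M : Finset ℝ}

lemma disc (h : Good σ r N M) {t : ℝ} (ht : t ∈ M) :
    0 < ((1 - 2 * bf σ r t) / af σ r t) ^ 2 - 4 * t := by
  obtain ⟨-, -, h2, h3⟩ := h.hM' t ht
  rw [div_pow, sub_pos, lt_div_iff₀ (by positivity)]
  exact h3

lemma pf_one (h : Good σ r N M) {t : ℝ} (ht : t ∈ M) : pf σ r t = 1 := by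
  obtain ⟨-, h1, -, -⟩ := h.hM' t ht
  have h2 := (h.hM (t : ℂ) (fun j hj h0 => h1 j hj (by exact_mod_cast h0))).2 ⟨t, ht, rfl⟩
  rw [pf_cast] at h2
  exact_mod_cast h2

lemma sf_N (h : Good σ r N M) {t : ℝ} (ht : t ∈ N) : t - 1 = sf σ r t := by
  have h1 := h.hN' t ht
  have h2 := (h.hN (t : ℂ) (fun j hj h0 => h1 j hj (by exact_mod_cast h0))).2 ⟨t, ht, rfl⟩
  rw [sf_cast] at h2
  exact_mod_cast h2

lemma P2_facts (h : Good σ r N M) {t : ℝ} (ht : t ∈ M) (b : Bool) :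
    (∀ j, r j ≠ 0 → Ab σ r t b * Ab σ r t (!b) ≠ σ j ^ 2) ∧
    pf σ r (Ab σ r t b * Ab σ r t (!b)) = 1 ∧
    (Ab σ r t b + Ab σ r t (!b)) * af σ r (Ab σ r t b * Ab σ r t (!b)) =
      1 - 2 * bf σ r (Ab σ r t b * Ab σ r t (!b)) := by
  rw [Ab_mul (h.disc ht).le]
  refine ⟨(h.hM' t ht).2.1, h.pf_one ht, ?_⟩
  rw [Ab_add]
  exact div_mul_cancel₀ _ (h.hM' t ht).2.2.1.ne'

lemma cval_ne (h : Good σ r N M) {i : ι} (hi : r i = 0) (e : Bool) : cval σ r i e ≠ 0 := by
  cases e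
  · exact (cval_false h.pos i).ne
  · exact h.hc i hi

lemma xi_sq (b : Bool) (c : ℝ) : ((sgn b : ℂ) * csq c) ^ 2 = ((c : ℝ) : ℂ) := by
  rw [mul_pow, csq_sq]
  unfold sgn
  cases b <;> simp

/-- the values `A`, `B` of the points. -/
lemma F_AB (h : Good σ r N M) (j : N ⊕ ((M × Bool) ⊕ ({i : ι // r i = 0} × Bool × Bool))) :
    (1 + ∑ k, (F σ r N M j).1 k ^ 2, 1 + ∑ k, (F σ r N M j).2 k ^ 2) =
      (match j with
        | Sum.inl t => (((t : ℝ) : ℂ), ((t : ℝ) : ℂ))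
        | Sum.inr (Sum.inl (t, b)) => ((Ab σ r t b : ℂ), (Ab σ r t (!b) : ℂ))
        | Sum.inr (Sum.inr (i, e, b)) => (((sgn e * σ i : ℝ) : ℂ), ((sgn e * σ i : ℝ) : ℂ))) := by
  rcases j with t | ⟨t, b⟩ | ⟨i, e, b⟩
  · obtain ⟨h1, h2⟩ := sum_P1 (h.sf_N t.2)
    exact Prod.ext h1 h2
  · obtain ⟨h1, h2, h3⟩ := h.P2_facts t.2 b
    obtain ⟨h4, h5⟩ := sum_P2 h1 h2 h3
    exact Prod.ext h4 h5
  · obtain ⟨h4, h5⟩ := sum_P3 (σ := σ) i.2 (sgn_cases e) (xi_sq b (cval σ r i e))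
    exact Prod.ext h4 h5

lemma F_mem (h : Good σ r N M) (j : N ⊕ ((M × Bool) ⊕ ({i : ι // r i = 0} × Bool × Bool))) :
    F σ r N M j ∈ DSol σ r := by
  rcases j with t | ⟨t, b⟩ | ⟨i, e, b⟩
  · exact P1_mem (h.sf_N t.2) (h.hN' t t.2)
  · obtain ⟨h1, h2, h3⟩ := h.P2_facts t.2 b
    exact P2_mem h1 h2 h3
  · exact P3_mem h.pos h.inj i.2 (sgn_cases e) (xi_sq b (cval σ r i e))

lemma F_inj (h : Good σ r N M) : Function.Injective (F σ r N M) := by
  intro j k hjk
  have hj := h.F_AB j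
  have hk := h.F_AB k
  rw [hjk] at hj
  rw [hj] at hk
  rcases j with t | ⟨t, b⟩ | ⟨i, e, b⟩ <;> rcases k with t' | ⟨t', b'⟩ | ⟨i', e', b'⟩ <;>
    simp only [Prod.mk.injEq, Complex.ofReal_inj] at hk
  · rw [Subtype.ext hk.1]
  · exfalso
    have h1 : Ab σ r t' b' = Ab σ r t' (!b') := by rw [← hk.1, ← hk.2]
    have := Ab_sub (h.disc t'.2) h1
    simp at this
  · exfalso
    have h1 : (F σ r N M (Sum.inl t)).1 i' = (F σ r N M (Sum.inr (Sum.inr (i', e', b')))).1 i' := by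
      rw [hjk]
    simp only [F, P1, P3, Function.update_self, i'.2, zero_div] at h1
    have h2 := xi_sq b' (cval σ r i' e')
    rw [← h1] at h2
    apply h.cval_ne i'.2 e'
    have h3 : ((cval σ r i' e' : ℝ) : ℂ) = 0 := by
      rw [← h2]
      simp
    exact_mod_cast h3
  · exfalso
    have h1 : Ab σ r t b = Ab σ r t (!b) := by rw [hk.1, hk.2]
    have := Ab_sub (h.disc t.2) h1
    simp at this
  · have h1 := Ab_mul (h.disc t.2).le b
    have h2 := Ab_mul (h.disc t'.2).le b'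
    rw [hk.1, hk.2, h2] at h1
    have h3 : t' = t := Subtype.ext h1
    subst h3
    have h4 := Ab_sub (h.disc t'.2) hk.1
    rw [h4]
  · exfalso
    have h1 : Ab σ r t b = Ab σ r t (!b) := by rw [hk.1, hk.2]
    have := Ab_sub (h.disc t.2) h1
    simp at this
  · exfalso
    have h1 : (F σ r N M (Sum.inr (Sum.inr (i, e, b)))).1 i = (F σ r N M (Sum.inl t')).1 i := by
      rw [hjk]
    simp only [F, P1, P3, Function.update_self, i.2, zero_div] at h1
    have h2 := xi_sq b (cval σ r i e)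
    rw [h1] at h2
    apply h.cval_ne i.2 e
    have h3 : ((cval σ r i e : ℝ) : ℂ) = 0 := by
      rw [← h2]
      simp
    exact_mod_cast h3
  · exfalso
    have h1 : Ab σ r t' b' = Ab σ r t' (!b') := by rw [← hk.1, ← hk.2]
    have := Ab_sub (h.disc t'.2) h1
    simp at this
  · have h1 := h.pos i
    have h2 := h.pos i'
    have h3 := hk.1
    have h4 : e = e' := by
      cases e <;> cases e' <;> simp only [sgn] at h3 ⊢ <;> norm_num at h3 <;> linarith
    subst h4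
    have h5 : σ i = σ i' := by
      rcases sgn_cases e with h6 | h6 <;> rw [h6] at h3 <;> linarith
    have h6 : i = i' := Subtype.ext (h.inj h5)
    subst h6
    have h7 : (F σ r N M (Sum.inr (Sum.inr (i, e, b)))).1 i =
      (F σ r N M (Sum.inr (Sum.inr (i, e, b')))).1 i := by rw [hjk]
    simp only [F, P3, Function.update_self] at h7
    have h8 : csq (cval σ r i e) ≠ 0 := csq_ne_zero (h.cval_ne i.2 e)
    have h9 := mul_right_cancel₀ h8 h7
    have h10 := sgn_inj (Complex.ofReal_injective h9)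
    rw [h10]

lemma F_surj (h : Good σ r N M) {z : (ι → ℂ) × (ι → ℂ)} (hz : z ∈ DSol σ r) :
    ∃ j, F σ r N M j = z := by
  have hp : ∀ i, r i = 0 → pf (fun j => (σ j : ℂ)) (fun j => (r j : ℂ)) ((σ i : ℂ) ^ 2) ≠ 1 := by
    intro i hi h1
    apply h.hp i hi
    rw [← Complex.ofReal_pow, pf_cast] at h1
    exact_mod_cast h1
  rcases classify h.pos h.inj hp hz with ⟨ν, h1, h2, h3⟩ | ⟨A, B, h1, h2, h3, h4, h5⟩ |
    ⟨i, hi, ε, hε, ξ, hξ, h4, h5⟩
  · obtain ⟨t, ht, rfl⟩ := (h.hN ν h1).1 h2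
    refine ⟨Sum.inl ⟨t, ht⟩, ?_⟩
    rw [h3]
    simp only [F, P1]
    push_cast
    rfl
  · obtain ⟨t, ht, h6⟩ := (h.hM (A * B) h2).1 h3
    have h7 : A + B = (((1 - 2 * bf σ r t) / af σ r t : ℝ) : ℂ) := by
      rw [h6, af_cast, bf_cast] at h4
      have h8 : ((af σ r t : ℝ) : ℂ) ≠ 0 := by exact_mod_cast (h.hM' t ht).2.2.1.ne'
      push_cast
      rw [eq_div_iff h8]
      exact h4
    obtain ⟨b, hA, hB⟩ := Ab_unique (h.disc ht).le h7 h6
    refine ⟨Sum.inr (Sum.inl (⟨t, ht⟩, b)), ?_⟩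
    rw [h5, hA, hB]
    simp only [F, P2]
    push_cast
    rfl
  · have hε' : ∃ e : Bool, ε = ((sgn e : ℝ) : ℂ) := by
      rcases hε with rfl | rfl
      · exact ⟨true, by simp [sgn]⟩
      · exact ⟨false, by simp [sgn]⟩
    obtain ⟨e, rfl⟩ := hε'
    have h6 : ξ ^ 2 = ((cval σ r i e : ℝ) : ℂ) := by
      rw [h4, ← Complex.ofReal_mul, sf_cast]
      unfold cval
      push_cast
      rfl
    have h7 : (ξ - csq (cval σ r i e)) * (ξ + csq (cval σ r i e)) = 0 := by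
      have := csq_sq (cval σ r i e)
      linear_combination h6 - this
    have h8 : ∃ b : Bool, ξ = (sgn b : ℂ) * csq (cval σ r i e) := by
      rcases mul_eq_zero.1 h7 with h8 | h8
      · exact ⟨true, by simp only [sgn]; push_cast; simp; linear_combination h8⟩
      · exact ⟨false, by simp only [sgn]; push_cast; simp; linear_combination h8⟩
    obtain ⟨b, hb⟩ := h8
    refine ⟨Sum.inr (Sum.inr (⟨i, hi⟩, e, b)), ?_⟩
    rw [h5, hb]
    simp only [F, P3]
    push_cast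
    rfl

lemma F_real (h : Good σ r N M) (j : N ⊕ ((M × Bool) ⊕ ({i : ι // r i = 0} × Bool × Bool))) :
    RealPair (F σ r N M j) ↔
      (match j with
        | Sum.inl _ => True
        | Sum.inr (Sum.inl _) => True
        | Sum.inr (Sum.inr (i, e, _)) => e = true ∧ 0 < cval σ r i true) := by
  rcases j with t | ⟨t, b⟩ | ⟨i, e, b⟩
  · simp only [iff_true]
    exact ⟨fun j => Complex.ofReal_im _, fun j => Complex.ofReal_im _⟩
  · simp only [iff_true]
    exact ⟨fun j => Complex.ofReal_im _, fun j => Complex.ofReal_im _⟩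
  · have hne := h.cval_ne i.2 e
    have him : ((sgn b : ℂ) * csq (cval σ r i e)).im = 0 ↔ 0 < cval σ r i e := by
      rw [← csq_im hne, Complex.im_ofReal_mul]
      have : sgn b ≠ 0 := by rcases sgn_cases b with h | h <;> rw [h] <;> norm_num
      simp [this]
    have h1 : RealPair (F σ r N M (Sum.inr (Sum.inr (i, e, b)))) ↔ 0 < cval σ r i e := by
      rw [← him]
      constructor
      · intro h1
        have := h1.1 i
        simpa only [F, P3, Function.update_self] using this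
      · intro h1
        constructor
        · intro j
          simp only [F, P3]
          by_cases hj : j = i
          · subst hj
            rw [Function.update_self]
            exact h1
          · rw [Function.update_of_ne hj]
            exact Complex.ofReal_im _
        · intro j
          simp only [F, P3]
          by_cases hj : j = i
          · subst hj
            rw [Function.update_self, Complex.im_ofReal_mul, h1, mul_zero]
          · rw [Function.update_of_ne hj]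
            exact Complex.ofReal_im _
    rw [h1]
    cases e
    · simp only [Bool.false_eq_true, false_and, iff_false, not_lt]
      exact (cval_false h.pos i).le
    · simp

/-- The number of complex solutions. -/
theorem ncard_DSol (h : Good σ r N M) :
    (DSol σ r).ncard = N.card + (2 * M.card + 4 * (univ.filter (fun i => r i = 0)).card) := by
  have h1 : DSol σ r = Set.range (F σ r N M) := by
    ext z
    constructor
    · intro hz
      exact h.F_surj hz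
    · rintro ⟨j, rfl⟩
      exact h.F_mem j
  rw [h1, ← Set.image_univ, Set.ncard_image_of_injective _ h.F_inj, Set.ncard_univ,
    Nat.card_eq_fintype_card]
  simp only [Fintype.card_sum, Fintype.card_prod, Fintype.card_bool, Fintype.card_coe,
    Fintype.card_subtype]
  ring

/-- The number of real solutions. -/
theorem ncard_real (h : Good σ r N M) :
    {z | z ∈ DSol σ r ∧ RealPair z}.ncard =
      N.card + (2 * M.card + 2 * (univ.filter (fun i => r i = 0 ∧ 0 < cval σ r i true)).card) := by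
  classical
  set G : N ⊕ ((M × Bool) ⊕ ({i : ι // r i = 0 ∧ 0 < cval σ r i true} × Bool)) →
      N ⊕ ((M × Bool) ⊕ ({i : ι // r i = 0} × Bool × Bool)) :=
    Sum.map id (Sum.map id (fun p => (⟨p.1.1, p.1.2.1⟩, true, p.2))) with hG
  have hGinj : Function.Injective G := by
    rw [hG]
    apply Sum.map_injective.2 ⟨Function.injective_id, Sum.map_injective.2 ⟨Function.injective_id, ?_⟩⟩
    rintro ⟨⟨i, hi⟩, b⟩ ⟨⟨i', hi'⟩, b'⟩ h1
    simp only [Prod.mk.injEq, Subtype.mk.injEq, true_and] at h1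
    obtain ⟨h2, h3⟩ := h1
    subst h2
    subst h3
    rfl
  have h1 : {z | z ∈ DSol σ r ∧ RealPair z} = Set.range (F σ r N M ∘ G) := by
    ext z
    constructor
    · rintro ⟨hz, hr⟩
      obtain ⟨j, rfl⟩ := h.F_surj hz
      rw [h.F_real] at hr
      rcases j with t | ⟨t, b⟩ | ⟨i, e, b⟩
      · exact ⟨Sum.inl t, rfl⟩
      · exact ⟨Sum.inr (Sum.inl (t, b)), rfl⟩
      · obtain ⟨h2, h3⟩ := hr
        subst h2
        exact ⟨Sum.inr (Sum.inr (⟨i.1, i.2, h3⟩, b)), rfl⟩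
    · rintro ⟨j, rfl⟩
      refine ⟨h.F_mem _, ?_⟩
      show RealPair (F σ r N M (G j))
      rw [h.F_real]
      rcases j with t | ⟨t, b⟩ | ⟨i, b⟩
      · trivial
      · trivial
      · exact ⟨rfl, i.2.2⟩
  rw [h1, ← Set.image_univ, Set.ncard_image_of_injective _ (h.F_inj.comp hGinj), Set.ncard_univ,
    Nat.card_eq_fintype_card]
  simp only [Fintype.card_sum, Fintype.card_prod, Fintype.card_bool, Fintype.card_coe,
    Fintype.card_subtype]
  ring

end Good

end Pool.Agent.MP_b0e20b_ag
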