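import Pool.Agent.Lib.MP_b0e20b_ag.Coord

/-!
Critical points of the distance on rank-one matrices with entries adding up to one, in centred
coordinates.
-/

namespace Pool.Agent.MP_b0e20b_ag

open Finset Matrix

/-- The bilinear form on matrices. -/
def form {a b : Type*} [Fintype a] [Fintype b] (S T : Matrix a b ℂ) : ℂ := ∑ i, ∑ j, S i j * T i j

/-- The sum of the entries. -/
def total {a b : Type*} [Fintype a] [Fintype b] (T : Matrix a b ℂ) : ℂ := ∑ i, ∑ j, T i j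

/-- `X` is a critical point, on the rank-one matrices of total one, of the distance to `T`. -/
def IsCrit {a b : Type*} [Fintype a] [Fintype b] (T X : Matrix a b ℂ) : Prop :=
  total X = 1 ∧ ∃ (v : a → ℂ) (w : b → ℂ), X = vecMulVec v w ∧
    ∀ (v' : a → ℂ) (w' : b → ℂ), total (vecMulVec v' w + vecMulVec v w') = 0 →
      form (T - X) (vecMulVec v' w + vecMulVec v w') = 0

section

variable {a b : Type*} [Fintype a] [Fintype b]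

lemma total_vecMulVec (v : a → ℂ) (w : b → ℂ) : total (vecMulVec v w) = (∑ i, v i) * ∑ j, w j := by
  unfold total
  simp only [vecMulVec_apply]
  rw [Finset.sum_mul_sum]

lemma total_add (S T : Matrix a b ℂ) : total (S + T) = total S + total T := by
  unfold total
  simp only [Matrix.add_apply, Finset.sum_add_distrib]

lemma form_add (S T U : Matrix a b ℂ) : form S (T + U) = form S T + form S U := by
  unfold form
  simp only [Matrix.add_apply, mul_add, Finset.sum_add_distrib]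

lemma form_vecMulVec (S : Matrix a b ℂ) (v : a → ℂ) (w : b → ℂ) :
    form S (vecMulVec v w) = v ⬝ᵥ (S *ᵥ w) := by
  unfold form
  simp only [vecMulVec_apply, dotProduct, mulVec]
  apply Finset.sum_congr rfl
  intro i _
  rw [Finset.mul_sum]
  apply Finset.sum_congr rfl
  intro j _
  ring

lemma form_vecMulVec' (S : Matrix a b ℂ) (v : a → ℂ) (w : b → ℂ) :
    form S (vecMulVec v w) = w ⬝ᵥ (Sᵀ *ᵥ v) := by
  rw [form_vecMulVec, dotProduct_mulVec, mulVec_transpose, dotProduct_comm]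

lemma isCrit_iff (T X : Matrix a b ℂ) : IsCrit T X ↔
    ∃ (v : a → ℂ) (w : b → ℂ), ∑ i, v i = 1 ∧ ∑ j, w j = 1 ∧ X = vecMulVec v w ∧
      (∀ v' : a → ℂ, ∑ i, v' i = 0 → v' ⬝ᵥ ((T - X) *ᵥ w) = 0) ∧
      (∀ w' : b → ℂ, ∑ j, w' j = 0 → w' ⬝ᵥ ((T - X)ᵀ *ᵥ v) = 0) := by
  constructor
  · rintro ⟨h1, v, w, h2, h3⟩
    have h4 : (∑ i, v i) * ∑ j, w j = 1 := by rw [← total_vecMulVec, ← h2, h1]
    refine ⟨(∑ j, w j) • v, (∑ i, v i) • w, ?_, ?_, ?_, ?_, ?_⟩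
    · simp only [Pi.smul_apply, smul_eq_mul, ← Finset.mul_sum]
      rw [mul_comm, h4]
    · simp only [Pi.smul_apply, smul_eq_mul, ← Finset.mul_sum]
      rw [h4]
    · rw [h2]
      ext i j
      simp only [vecMulVec_apply, Pi.smul_apply, smul_eq_mul]
      linear_combination (-(v i * w j)) * h4
    · intro v' hv'
      have h5 := h3 v' 0 (by
        rw [total_add, total_vecMulVec, total_vecMulVec, hv']
        simp)
      rw [form_add, form_vecMulVec, form_vecMulVec', zero_dotProduct, add_zero] at h5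
      rw [mulVec_smul, dotProduct_smul, h5, smul_zero]
    · intro w' hw'
      have h5 := h3 0 w' (by
        rw [total_add, total_vecMulVec, total_vecMulVec, hw']
        simp)
      rw [form_add, form_vecMulVec, form_vecMulVec', zero_dotProduct, zero_add] at h5
      rw [mulVec_smul, dotProduct_smul, h5, smul_zero]
  · rintro ⟨v, w, h1, h2, h3, h4, h5⟩
    refine ⟨?_, v, w, h3, ?_⟩
    · rw [h3, total_vecMulVec, h1, h2, one_mul]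
    · intro v' w' h6
      rw [total_add, total_vecMulVec, total_vecMulVec, h1, h2, mul_one, one_mul] at h6
      rw [form_add, form_vecMulVec, form_vecMulVec']
      set t := ∑ i, v' i with ht
      have h7 := h4 (v' - t • v) (by
        simp only [Pi.sub_apply, Pi.smul_apply, smul_eq_mul, Finset.sum_sub_distrib, ← Finset.mul_sum]
        rw [h1, ← ht]
        ring)
      have h8 := h5 (w' + t • w) (by
        simp only [Pi.add_apply, Pi.smul_apply, smul_eq_mul, Finset.sum_add_distrib, ← Finset.mul_sum]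
        rw [h2]
        linear_combination h6)
      rw [sub_dotProduct, smul_dotProduct] at h7
      rw [add_dotProduct, smul_dotProduct] at h8
      have h9 : v ⬝ᵥ ((T - X) *ᵥ w) = w ⬝ᵥ ((T - X)ᵀ *ᵥ v) := by
        rw [← form_vecMulVec, form_vecMulVec']
      rw [h9] at h7
      simp only [smul_eq_mul] at h7 h8
      linear_combination h7 + h8

end

section

variable {n₁ n₂ : ℕ} {Q₁ : Matrix (Fin (n₁ + 1)) (Fin (n₁ + 1)) ℂ}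
  {Q₂ : Matrix (Fin (n₂ + 1)) (Fin (n₂ + 1)) ℂ} {c₁ c₂ : ℂ}

/-- The coordinates of a matrix. -/
noncomputable def YY (Q₁ : Matrix (Fin (n₁ + 1)) (Fin (n₁ + 1)) ℂ) (Q₂ : Matrix (Fin (n₂ + 1)) (Fin (n₂ + 1)) ℂ)
    (c₁ c₂ : ℂ) (T : Matrix (Fin (n₁ + 1)) (Fin (n₂ + 1)) ℂ) : Matrix (Fin (n₁ + 1)) (Fin (n₂ + 1)) ℂ :=
  (c₁ * c₂)⁻¹ • (Q₁ᵀ * T * Q₂)

lemma YY_spec (hc₁ : c₁ ≠ 0) (hc₂ : c₂ ≠ 0) (T : Matrix (Fin (n₁ + 1)) (Fin (n₂ + 1)) ℂ) :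
    Q₁ᵀ * T * Q₂ = (c₁ * c₂) • YY Q₁ Q₂ c₁ c₂ T := by
  unfold YY
  rw [smul_smul, mul_inv_cancel₀ (mul_ne_zero hc₁ hc₂), one_smul]

lemma half_iff (hc₁ : c₁ ≠ 0) (hc₂ : c₂ ≠ 0) (h11 : Q₁ᵀ * Q₁ = 1) (h12 : Q₁ * Q₁ᵀ = 1)
    (h10 : ∀ i, Q₁ i 0 = c₁) (h21 : Q₂ᵀ * Q₂ = 1) (h22 : Q₂ * Q₂ᵀ = 1)
    (T : Matrix (Fin (n₁ + 1)) (Fin (n₂ + 1)) ℂ) (x : Fin n₁ → ℂ) (y : Fin n₂ → ℂ) :
    (∀ v' : Fin (n₁ + 1) → ℂ, ∑ i, v' i = 0 →
      v' ⬝ᵥ ((T - vecMulVec (vec Q₁ c₁ x) (vec Q₂ c₂ y)) *ᵥ (vec Q₂ c₂ y)) = 0) ↔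
    ∀ i : Fin n₁, (1 + ∑ j, y j ^ 2) * x i - ∑ j, YY Q₁ Q₂ c₁ c₂ T i.succ j.succ * y j =
      YY Q₁ Q₂ c₁ c₂ T i.succ 0 := by
  rw [orth_iff hc₁ h11 h12 h10]
  apply forall_congr'
  intro i
  have h1 : Q₁ᵀ *ᵥ ((T - vecMulVec (vec Q₁ c₁ x) (vec Q₂ c₂ y)) *ᵥ (vec Q₂ c₂ y)) =
      (c₁ * c₂ * c₂) • (YY Q₁ Q₂ c₁ c₂ T *ᵥ (Fin.cons 1 y : Fin (n₂ + 1) → ℂ)) -
        (c₂ * c₂ * (1 + ∑ j, y j ^ 2)) • (c₁ • (Fin.cons 1 x : Fin (n₁ + 1) → ℂ)) := by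
    rw [sub_mulVec, mulVec_sub]
    congr 1
    · unfold vec
      rw [mulVec_mulVec, mulVec_mulVec, YY_spec hc₁ hc₂, mulVec_smul, smul_mulVec, smul_smul]
      congr 1
      ring
    · rw [vecMulVec_mulVec, vec_dot h21 h22]
      rw [show MulOpposite.op (c₂ * c₂ * (1 + ∑ j, y j ^ 2)) • vec Q₁ c₁ x =
        (c₂ * c₂ * (1 + ∑ j, y j ^ 2)) • vec Q₁ c₁ x from by
          ext k
          simp [mul_comm]]
      rw [mulVec_smul, QT_vec h11]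
  rw [h1]
  have h3 : c₁ * c₂ * c₂ ≠ 0 := mul_ne_zero (mul_ne_zero hc₁ hc₂) hc₂
  have h2 : ((c₁ * c₂ * c₂) • (YY Q₁ Q₂ c₁ c₂ T *ᵥ (Fin.cons 1 y : Fin (n₂ + 1) → ℂ)) -
        (c₂ * c₂ * (1 + ∑ j, y j ^ 2)) • (c₁ • (Fin.cons 1 x : Fin (n₁ + 1) → ℂ))) i.succ =
      (c₁ * c₂ * c₂) * (YY Q₁ Q₂ c₁ c₂ T i.succ 0 -
        ((1 + ∑ j, y j ^ 2) * x i - ∑ j, YY Q₁ Q₂ c₁ c₂ T i.succ j.succ * y j)) := by
    simp only [Pi.sub_apply, Pi.smul_apply, smul_eq_mul, Fin.cons_succ, mulVec, dotProduct,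
      Fin.sum_univ_succ, Fin.cons_zero, mul_one]
    ring
  rw [h2, mul_eq_zero, or_iff_right h3, sub_eq_zero, eq_comm]

lemma YY_transpose (T : Matrix (Fin (n₁ + 1)) (Fin (n₂ + 1)) ℂ) :
    YY Q₂ Q₁ c₂ c₁ Tᵀ = (YY Q₁ Q₂ c₁ c₂ T)ᵀ := by
  unfold YY
  rw [transpose_smul, transpose_mul, transpose_mul, transpose_transpose, mul_comm c₂ c₁, Matrix.mul_assoc]

/-- The parametrisation of the rank-one matrices of total one. -/
def Th (Q₁ : Matrix (Fin (n₁ + 1)) (Fin (n₁ + 1)) ℂ) (Q₂ : Matrix (Fin (n₂ + 1)) (Fin (n₂ + 1)) ℂ)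
    (c₁ c₂ : ℂ) (z : (Fin n₁ → ℂ) × (Fin n₂ → ℂ)) : Matrix (Fin (n₁ + 1)) (Fin (n₂ + 1)) ℂ :=
  vecMulVec (vec Q₁ c₁ z.1) (vec Q₂ c₂ z.2)

/-- The critical points in centred coordinates. -/
theorem crit_eq (hc₁ : c₁ ≠ 0) (hc₂ : c₂ ≠ 0) (h11 : Q₁ᵀ * Q₁ = 1) (h12 : Q₁ * Q₁ᵀ = 1)
    (h10 : ∀ i, Q₁ i 0 = c₁) (h21 : Q₂ᵀ * Q₂ = 1) (h22 : Q₂ * Q₂ᵀ = 1) (h20 : ∀ i, Q₂ i 0 = c₂)
    (T : Matrix (Fin (n₁ + 1)) (Fin (n₂ + 1)) ℂ) :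
    {X | IsCrit T X} = Th Q₁ Q₂ c₁ c₂ ''
      Sol (fun i => YY Q₁ Q₂ c₁ c₂ T i.succ 0) (fun j => YY Q₁ Q₂ c₁ c₂ T 0 j.succ)
        (Matrix.of fun i j => YY Q₁ Q₂ c₁ c₂ T i.succ j.succ) := by
  ext X
  rw [Set.mem_ofPred_eq, isCrit_iff]
  constructor
  · rintro ⟨v, w, hv, hw, rfl, h1, h2⟩
    obtain ⟨x, rfl⟩ := exists_vec hc₁ h12 h10 v hv
    obtain ⟨y, rfl⟩ := exists_vec hc₂ h22 h20 w hw
    refine ⟨(x, y), ⟨?_, ?_⟩, rfl⟩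
    · exact (half_iff hc₁ hc₂ h11 h12 h10 h21 h22 T x y).1 h1
    · have h3 : (T - vecMulVec (vec Q₁ c₁ x) (vec Q₂ c₂ y))ᵀ =
        Tᵀ - vecMulVec (vec Q₂ c₂ y) (vec Q₁ c₁ x) := by
        rw [transpose_sub]
        congr 1
        ext i j
        simp [vecMulVec_apply, mul_comm]
      rw [h3] at h2
      have h4 := (half_iff hc₂ hc₁ h21 h22 h20 h11 h12 Tᵀ y x).1 h2
      rw [YY_transpose] at h4
      exact h4
  · rintro ⟨⟨x, y⟩, ⟨h1, h2⟩, rfl⟩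
    refine ⟨vec Q₁ c₁ x, vec Q₂ c₂ y, sum_vec hc₁ h11 h10 x, sum_vec hc₂ h21 h20 y, rfl, ?_, ?_⟩
    · exact (half_iff hc₁ hc₂ h11 h12 h10 h21 h22 T x y).2 h1
    · have h3 : (T - Th Q₁ Q₂ c₁ c₂ (x, y))ᵀ =
        Tᵀ - vecMulVec (vec Q₂ c₂ y) (vec Q₁ c₁ x) := by
        rw [transpose_sub]
        congr 1
        ext i j
        simp [Th, vecMulVec_apply, mul_comm]
      rw [h3]
      apply (half_iff hc₂ hc₁ h21 h22 h20 h11 h12 Tᵀ y x).2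
      rw [YY_transpose]
      exact h2

lemma Th_row (hc₂ : c₂ ≠ 0) (h21 : Q₂ᵀ * Q₂ = 1) (h20 : ∀ i, Q₂ i 0 = c₂)
    (z : (Fin n₁ → ℂ) × (Fin n₂ → ℂ)) (i : Fin (n₁ + 1)) :
    ∑ j, Th Q₁ Q₂ c₁ c₂ z i j = vec Q₁ c₁ z.1 i := by
  simp only [Th, vecMulVec_apply]
  rw [← Finset.mul_sum, sum_vec hc₂ h21 h20, mul_one]

lemma Th_col (hc₁ : c₁ ≠ 0) (h11 : Q₁ᵀ * Q₁ = 1) (h10 : ∀ i, Q₁ i 0 = c₁)
    (z : (Fin n₁ → ℂ) × (Fin n₂ → ℂ)) (j : Fin (n₂ + 1)) :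
    ∑ i, Th Q₁ Q₂ c₁ c₂ z i j = vec Q₂ c₂ z.2 j := by
  simp only [Th, vecMulVec_apply]
  rw [← Finset.sum_mul, sum_vec hc₁ h11 h10, one_mul]

lemma Th_inj (hc₁ : c₁ ≠ 0) (hc₂ : c₂ ≠ 0) (h11 : Q₁ᵀ * Q₁ = 1)
    (h10 : ∀ i, Q₁ i 0 = c₁) (h21 : Q₂ᵀ * Q₂ = 1) (h20 : ∀ i, Q₂ i 0 = c₂) :
    Function.Injective (Th Q₁ Q₂ c₁ c₂) := by
  intro z z' h
  have h1 : vec Q₁ c₁ z.1 = vec Q₁ c₁ z'.1 := by
    ext i
    rw [← Th_row (Q₁ := Q₁) (c₁ := c₁) hc₂ h21 h20 z i, h, Th_row hc₂ h21 h20]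
  have h2 : vec Q₂ c₂ z.2 = vec Q₂ c₂ z'.2 := by
    ext j
    rw [← Th_col (Q₂ := Q₂) (c₂ := c₂) hc₁ h11 h10 z j, h, Th_col hc₁ h11 h10]
  exact Prod.ext (vec_inj hc₁ h11 h1) (vec_inj hc₂ h21 h2)

/-- The `(0,0)` coordinate is the total. -/
lemma YY_zero (hc₁ : c₁ ≠ 0) (hc₂ : c₂ ≠ 0) (h10 : ∀ i, Q₁ i 0 = c₁) (h20 : ∀ i, Q₂ i 0 = c₂)
    (T : Matrix (Fin (n₁ + 1)) (Fin (n₂ + 1)) ℂ) : YY Q₁ Q₂ c₁ c₂ T 0 0 = total T := by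
  have h : (Q₁ᵀ * T * Q₂) 0 0 = (c₁ * c₂) * total T := by
    unfold total
    rw [Finset.sum_comm, Matrix.mul_apply, Finset.mul_sum]
    apply Finset.sum_congr rfl
    intro j _
    rw [Matrix.mul_apply, h20, Finset.mul_sum, Finset.sum_mul]
    apply Finset.sum_congr rfl
    intro i _
    rw [transpose_apply, h10]
    ring
  unfold YY
  rw [Matrix.smul_apply, h, smul_eq_mul, ← mul_assoc, inv_mul_cancel₀ (mul_ne_zero hc₁ hc₂), one_mul]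

/-- The matrix with given coordinates. -/
noncomputable def TT (Q₁ : Matrix (Fin (n₁ + 1)) (Fin (n₁ + 1)) ℂ) (Q₂ : Matrix (Fin (n₂ + 1)) (Fin (n₂ + 1)) ℂ)
    (c₁ c₂ : ℂ) (Y : Matrix (Fin (n₁ + 1)) (Fin (n₂ + 1)) ℂ) : Matrix (Fin (n₁ + 1)) (Fin (n₂ + 1)) ℂ :=
  (c₁ * c₂) • (Q₁ * Y * Q₂ᵀ)

/-- A complex vector with real coordinates. -/
lemma mulVec_im {a b : Type*} [Fintype a] [Fintype b] (Q : Matrix a b ℝ) {v : b → ℂ} (hv : ∀ i, (v i).im = 0) (i : a) :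
    ((Q.map (fun t : ℝ => (t : ℂ)) *ᵥ v) i).im = 0 := by
  simp only [mulVec, dotProduct, Complex.im_sum, Matrix.map_apply]
  apply Finset.sum_eq_zero
  intro j _
  rw [Complex.im_ofReal_mul, hv j, mul_zero]

lemma vec_real {n : ℕ} {Q : Matrix (Fin (n + 1)) (Fin (n + 1)) ℝ} {c : ℝ} (hc : c ≠ 0)
    (h1 : Qᵀ * Q = 1) (x : Fin n → ℂ) :
    (∀ i, (vec (Q.map (fun t : ℝ => (t : ℂ))) c x i).im = 0) ↔ ∀ i, (x i).im = 0 := by
  have h1' : (Q.map (fun t : ℝ => (t : ℂ)))ᵀ * (Q.map (fun t : ℝ => (t : ℂ))) = 1 := by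
    have h2 := congrArg (fun M : Matrix (Fin (n + 1)) (Fin (n + 1)) ℝ => M.map Complex.ofRealHom) h1
    simp only [Matrix.map_mul] at h2
    rw [Matrix.map_one _ (map_zero _) (map_one _)] at h2
    exact h2
  constructor
  · intro h j
    have h3 := mulVec_im Qᵀ h j.succ
    have h4 : (Qᵀ.map (fun t : ℝ => (t : ℂ)) *ᵥ vec (Q.map (fun t : ℝ => (t : ℂ))) c x) j.succ = c * x j := by
      have h5 := QT_vec (c := (c : ℂ)) h1' x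
      have h6 := congrFun h5 j.succ
      simp only [Pi.smul_apply, Fin.cons_succ, smul_eq_mul] at h6
      exact h6
    rw [h4, Complex.im_ofReal_mul, mul_eq_zero, or_iff_right hc] at h3
    exact h3
  · intro h i
    apply mulVec_im
    intro j
    refine Fin.cases ?_ ?_ j
    · simp
    · intro j
      simp [h j]

/-- Real critical points correspond to real coordinates. -/
lemma Th_real {Q₁ : Matrix (Fin (n₁ + 1)) (Fin (n₁ + 1)) ℝ}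
    {Q₂ : Matrix (Fin (n₂ + 1)) (Fin (n₂ + 1)) ℝ} {c₁ c₂ : ℝ} (hc₁ : c₁ ≠ 0) (hc₂ : c₂ ≠ 0)
    (h11 : Q₁ᵀ * Q₁ = 1) (h10 : ∀ i, Q₁ i 0 = c₁) (h21 : Q₂ᵀ * Q₂ = 1) (h20 : ∀ i, Q₂ i 0 = c₂)
    (z : (Fin n₁ → ℂ) × (Fin n₂ → ℂ)) :
    (∀ i j, (Th (Q₁.map (fun t : ℝ => (t : ℂ))) (Q₂.map (fun t : ℝ => (t : ℂ))) c₁ c₂ z i j).im = 0) ↔
      (∀ i, (z.1 i).im = 0) ∧ ∀ j, (z.2 j).im = 0 := by
  have h11' : (Q₁.map (fun t : ℝ => (t : ℂ)))ᵀ * (Q₁.map (fun t : ℝ => (t : ℂ))) = 1 := by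
    have h2 := congrArg (fun M : Matrix (Fin (n₁ + 1)) (Fin (n₁ + 1)) ℝ => M.map Complex.ofRealHom) h11
    simp only [Matrix.map_mul] at h2
    rw [Matrix.map_one _ (map_zero _) (map_one _)] at h2
    exact h2
  have h21' : (Q₂.map (fun t : ℝ => (t : ℂ)))ᵀ * (Q₂.map (fun t : ℝ => (t : ℂ))) = 1 := by
    have h2 := congrArg (fun M : Matrix (Fin (n₂ + 1)) (Fin (n₂ + 1)) ℝ => M.map Complex.ofRealHom) h21
    simp only [Matrix.map_mul] at h2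
    rw [Matrix.map_one _ (map_zero _) (map_one _)] at h2
    exact h2
  rw [← vec_real hc₁ h11 z.1, ← vec_real hc₂ h21 z.2]
  constructor
  · intro h
    constructor
    · intro i
      rw [← Th_row (c₁ := (c₁ : ℂ)) (Q₁ := Q₁.map (fun t : ℝ => (t : ℂ)))
        (c₂ := (c₂ : ℂ)) (Q₂ := Q₂.map (fun t : ℝ => (t : ℂ))) (by exact_mod_cast hc₂) h21'
        (by intro i; simp [h20]) z i, Complex.im_sum]
      exact Finset.sum_eq_zero (fun j _ => h i j)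
    · intro j
      rw [← Th_col (c₁ := (c₁ : ℂ)) (Q₁ := Q₁.map (fun t : ℝ => (t : ℂ)))
        (c₂ := (c₂ : ℂ)) (Q₂ := Q₂.map (fun t : ℝ => (t : ℂ))) (by exact_mod_cast hc₁) h11'
        (by intro i; simp [h10]) z j, Complex.im_sum]
      exact Finset.sum_eq_zero (fun i _ => h i j)
  · rintro ⟨h1, h2⟩ i j
    simp only [Th, vecMulVec_apply, Complex.mul_im, h1 i, h2 j]
    ring

lemma YY_TT (hc₁ : c₁ ≠ 0) (hc₂ : c₂ ≠ 0) (h11 : Q₁ᵀ * Q₁ = 1) (h21 : Q₂ᵀ * Q₂ = 1)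
    (Y : Matrix (Fin (n₁ + 1)) (Fin (n₂ + 1)) ℂ) : YY Q₁ Q₂ c₁ c₂ (TT Q₁ Q₂ c₁ c₂ Y) = Y := by
  unfold YY TT
  rw [Matrix.mul_smul, Matrix.smul_mul, smul_smul, inv_mul_cancel₀ (mul_ne_zero hc₁ hc₂), one_smul,
    ← Matrix.mul_assoc, ← Matrix.mul_assoc, h11, Matrix.one_mul, Matrix.mul_assoc, h21, Matrix.mul_one]

end

end Pool.Agent.MP_b0e20b_ag
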