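import Pool.Agent.Lib.MP_b0e20b_ag.Params

/-!
The second polynomial and the final choice of parameters.
-/

namespace Pool.Agent.MP_b0e20b_ag

open Finset Polynomial

set_option linter.unusedSectionVars false

variable {L : ℝ} {u v m : ℕ}

/-- The polynomial of degree `u`. -/
noncomputable def gP (L : ℝ) (m u c : ℕ) : ℝ[X] :=
  mixPoly (SS m u) 1 (fun i => X - C (sg L c i ^ 2)) (fun i => rr L u i ^ 2)

lemma natDegree_gP (hu : u ≤ m) (c : ℕ) : (gP L m u c).natDegree ≤ u := by
  have h := natDegree_mixPoly (SS m u) (1 : ℝ[X]) (fun i => (X - C (sg L c i ^ 2)))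
    (fun i => rr L u i ^ 2) 1 0 (by simp) (by
      intro i _
      rw [natDegree_X_sub_C])
  rw [card_SS hu] at h
  unfold gP
  omega

lemma aeval_gP {K : Type*} [Field K] [Algebra ℝ K] (hL : 1600 ≤ L) (c : ℕ) {z : K}
    (hz : ∀ i : Fin m, (i : ℕ) < u → z ≠ algebraMap ℝ K (sg L c i) ^ 2) :
    aeval z (gP L m u c) = (∏ i ∈ SS m u, (z - algebraMap ℝ K (sg L c i) ^ 2)) *
      (1 - pf (fun i : Fin m => algebraMap ℝ K (sg L c i)) (fun i : Fin m => algebraMap ℝ K (rr L u i)) z) := by
  unfold gP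
  rw [aeval_mixPoly]
  · simp only [map_pow, map_sub, aeval_X, aeval_C, map_one]
    congr 2
    unfold pf
    rw [sum_SS (u := u)]
    intro i hi
    show (algebraMap ℝ K (rr L u i)) ^ 2 / _ = 0
    rw [(rr_eq_zero hL).2 hi]
    simp
  · intro i hi
    simp only [map_pow, map_sub, aeval_X, aeval_C]
    exact sub_ne_zero.2 (hz i (mem_SS.1 hi))

lemma pf_SS (hL' : 1600 ≤ L) {c : ℕ} (huc : u ≤ c) (z : ℝ) :
    pf (fun i : Fin m => sg L c i) (fun i : Fin m => rr L u i) z =
      ∑ i ∈ SS m u, 100 * L ^ ((i : ℕ) + 1) / (z - (L ^ ((i : ℕ) + 1)) ^ 2) := by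
  unfold pf
  rw [sum_SS (u := u) (by
    intro i hi
    show rr L u i ^ 2 / (z - sg L c i ^ 2) = 0
    rw [(rr_eq_zero hL').2 hi]
    simp)]
  apply Finset.sum_congr rfl
  intro i hi
  rw [mem_SS] at hi
  show rr L u i ^ 2 / (z - sg L c i ^ 2) = _
  rw [rr_sq hL' hi, sg_of_lt (by omega)]

/-- `pf < 1` at points which are below or far above every `σ²`. -/
lemma pf_lt_one (hu : u ≤ m) (hL : 1600 * ((u : ℝ) + 1) ≤ L) (hL' : 1600 ≤ L) {c : ℕ} (huc : u ≤ c) {z : ℝ}
    (hz : ∀ i < u, z - (L ^ (i + 1)) ^ 2 < 0 ∨ 3 * (L ^ (i + 1)) ^ 2 ≤ z - (L ^ (i + 1)) ^ 2) :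
    pf (fun i : Fin m => sg L c i) (fun i : Fin m => rr L u i) z < 1 := by
  rw [pf_SS hL' huc]
  have hLpos : 0 < L := by linarith
  have h1 : ∀ i ∈ SS m u, 100 * L ^ ((i : ℕ) + 1) / (z - (L ^ ((i : ℕ) + 1)) ^ 2) ≤ 34 / L := by
    intro i hi
    rw [mem_SS] at hi
    have h3 := le_pow_L hL' (i : ℕ)
    have h4 := hz i hi
    set s := L ^ ((i : ℕ) + 1) with hs
    have hspos : 0 < s := by linarith
    rcases h4 with h4 | h4
    · apply le_trans _ (by positivity : (0 : ℝ) ≤ 34 / L)
      exact div_nonpos_of_nonneg_of_nonpos (by positivity) h4.le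
    · have h5 : 0 < z - s ^ 2 := lt_of_lt_of_le (by positivity) h4
      rw [div_le_div_iff₀ h5 hLpos]
      nlinarith [mul_le_mul_of_nonneg_left h3 hspos.le]
  have := sum_SS_le hu hL (by norm_num : (0 : ℝ) ≤ 34) h1
  linarith

lemma pf_gt_one (hu : u ≤ m) (hL : 1600 * ((u : ℝ) + 1) ≤ L) (hL' : 1600 ≤ L) {c : ℕ} (huc : u ≤ c)
    {j : ℕ} (hj : j < u) :
    1 < pf (fun i : Fin m => sg L c i) (fun i : Fin m => rr L u i) ((L ^ (j + 1) + 40) ^ 2) := by
  rw [pf_SS hL' huc]
  have hLpos : 0 < L := by linarith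
  have hjm : j < m := by omega
  set J : Fin m := ⟨j, hjm⟩ with hJ
  have h1 : ∀ i ∈ SS m u, (if i = J then (100 / 81 : ℝ) else 0) -
      100 * L ^ ((i : ℕ) + 1) / ((L ^ (j + 1) + 40) ^ 2 - (L ^ ((i : ℕ) + 1)) ^ 2) ≤ 134 / L := by
    intro i hi
    rw [mem_SS] at hi
    have h3 := le_pow_L hL' (i : ℕ)
    have h3' := le_pow_L hL' j
    rcases lt_trichotomy (i : ℕ) j with h | h | h
    · have hij : i ≠ J := by
        rintro rfl
        rw [hJ] at h
        simp at h
      rw [if_neg hij, zero_sub]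
      have h4 := pow_sep hL' h
      apply le_trans _ (by positivity : (0 : ℝ) ≤ 134 / L)
      rw [neg_nonpos]
      apply div_nonneg (by positivity)
      have h5 : 0 < L ^ ((i : ℕ) + 1) := by positivity
      nlinarith
    · have hij : i = J := by
        ext
        rw [hJ, h]
      rw [if_pos hij, h]
      set s := L ^ (j + 1) with hs
      have hspos : 0 < s := by linarith
      apply le_trans _ (by positivity : (0 : ℝ) ≤ 134 / L)
      rw [sub_nonpos, div_le_div_iff₀ (by norm_num) (by nlinarith)]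
      nlinarith
    · have hij : i ≠ J := by
        rintro rfl
        rw [hJ] at h
        simp at h
      rw [if_neg hij, zero_sub]
      have h4 := pow_sep hL' h
      set s := L ^ ((i : ℕ) + 1) with hs
      set t := L ^ (j + 1) with ht
      have hspos : 0 < s := by linarith
      have h5 : t + 40 ≤ s / 2 := by linarith
      have h6 : (t + 40) ^ 2 ≤ s ^ 2 / 4 := by
        nlinarith
      have h7 : 0 < s ^ 2 - (t + 40) ^ 2 := by nlinarith
      rw [← div_neg, neg_sub, div_le_div_iff₀ h7 hLpos]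
      nlinarith [mul_le_mul_of_nonneg_left h3 hspos.le]
  have h2 := sum_SS_le hu hL (by norm_num : (0 : ℝ) ≤ 134) h1
  rw [Finset.sum_sub_distrib, Finset.sum_ite_eq' (SS m u) J, if_pos (mem_SS.2 hj)] at h2
  linarith

lemma gP_zero (hL' : 1600 ≤ L) {c : ℕ} : (gP L m u c).eval 0 ≠ 0 := by
  have hne : ∀ i : ℕ, sg L c i ≠ 0 := fun i => (sg_pos hL' c i).ne'
  have h1 := aeval_gP (K := ℝ) (m := m) (u := u) hL' c (z := 0) (fun i hi h => by
    simp only [Algebra.algebraMap_self, RingHom.id_apply] at h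
    exact pow_ne_zero 2 (hne i) h.symm)
  rw [Polynomial.coe_aeval_eq_eval] at h1
  rw [h1]
  apply mul_ne_zero
  · rw [Finset.prod_ne_zero_iff]
    intro i hi
    have := hne i
    simp only [Algebra.algebraMap_self, RingHom.id_apply, zero_sub, neg_ne_zero]
    positivity
  · simp only [Algebra.algebraMap_self, RingHom.id_apply]
    have h2 : pf (fun i : Fin m => sg L c i) (fun i : Fin m => rr L u i) 0 ≤ 0 := by
      unfold pf
      apply Finset.sum_nonpos
      intro i _
      apply div_nonpos_of_nonneg_of_nonpos (by positivity)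
      have := sq_nonneg (sg L c i)
      linarith
    linarith

lemma eval_gP (hL' : 1600 ≤ L) {c : ℕ} (huc : u ≤ c) {z : ℝ} (hz : ∀ i < u, z ≠ (L ^ (i + 1)) ^ 2) :
    (gP L m u c).eval z = (∏ i ∈ SS m u, (z - (L ^ ((i : ℕ) + 1)) ^ 2)) *
      (1 - pf (fun i : Fin m => sg L c i) (fun i : Fin m => rr L u i) z) := by
  have h1 := aeval_gP (K := ℝ) (m := m) (u := u) hL' c (z := z) (fun i hi h => by
    simp only [Algebra.algebraMap_self, RingHom.id_apply] at h
    rw [sg_of_lt (by omega : (i : ℕ) < c)] at h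
    exact hz i hi h)
  rw [Polynomial.coe_aeval_eq_eval] at h1
  rw [h1]
  simp only [Algebra.algebraMap_self, RingHom.id_apply]
  congr 1
  apply Finset.prod_congr rfl
  intro i hi
  rw [mem_SS] at hi
  rw [sg_of_lt (by omega : (i : ℕ) < c)]

lemma gP_sign (hu : u ≤ m) (hL : 1600 * ((u : ℝ) + 1) ≤ L) (hL' : 1600 ≤ L) {c : ℕ} (huc : u ≤ c)
    {j : ℕ} (hj : j < u) :
    (gP L m u c).eval ((L ^ (j + 1) + 40) ^ 2) * (gP L m u c).eval ((2 * L ^ (j + 1)) ^ 2) < 0 := by
  have hLpos : 0 < L := by linarith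
  have h1 := pf_gt_one (m := m) hu hL hL' huc hj
  have hfar : ∀ i : ℕ, (L ^ (j + 1) + 40) ^ 2 - (L ^ (i + 1)) ^ 2 < 0 ∧ (2 * L ^ (j + 1)) ^ 2 - (L ^ (i + 1)) ^ 2 < 0
      ∨ 0 < (L ^ (j + 1) + 40) ^ 2 - (L ^ (i + 1)) ^ 2 ∧
        3 * (L ^ (i + 1)) ^ 2 ≤ (2 * L ^ (j + 1)) ^ 2 - (L ^ (i + 1)) ^ 2 := by
    intro i
    have h3 := le_pow_L hL' i
    have h3' := le_pow_L hL' j
    rcases le_or_gt i j with h | h
    · right
      have h4 : L ^ (i + 1) ≤ L ^ (j + 1) := pow_le_pow_right₀ (by linarith) (by omega)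
      constructor <;> nlinarith
    · left
      have h4 := pow_sep hL' h
      constructor <;> nlinarith
  have h2 := pf_lt_one (m := m) (z := (2 * L ^ (j + 1)) ^ 2) hu hL hL' huc (by
    intro i _
    rcases hfar i with h | h
    · exact Or.inl h.2
    · exact Or.inr h.2)
  rw [eval_gP hL' huc, eval_gP hL' huc]
  · have h3 : 0 < (∏ i ∈ SS m u, ((L ^ (j + 1) + 40) ^ 2 - (L ^ ((i : ℕ) + 1)) ^ 2)) *
      ∏ i ∈ SS m u, ((2 * L ^ (j + 1)) ^ 2 - (L ^ ((i : ℕ) + 1)) ^ 2) := by
      rw [← Finset.prod_mul_distrib]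
      apply Finset.prod_pos
      intro i _
      rcases hfar i with h | h
      · exact mul_pos_of_neg_of_neg h.1 h.2
      · apply mul_pos h.1
        have : 0 < L ^ ((i : ℕ) + 1) := by positivity
        nlinarith [h.2]
    have h4 : (1 - pf (fun i : Fin m => sg L c i) (fun i : Fin m => rr L u i) ((L ^ (j + 1) + 40) ^ 2)) *
        (1 - pf (fun i : Fin m => sg L c i) (fun i : Fin m => rr L u i) ((2 * L ^ (j + 1)) ^ 2)) < 0 :=
      mul_neg_of_neg_of_pos (by linarith) (by linarith)
    have h5 := mul_neg_of_pos_of_neg h3 h4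
    linarith
  · intro i hi h
    rcases hfar i with h5 | h5
    · linarith [h5.2]
    · have : 0 < L ^ (i + 1) := by positivity
      nlinarith [h5.2]
  · intro i hi h
    rcases hfar i with h5 | h5
    · linarith [h5.1]
    · linarith [h5.1]

/-- The discriminant is positive on the relevant intervals. -/
lemma disc_pos (hu : u ≤ m) (hL : 1600 * ((u : ℝ) + 1) ≤ L) (hL' : 1600 ≤ L) {c : ℕ} (huc : u ≤ c)
    {j : ℕ} (hj : j < u) {t : ℝ} (ht : t ∈ Set.Ioo ((L ^ (j + 1) + 40) ^ 2) ((2 * L ^ (j + 1)) ^ 2)) :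
    0 < t ∧ (∀ i : Fin m, rr L u i ≠ 0 → t ≠ sg L c i ^ 2) ∧
      0 < af (fun i : Fin m => sg L c i) (fun i : Fin m => rr L u i) t ∧
      4 * t * (af (fun i : Fin m => sg L c i) (fun i : Fin m => rr L u i) t) ^ 2 <
        (1 - 2 * bf (fun i : Fin m => sg L c i) (fun i : Fin m => rr L u i) t) ^ 2 := by
  obtain ⟨ht1, ht2⟩ := ht
  have hLpos : 0 < L := by linarith
  have h3' := le_pow_L hL' j
  have htpos : 0 < t := lt_of_le_of_lt (by positivity) ht1
  set ν := √t with hν
  have hνpos : 0 < ν := Real.sqrt_pos.2 htpos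
  have hνt : t = ν ^ 2 := (Real.sq_sqrt htpos.le).symm
  have hν1 : L ^ (j + 1) + 40 < ν := by
    rw [hνt] at ht1
    exact lt_of_pow_lt_pow_left₀ 2 hνpos.le ht1
  have hν2 : ν < 2 * L ^ (j + 1) := by
    rw [hνt] at ht2
    exact lt_of_pow_lt_pow_left₀ 2 (by positivity) ht2
  -- position with respect to the other values
  have hpos : ∀ i : ℕ, (i < j → L ^ (i + 1) ≤ ν - L ^ (i + 1)) ∧ (j < i → L ^ (i + 1) / 2 ≤ L ^ (i + 1) - ν) := by
    intro i
    constructor
    · intro h
      have := pow_sep hL' h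
      have h5 : 0 < L ^ (i + 1) := by positivity
      linarith
    · intro h
      have := pow_sep hL' h
      have h5 : 0 < L ^ (i + 1) := by positivity
      linarith
  have hne : ∀ i : ℕ, ν - L ^ (i + 1) ≠ 0 := by
    intro i
    have h5 : 0 < L ^ (i + 1) := by positivity
    rcases lt_trichotomy i j with h | h | h
    · have := (hpos i).1 h
      intro h0
      linarith
    · subst h
      intro h0
      linarith
    · have := (hpos i).2 h
      intro h0
      linarith
  have hne' : ∀ i : ℕ, i < u → t ≠ sg L c i ^ 2 := by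
    intro i hi h0
    rw [sg_of_lt (by omega : i < c), hνt] at h0
    have h5 : 0 < L ^ (i + 1) := by positivity
    have h6 : (ν - L ^ (i + 1)) * (ν + L ^ (i + 1)) = 0 := by linear_combination h0
    rcases mul_eq_zero.1 h6 with h7 | h7
    · exact hne i h7
    · linarith
  refine ⟨htpos, ?_, ?_, ?_⟩
  · intro i hi
    apply hne'
    rw [Ne, rr_eq_zero hL'] at hi
    omega
  · unfold af
    rw [sum_SS (u := u) (by
      intro i hi
      show rr L u i ^ 2 / _ = 0
      rw [(rr_eq_zero hL').2 hi]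
      simp)]
    apply Finset.sum_pos
    · intro i hi
      rw [mem_SS] at hi
      have h6 := rr_sq hL' hi
      have h7 := sub_ne_zero.2 (hne' i hi)
      rw [h6]
      positivity
    · exact ⟨⟨j, by omega⟩, mem_SS.2 hj⟩
  · -- the estimate
    have key : bf (fun i : Fin m => sg L c i) (fun i : Fin m => rr L u i) t +
        ν * af (fun i : Fin m => sg L c i) (fun i : Fin m => rr L u i) t < 1 / 2 := by
      have h1 : bf (fun i : Fin m => sg L c i) (fun i : Fin m => rr L u i) t +
        ν * af (fun i : Fin m => sg L c i) (fun i : Fin m => rr L u i) t =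
        ∑ i ∈ SS m u, 100 * L ^ ((i : ℕ) + 1) / ((ν - L ^ ((i : ℕ) + 1)) ^ 2 * (ν + L ^ ((i : ℕ) + 1))) := by
        unfold bf af
        rw [Finset.mul_sum, ← Finset.sum_add_distrib, sum_SS (u := u)]
        · apply Finset.sum_congr rfl
          intro i hi
          rw [mem_SS] at hi
          show sg L c i * rr L u i ^ 2 / (t - sg L c i ^ 2) ^ 2 + ν * (rr L u i ^ 2 / (t - sg L c i ^ 2) ^ 2) = _
          rw [rr_sq hL' hi, sg_of_lt (by omega : (i : ℕ) < c), hνt]
          have h5 := hne i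
          have h6 : ν + L ^ ((i : ℕ) + 1) ≠ 0 := by positivity
          have h7 : ν ^ 2 - (L ^ ((i : ℕ) + 1)) ^ 2 = (ν - L ^ ((i : ℕ) + 1)) * (ν + L ^ ((i : ℕ) + 1)) := by ring
          rw [h7]
          field_simp
          ring
        · intro i hi
          show sg L c i * rr L u i ^ 2 / (t - sg L c i ^ 2) ^ 2 + ν * (rr L u i ^ 2 / (t - sg L c i ^ 2) ^ 2) = 0
          rw [(rr_eq_zero hL').2 hi]
          simp
      rw [h1]
      have hjm : j < m := by omega
      set J : Fin m := ⟨j, hjm⟩ with hJ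
      have h2 : ∀ i ∈ SS m u, 100 * L ^ ((i : ℕ) + 1) / ((ν - L ^ ((i : ℕ) + 1)) ^ 2 * (ν + L ^ ((i : ℕ) + 1))) -
          (if i = J then (1 / 32 : ℝ) else 0) ≤ 400 / L := by
        intro i hi
        have h3 := le_pow_L hL' (i : ℕ)
        rcases lt_trichotomy (i : ℕ) j with h | h | h
        · have hij : i ≠ J := by
            rintro rfl
            rw [hJ] at h
            simp at h
          rw [if_neg hij, sub_zero]
          have h4 := (hpos i).1 h
          set s := L ^ ((i : ℕ) + 1) with hs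
          have hspos : 0 < s := by linarith
          have h5 : s ^ 2 ≤ (ν - s) ^ 2 := by nlinarith
          have h6 : s ^ 2 * s ≤ (ν - s) ^ 2 * (ν + s) :=
            mul_le_mul h5 (by linarith) hspos.le (by positivity)
          calc 100 * s / ((ν - s) ^ 2 * (ν + s)) ≤ 100 * s / (s ^ 2 * s) := by
                apply div_le_div_of_nonneg_left (by positivity) (by positivity) h6
            _ = 100 / s ^ 2 := by field_simp
            _ ≤ 400 / L := by
                rw [div_le_div_iff₀ (by positivity) hLpos]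
                nlinarith
        · have hij : i = J := by
            ext
            rw [hJ, h]
          rw [if_pos hij, h]
          set s := L ^ (j + 1) with hs
          have hspos : 0 < s := by linarith
          apply le_trans _ (by positivity : (0 : ℝ) ≤ 400 / L)
          rw [sub_nonpos]
          have h5 : 40 ^ 2 ≤ (ν - s) ^ 2 := by nlinarith
          have h6 : 40 ^ 2 * (2 * s) ≤ (ν - s) ^ 2 * (ν + s) :=
            mul_le_mul h5 (by linarith) (by positivity) (by positivity)
          calc 100 * s / ((ν - s) ^ 2 * (ν + s)) ≤ 100 * s / (40 ^ 2 * (2 * s)) := by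
                apply div_le_div_of_nonneg_left (by positivity) (by positivity) h6
            _ = 1 / 32 := by field_simp; norm_num
        · have hij : i ≠ J := by
            rintro rfl
            rw [hJ] at h
            simp at h
          rw [if_neg hij, sub_zero]
          have h4 := (hpos i).2 h
          set s := L ^ ((i : ℕ) + 1) with hs
          have hspos : 0 < s := by linarith
          have h5 : s ^ 2 / 4 ≤ (ν - s) ^ 2 := by nlinarith
          have h6 : s ^ 2 / 4 * s ≤ (ν - s) ^ 2 * (ν + s) :=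
            mul_le_mul h5 (by linarith) hspos.le (by positivity)
          calc 100 * s / ((ν - s) ^ 2 * (ν + s)) ≤ 100 * s / (s ^ 2 / 4 * s) := by
                apply div_le_div_of_nonneg_left (by positivity) (by positivity) h6
            _ = 400 / s ^ 2 := by field_simp; norm_num
            _ ≤ 400 / L := by
                rw [div_le_div_iff₀ (by positivity) hLpos]
                nlinarith
      have h3 := sum_SS_le hu hL (by norm_num : (0 : ℝ) ≤ 400) h2
      rw [Finset.sum_sub_distrib, Finset.sum_ite_eq' (SS m u) J, if_pos (mem_SS.2 hj)] at h3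
      linarith
    set a := af (fun i : Fin m => sg L c i) (fun i : Fin m => rr L u i) t with ha
    set b := bf (fun i : Fin m => sg L c i) (fun i : Fin m => rr L u i) t with hb
    have ha0 : 0 ≤ a := Finset.sum_nonneg (fun j _ => by positivity)
    have h1 : 2 * ν * a < 1 - 2 * b := by linarith
    have h2 : 0 ≤ 2 * ν * a := by positivity
    have h3 : (2 * ν * a) ^ 2 < (1 - 2 * b) ^ 2 := pow_lt_pow_left₀ h1 h2 (by norm_num)
    rw [hνt]
    calc 4 * ν ^ 2 * a ^ 2 = (2 * ν * a) ^ 2 := by ring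
      _ < _ := h3

/-- All roots of the second polynomial. -/
lemma exists_M (hu : u ≤ m) (hL : 1600 * ((u : ℝ) + 1) ≤ L) (hL' : 1600 ≤ L) {c : ℕ} (huc : u ≤ c) :
    ∃ M : Finset ℝ, M.card = u ∧
      (∀ μ : ℂ, (∀ j : Fin m, rr L u j ≠ 0 → μ ≠ (sg L c j : ℂ) ^ 2) →
        (pf (fun j : Fin m => (sg L c j : ℂ)) (fun j : Fin m => (rr L u j : ℂ)) μ = 1 ↔
          ∃ t ∈ M, μ = ((t : ℝ) : ℂ))) ∧
      (∀ t ∈ M, 0 < t ∧ (∀ i : Fin m, rr L u i ≠ 0 → t ≠ sg L c i ^ 2) ∧
      0 < af (fun i : Fin m => sg L c i) (fun i : Fin m => rr L u i) t ∧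
      4 * t * (af (fun i : Fin m => sg L c i) (fun i : Fin m => rr L u i) t) ^ 2 <
        (1 - 2 * bf (fun i : Fin m => sg L c i) (fun i : Fin m => rr L u i) t) ^ 2) := by
  have hLpos : 0 < L := by linarith
  obtain ⟨ρ, h1, h2, h3⟩ := exists_all_roots (J := Fin u) (gP L m u c) (by
    intro h
    have := gP_zero (m := m) (u := u) (c := c) hL'
    rw [h, eval_zero] at this
    exact this rfl) (by
    rw [Fintype.card_fin]
    exact natDegree_gP hu c) (fun j => (L ^ ((j : ℕ) + 1) + 40) ^ 2) (fun j => (2 * L ^ ((j : ℕ) + 1)) ^ 2) (by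
      intro j
      have h3' := le_pow_L hL' (j : ℕ)
      show (L ^ ((j : ℕ) + 1) + 40) ^ 2 < (2 * L ^ ((j : ℕ) + 1)) ^ 2
      nlinarith)
    (fun j => gP_sign hu hL hL' huc j.2) (by
    intro i j hij
    rw [Set.disjoint_left]
    rintro x ⟨hx1, hx2⟩ ⟨hx3, hx4⟩
    have h5 : 0 < L ^ ((i : ℕ) + 1) := by positivity
    have h6 : 0 < L ^ ((j : ℕ) + 1) := by positivity
    rcases lt_or_gt_of_ne (fun h => hij (Fin.ext h) : (i : ℕ) ≠ j) with h | h
    · have := pow_sep hL' h
      nlinarith
    · have := pow_sep hL' h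
      nlinarith)
  refine ⟨univ.image ρ, ?_, ?_, ?_⟩
  · rw [Finset.card_image_of_injective _ h1, card_univ, Fintype.card_fin]
  · intro ν hν
    have h4 := h3 ν
    have hne : ∀ i : Fin m, (i : ℕ) < u → ν ≠ algebraMap ℝ ℂ (sg L c i) ^ 2 := fun i hi => hν i (by
      rw [Ne, rr_eq_zero hL']
      omega)
    rw [Polynomial.eval_map_algebraMap, aeval_gP hL' c hne] at h4
    have h5 : (∏ i ∈ SS m u, (ν - algebraMap ℝ ℂ (sg L c i) ^ 2)) ≠ 0 := by
      rw [Finset.prod_ne_zero_iff]
      intro i hi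
      rw [sub_ne_zero]
      exact hne i (mem_SS.1 hi)
    rw [mul_eq_zero, or_iff_right h5, sub_eq_zero] at h4
    rw [show (pf (fun j : Fin m => (sg L c j : ℂ)) (fun j : Fin m => (rr L u j : ℂ)) ν) =
      pf (fun i : Fin m => algebraMap ℝ ℂ (sg L c i)) (fun i : Fin m => algebraMap ℝ ℂ (rr L u i)) ν from rfl,
      eq_comm, h4]
    constructor
    · rintro ⟨n, hn⟩
      exact ⟨ρ n, Finset.mem_image_of_mem _ (mem_univ n), hn⟩
    · rintro ⟨t, ht, htν⟩
      obtain ⟨n, -, rfl⟩ := Finset.mem_image.1 ht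
      exact ⟨n, htν⟩
  · intro t ht
    obtain ⟨n, -, rfl⟩ := Finset.mem_image.1 ht
    exact disc_pos hu hL hL' huc n.2 (h2 n)

/-- Data with `4u + 1 + 2v` real solutions, `v ∈ {0,1}`. -/
theorem exists_good (hv : v ≤ 1) (huv : u + v ≤ m) :
    ∃ (σ r : Fin m → ℝ) (N M : Finset ℝ), Good σ r N M ∧ N.card = 2 * u + 1 ∧ M.card = u ∧
      (univ.filter (fun i => r i = 0)).card = m - u ∧
      (univ.filter (fun i => r i = 0 ∧ 0 < cval σ r i true)).card = v := by
  set L : ℝ := 1600 * ((u : ℝ) + 1) with hLdef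
  have hu0 : (0 : ℝ) ≤ u := Nat.cast_nonneg u
  have hL : 1600 * ((u : ℝ) + 1) ≤ L := le_rfl
  have hL' : 1600 ≤ L := by rw [hLdef]; linarith
  have hLpos : 0 < L := by linarith
  have hu : u ≤ m := by omega
  have huc : u ≤ u + v := by omega
  obtain ⟨N, hN1, hN2, hN3⟩ := exists_N (m := m) hu hL hL' huc
  obtain ⟨M, hM1, hM2, hM3⟩ := exists_M (m := m) hu hL hL' huc
  -- the values at the remaining indices
  have hbig : ∀ i : Fin m, u ≤ (i : ℕ) → (i : ℕ) < u + v →
      0 < cval (fun i : Fin m => sg L (u + v) i) (fun i : Fin m => rr L u i) i true := by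
    intro i hi1 hi2
    unfold cval sgn
    simp only [if_true, one_mul]
    have h1 := sf_le (m := m) (ν := sg L (u + v) i) hu hL hL' huc (by
      intro k hk
      rw [sg_of_lt hi2]
      have h3 := pow_sep hL' (show k < i by omega)
      have h4 : 0 < L ^ (k + 1) := by positivity
      rw [abs_of_nonneg (by linarith)]
      linarith)
    have h2 : L ≤ sg L (u + v) i := by
      rw [sg_of_lt hi2]
      exact le_pow_L hL' _
    linarith
  have hsmall : ∀ i : Fin m, u + v ≤ (i : ℕ) →
      cval (fun i : Fin m => sg L (u + v) i) (fun i : Fin m => rr L u i) i true < 0 := by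
    intro i hi
    unfold cval sgn
    simp only [if_true, one_mul]
    have h1 := sf_nonneg (fun i : Fin m => sg L (u + v) i) (fun i : Fin m => rr L u i) (sg L (u + v) i)
    have h2 := sg_small (L := L) hi
    linarith
  refine ⟨fun i => sg L (u + v) i, fun i => rr L u i, N, M, ?_, hN1, hM1, ?_, ?_⟩
  · refine ⟨fun i => sg_pos hL' _ _, ?_, hN2, hN3, hM2, hM3, ?_, ?_⟩
    · intro i j hij
      exact Fin.ext (sg_inj hL' _ hij)
    · intro i hi
      rw [rr_eq_zero hL'] at hi
      apply ne_of_lt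
      apply pf_lt_one hu hL hL' huc
      intro k hk
      have h3' := le_pow_L hL' k
      rcases lt_or_ge (i : ℕ) (u + v) with h | h
      · right
        rw [sg_of_lt h]
        have h3 := pow_sep hL' (show k < i by omega)
        have h4 : 0 < L ^ (k + 1) := by positivity
        nlinarith
      · left
        have h2 := sg_small (L := L) h
        have h5 := sg_pos hL' (u + v) i
        nlinarith
    · intro i hi
      rw [rr_eq_zero hL'] at hi
      rcases lt_or_ge (i : ℕ) (u + v) with h | h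
      · exact (hbig i hi h).ne'
      · exact (hsmall i h).ne
  · have h1 : (univ.filter (fun i : Fin m => rr L u i = 0)) = (SS m u)ᶜ := by
      ext i
      rw [mem_filter, mem_compl, mem_SS, rr_eq_zero hL']
      simp
    rw [h1, card_compl, card_SS hu, Fintype.card_fin]
  · have h1 : (univ.filter (fun i : Fin m => rr L u i = 0 ∧
      0 < cval (fun i : Fin m => sg L (u + v) i) (fun i : Fin m => rr L u i) i true)) = SS m (u + v) \ SS m u := by
      ext i
      rw [mem_filter, mem_sdiff, mem_SS, mem_SS, rr_eq_zero hL']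
      simp only [mem_univ, true_and]
      constructor
      · rintro ⟨h2, h3⟩
        refine ⟨?_, by omega⟩
        by_contra h4
        have := hsmall i (by omega)
        linarith
      · rintro ⟨h2, h3⟩
        exact ⟨by omega, hbig i (by omega) h2⟩
    have h2 : SS m u ⊆ SS m (u + v) := by
      intro i hi
      rw [mem_SS] at hi ⊢
      omega
    rw [h1, card_sdiff_of_subset h2, card_SS huv, card_SS hu]
    omega

end Pool.Agent.MP_b0e20b_ag
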