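import Pool.Agent.Lib.MP_b0e20b_ag.Zariski
import Pool.Agent.Lib.MP_b0e20b_ag.Params2

/-!
Assembly: the generic number of critical points and the attained numbers of real ones.
-/

namespace Pool.Agent.MP_b0e20b_ag

open Finset Matrix

set_option linter.unusedSectionVars false

lemma encard_of_ncard {α : Type*} {S : Set α} {n : ℕ} (h : S.ncard = n) (hn : 0 < n) : S.encard = n := by
  have hfin : S.Finite := Set.finite_of_ncard_pos (by omega)
  rw [← hfin.cast_ncard_eq, h]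

/-- An involution preserving a finite set: parity of the number of fixed points. -/
lemma parity {α : Type*} {S : Set α} (hfin : S.Finite) (f : α → α) (hf : ∀ x ∈ S, f x ∈ S)
    (hinv : ∀ x ∈ S, f (f x) = x) : Even (S.ncard + {x | x ∈ S ∧ f x = x}.ncard) := by
  classical
  obtain ⟨s, rfl⟩ := hfin.exists_finset_coe
  have h1 : {x | x ∈ (s : Set α) ∧ f x = x} = ((s.filter (fun x => f x = x) : Finset α) : Set α) := by
    ext x
    simp
  rw [h1, Set.ncard_coe_finset, Set.ncard_coe_finset]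
  have h2 : ∑ x ∈ s, (if f x = x then (0 : ZMod 2) else 1) = 0 := by
    apply Finset.sum_involution (fun x _ => f x)
    · intro x hx
      by_cases h : f x = x
      · simp [h]
      · have h3 : f (f x) ≠ f x := by
          rw [hinv x (by exact_mod_cast hx)]
          exact fun h4 => h h4.symm
        rw [if_neg h, if_neg h3]
        decide
    · intro x hx h3 h4
      simp only [h4, if_true] at h3
      exact h3 rfl
    · intro x hx
      exact_mod_cast hf x (by exact_mod_cast hx)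
    · intro x hx
      exact hinv x (by exact_mod_cast hx)
  have h3 : ∑ x ∈ s, (if f x = x then (0 : ZMod 2) else 1) = ((s.filter (fun x => ¬ f x = x)).card : ZMod 2) := by
    rw [Finset.card_filter]
    push_cast
    apply Finset.sum_congr rfl
    intro x _
    by_cases h : f x = x <;> simp [h]
  rw [h3] at h2
  have h4 : Even ((s.filter (fun x => ¬ f x = x)).card) := by
    rw [← ZMod.natCast_eq_zero_iff_even]
    exact h2
  have h5 := Finset.card_filter_add_card_filter_not (s := s) (fun x => f x = x)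
  rw [← h5]
  obtain ⟨c, hc⟩ := h4
  rw [hc]
  exact ⟨(s.filter (fun x => f x = x)).card + c, by ring⟩

section conj

variable {a b : Type*} [Fintype a] [Fintype b]

lemma conj_crit {T X : Matrix a b ℂ} (hT : ∀ i j, (T i j).im = 0) (h : IsCrit T X) :
    IsCrit T (X.map (starRingEnd ℂ)) := by
  obtain ⟨h1, v, w, h2, h3⟩ := h
  have htot : ∀ S : Matrix a b ℂ, total (S.map (starRingEnd ℂ)) = (starRingEnd ℂ) (total S) := by
    intro S
    unfold total
    simp only [Matrix.map_apply, map_sum]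
  have hvm : ∀ (v : a → ℂ) (w : b → ℂ), (vecMulVec v w).map (starRingEnd ℂ) =
      vecMulVec (fun i => starRingEnd ℂ (v i)) (fun j => starRingEnd ℂ (w j)) := by
    intro v w
    ext i j
    simp [vecMulVec_apply]
  refine ⟨by rw [htot, h1, map_one], fun i => starRingEnd ℂ (v i), fun j => starRingEnd ℂ (w j), ?_, ?_⟩
  · rw [h2, hvm]
  · intro v' w' h4
    have h5 : vecMulVec v' (fun j => starRingEnd ℂ (w j)) + vecMulVec (fun i => starRingEnd ℂ (v i)) w' =
        (vecMulVec (fun i => starRingEnd ℂ (v' i)) w + vecMulVec v (fun j => starRingEnd ℂ (w' j))).map (starRingEnd ℂ) := by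
      ext i j
      simp [vecMulVec_apply]
    rw [h5, htot] at h4
    have h6 := h3 (fun i => starRingEnd ℂ (v' i)) (fun j => starRingEnd ℂ (w' j)) (by
      have := congrArg (starRingEnd ℂ) h4
      simpa using this)
    rw [h5]
    have h7 : form (T - X.map (starRingEnd ℂ)) ((vecMulVec (fun i => starRingEnd ℂ (v' i)) w +
        vecMulVec v (fun j => starRingEnd ℂ (w' j))).map (starRingEnd ℂ)) =
        starRingEnd ℂ (form (T - X) (vecMulVec (fun i => starRingEnd ℂ (v' i)) w +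
        vecMulVec v (fun j => starRingEnd ℂ (w' j)))) := by
      unfold form
      simp only [map_sum, map_mul, Matrix.map_apply, Matrix.sub_apply, map_sub]
      apply Finset.sum_congr rfl
      intro i _
      apply Finset.sum_congr rfl
      intro j _
      rw [Complex.conj_eq_iff_im.2 (hT i j)]
    rw [h7, h6, map_zero]

/-- The parity statement. -/
lemma real_parity {T : Matrix a b ℂ} (hT : ∀ i j, (T i j).im = 0) {N k : ℕ}
    (hN : {X | IsCrit T X}.encard = N) (hk : {X | IsCrit T X ∧ ∀ i j, (X i j).im = 0}.encard = k) :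
    Even (N + k) ∧ k ≤ N := by
  have hfin : {X | IsCrit T X}.Finite := by
    apply Set.finite_of_encard_eq_coe hN
  have hset : {X | IsCrit T X ∧ ∀ i j, (X i j).im = 0} =
      {X | X ∈ {X | IsCrit T X} ∧ X.map (starRingEnd ℂ) = X} := by
    ext X
    simp only [Set.mem_ofPred_eq]
    constructor
    · rintro ⟨h1, h2⟩
      refine ⟨h1, ?_⟩
      ext i j
      rw [Matrix.map_apply, Complex.conj_eq_iff_im.2 (h2 i j)]
    · rintro ⟨h1, h2⟩
      refine ⟨h1, fun i j => ?_⟩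
      rw [← Complex.conj_eq_iff_im]
      exact congrFun (congrFun h2 i) j
  have h1 : {X | IsCrit T X}.ncard = N := by
    rw [← hfin.cast_ncard_eq] at hN
    exact_mod_cast hN
  have hfin2 : {X | IsCrit T X ∧ ∀ i j, (X i j).im = 0}.Finite := hfin.subset (fun X h => h.1)
  have h2 : {X | IsCrit T X ∧ ∀ i j, (X i j).im = 0}.ncard = k := by
    rw [← hfin2.cast_ncard_eq] at hk
    exact_mod_cast hk
  constructor
  · have h3 := parity hfin (fun X => X.map (starRingEnd ℂ)) (fun X hX => conj_crit hT hX) (by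
      intro X _
      ext i j
      simp)
    rw [← hset, h1, h2] at h3
    exact h3
  · rw [← h1, ← h2]
    exact Set.ncard_le_ncard (fun X h => h.1) hfin

lemma total_transpose (T : Matrix a b ℂ) : total Tᵀ = total T := by
  unfold total
  rw [Finset.sum_comm]
  rfl

lemma isCrit_transpose {T X : Matrix a b ℂ} (h : IsCrit T X) : IsCrit Tᵀ Xᵀ := by
  obtain ⟨h1, v, w, h2, h3⟩ := h
  refine ⟨by rw [total_transpose, h1], w, v, ?_, ?_⟩
  · rw [h2]
    ext i j
    simp [vecMulVec_apply, mul_comm]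
  · intro v' w' h4
    have h5 : vecMulVec v' v + vecMulVec w w' = (vecMulVec w' w + vecMulVec v v')ᵀ := by
      ext i j
      simp [vecMulVec_apply, mul_comm, add_comm]
    rw [h5, total_transpose] at h4
    rw [h5]
    have h6 := h3 w' v' h4
    have h7 : ∀ S U : Matrix a b ℂ, form Sᵀ Uᵀ = form S U := by
      intro S U
      unfold form
      rw [Finset.sum_comm]
      rfl
    rw [← transpose_sub, h7, h6]

lemma crit_transpose (T : Matrix a b ℂ) : {X | IsCrit Tᵀ X} = transpose '' {X | IsCrit T X} := by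
  ext X
  constructor
  · intro h
    exact ⟨Xᵀ, by simpa using isCrit_transpose h, transpose_transpose X⟩
  · rintro ⟨X, hX, rfl⟩
    exact isCrit_transpose hX

end conj

/-- `N` is the number of critical points outside a proper closed algebraic subset of the
hyperplane. -/
def HasGen (n₁ n₂ N : ℕ) : Prop :=
  ∃ P : MvPolynomial (Fin (n₁ + 1) × Fin (n₂ + 1)) ℂ,
    (∃ T : Matrix (Fin (n₁ + 1)) (Fin (n₂ + 1)) ℂ, total T = 1 ∧
      MvPolynomial.eval (fun p => T p.1 p.2) P ≠ 0) ∧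
    ∀ T : Matrix (Fin (n₁ + 1)) (Fin (n₂ + 1)) ℂ, total T = 1 →
      MvPolynomial.eval (fun p => T p.1 p.2) P ≠ 0 → {X | IsCrit T X}.encard = N

/-- Some real tensor of total one has exactly `N` complex critical points, `k` of them real. -/
def Att (n₁ n₂ N k : ℕ) : Prop :=
  ∃ T : Matrix (Fin (n₁ + 1)) (Fin (n₂ + 1)) ℂ, (∀ i j, (T i j).im = 0) ∧ total T = 1 ∧
    {X | IsCrit T X}.encard = N ∧ {X | IsCrit T X ∧ ∀ i j, (X i j).im = 0}.encard = k

lemma HasGen.symm {n₁ n₂ N : ℕ} (h : HasGen n₁ n₂ N) : HasGen n₂ n₁ N := by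
  obtain ⟨P, ⟨T, hT1, hT2⟩, hP⟩ := h
  have hev : ∀ T : Matrix (Fin (n₂ + 1)) (Fin (n₁ + 1)) ℂ,
      MvPolynomial.eval (fun p => T p.1 p.2) (MvPolynomial.rename Prod.swap P) =
        MvPolynomial.eval (fun p => Tᵀ p.1 p.2) P := by
    intro T
    rw [MvPolynomial.eval_rename]
    rfl
  refine ⟨MvPolynomial.rename Prod.swap P, ⟨Tᵀ, by rw [total_transpose, hT1], ?_⟩, ?_⟩
  · rw [hev, transpose_transpose]
    exact hT2
  · intro S hS1 hS2
    rw [hev] at hS2
    have h1 := hP Sᵀ (by rw [total_transpose, hS1]) hS2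
    rw [crit_transpose, transpose_injective.encard_image] at h1
    exact h1

lemma Att.symm {n₁ n₂ N k : ℕ} (h : Att n₁ n₂ N k) : Att n₂ n₁ N k := by
  obtain ⟨T, h1, h2, h3, h4⟩ := h
  refine ⟨Tᵀ, fun i j => h1 j i, by rw [total_transpose, h2], ?_, ?_⟩
  · rw [crit_transpose, transpose_injective.encard_image, h3]
  · have h5 : {X | IsCrit Tᵀ X ∧ ∀ i j, (X i j).im = 0} =
        transpose '' {X | IsCrit T X ∧ ∀ i j, (X i j).im = 0} := by
      ext X
      constructor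
      · rintro ⟨h6, h7⟩
        exact ⟨Xᵀ, ⟨by simpa using isCrit_transpose h6, fun i j => h7 j i⟩, transpose_transpose X⟩
      · rintro ⟨X, ⟨h6, h7⟩, rfl⟩
        exact ⟨isCrit_transpose h6, fun i j => h7 j i⟩
    rw [h5, transpose_injective.encard_image, h4]

section le

variable {n₁ n₂ : ℕ}

/-- complexified orthogonal matrices -/
lemma exists_QC (n : ℕ) : ∃ Q : Matrix (Fin (n + 1)) (Fin (n + 1)) ℝ, Qᵀ * Q = 1 ∧ (∀ i, Q i 0 = cc n) ∧
    (Q.map (fun t : ℝ => (t : ℂ)))ᵀ * (Q.map (fun t : ℝ => (t : ℂ))) = 1 ∧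
    (Q.map (fun t : ℝ => (t : ℂ))) * (Q.map (fun t : ℝ => (t : ℂ)))ᵀ = 1 ∧
    ∀ i, (Q.map (fun t : ℝ => (t : ℂ))) i 0 = ((cc n : ℝ) : ℂ) := by
  obtain ⟨Q, h1, h2, h3⟩ := exists_Q n
  have h1' : (Q.map (fun t : ℝ => (t : ℂ)))ᵀ * (Q.map (fun t : ℝ => (t : ℂ))) = 1 := by
    have h2 := congrArg (fun M : Matrix (Fin (n + 1)) (Fin (n + 1)) ℝ => M.map Complex.ofRealHom) h1
    simp only [Matrix.map_mul] at h2
    rw [Matrix.map_one _ (map_zero _) (map_one _)] at h2
    exact h2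
  exact ⟨Q, h1, h3, h1', mul_eq_one_comm.1 h1', fun i => by simp [h3]⟩

lemma cc_ne (n : ℕ) : ((cc n : ℝ) : ℂ) ≠ 0 := by exact_mod_cast (cc_pos n).ne'

theorem hasGen_le (h : n₁ ≤ n₂) : HasGen n₁ n₂ (4 * n₁ + 1) := by
  obtain ⟨Q₁, -, -, h11, h12, h10⟩ := exists_QC n₁
  obtain ⟨Q₂, -, -, h21, h22, h20⟩ := exists_QC n₂
  refine ⟨genPoly _ _ _ _, exists_generic h (cc_ne n₁) (cc_ne n₂) h11 h10 h21 h20, ?_⟩
  intro T _ hT
  exact encard_of_ncard (crit_ncard (cc_ne n₁) (cc_ne n₂) h11 h12 h10 h21 h22 h20 T hT) (by omega)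

/-- extension by zero -/
def ext0 (_h : n₁ ≤ n₂) (z : (Fin n₁ → ℂ) × (Fin n₁ → ℂ)) : (Fin n₁ → ℂ) × (Fin n₂ → ℂ) :=
  (z.1, fun j => if hj : (j : ℕ) < n₁ then z.2 ⟨j, hj⟩ else 0)

lemma sum_ext (h : n₁ ≤ n₂) (F : Fin n₂ → ℂ) (hF : ∀ j : Fin n₂, n₁ ≤ (j : ℕ) → F j = 0) :
    ∑ j, F j = ∑ i : Fin n₁, F (Fin.castLE h i) := by
  symm
  have h2 : ∑ i : Fin n₁, F (Fin.castLE h i) = ∑ j ∈ univ.map (Fin.castLEEmb h), F j := by
    rw [Finset.sum_map]
    rfl
  rw [h2]
  apply Finset.sum_subset (Finset.subset_univ _)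
  intro j _ hj
  apply hF
  by_contra h4
  apply hj
  rw [Finset.mem_map]
  exact ⟨⟨j, by omega⟩, mem_univ _, by ext; simp⟩

lemma ext0_castLE (h : n₁ ≤ n₂) (z : (Fin n₁ → ℂ) × (Fin n₁ → ℂ)) (i : Fin n₁) :
    (ext0 h z).2 (Fin.castLE h i) = z.2 i := by
  unfold ext0
  have h1 : ((Fin.castLE h i : Fin n₂) : ℕ) < n₁ := i.2
  simp only [h1, dif_pos]
  rfl

lemma ext0_ge (h : n₁ ≤ n₂) (z : (Fin n₁ → ℂ) × (Fin n₁ → ℂ)) {j : Fin n₂} (hj : n₁ ≤ (j : ℕ)) :
    (ext0 h z).2 j = 0 := by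
  unfold ext0
  have h1 : ¬ (j : ℕ) < n₁ := by omega
  simp only [h1, dif_neg, not_false_eq_true]

lemma ext0_inj (h : n₁ ≤ n₂) : Function.Injective (ext0 h) := by
  rintro z z' hz
  have h1 : (ext0 h z).1 = (ext0 h z').1 := by rw [hz]
  have h2 : z.2 = z'.2 := by
    ext i
    rw [← ext0_castLE h z i, hz, ext0_castLE]
  exact Prod.ext h1 h2

/-- The special data. -/
noncomputable def Wsp (n₁ n₂ : ℕ) (σ : Fin n₁ → ℝ) : Matrix (Fin n₁) (Fin n₂) ℂ :=
  Matrix.of fun i j => if (i : ℕ) = j then (σ i : ℂ) else 0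

lemma Sol_special (h : n₁ ≤ n₂) {σ r : Fin n₁ → ℝ} (hσ : ∀ i, 0 < σ i) :
    Sol (fun i => (r i : ℂ)) (fun j : Fin n₂ => if hj : (j : ℕ) < n₁ then (r ⟨j, hj⟩ : ℂ) else 0) (Wsp n₁ n₂ σ) =
      ext0 h '' DSol σ r := by
  have hrow : ∀ (i : Fin n₁) (f : Fin n₂ → ℂ), ∑ j, Wsp n₁ n₂ σ i j * f j = σ i * f (Fin.castLE h i) := by
    intro i f
    rw [Finset.sum_eq_single (Fin.castLE h i)]
    · simp [Wsp]
    · intro j _ hj
      have : ¬ ((i : ℕ) = j) := by
        intro h0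
        apply hj
        ext
        simp [h0]
      simp [Wsp, this]
    · intro h0
      exact absurd (mem_univ _) h0
  have hcol : ∀ (i : Fin n₁) (f : Fin n₁ → ℂ), ∑ k, Wsp n₁ n₂ σ k (Fin.castLE h i) * f k = σ i * f i := by
    intro i f
    rw [Finset.sum_eq_single i]
    · simp [Wsp]
    · intro k _ hk
      have : ¬ ((k : ℕ) = (i : ℕ)) := fun h0 => hk (Fin.ext h0)
      simp [Wsp, this]
    · intro h0
      exact absurd (mem_univ _) h0
  have hcol0 : ∀ (j : Fin n₂), n₁ ≤ (j : ℕ) → ∀ f : Fin n₁ → ℂ, ∑ k, Wsp n₁ n₂ σ k j * f k = 0 := by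
    intro j hj f
    apply Finset.sum_eq_zero
    intro k _
    have : ¬ ((k : ℕ) = (j : ℕ)) := by
      have := k.2
      omega
    simp [Wsp, this]
  have hsum : ∀ z : (Fin n₁ → ℂ) × (Fin n₁ → ℂ), ∑ j, (ext0 h z).2 j ^ 2 = ∑ i, z.2 i ^ 2 := by
    intro z
    rw [sum_ext h _ (fun j hj => by rw [ext0_ge h z hj]; ring)]
    simp only [ext0_castLE]
  have hs : ∀ i : Fin n₁, (if hj : ((Fin.castLE h i : Fin n₂) : ℕ) < n₁ then
      (r ⟨(Fin.castLE h i : Fin n₂), hj⟩ : ℂ) else 0) = r i := by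
    intro i
    have h1 : ((Fin.castLE h i : Fin n₂) : ℕ) < n₁ := i.2
    simp only [h1, dif_pos]
    rfl
  ext ⟨x, y⟩
  constructor
  · rintro ⟨hx, hy⟩
    simp only at hx hy
    have hA : 1 + ∑ i, x i ^ 2 ≠ 0 := by
      intro h0
      have h1 : ∀ i, x i = ((-(r i / σ i) : ℝ) : ℂ) := by
        intro i
        have h2 := hy (Fin.castLE h i)
        rw [h0, zero_mul, zero_sub, hcol, hs] at h2
        have h3 : ((σ i : ℝ) : ℂ) ≠ 0 := by exact_mod_cast (hσ i).ne'
        push_cast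
        field_simp
        linear_combination -h2
      apply one_add_sum_sq_ne_zero (fun i => -(r i / σ i))
      simpa only [h1] using h0
    have hy0 : ∀ j : Fin n₂, n₁ ≤ (j : ℕ) → y j = 0 := by
      intro j hj
      have h2 := hy j
      have h3 : ¬ (j : ℕ) < n₁ := by omega
      rw [hcol0 j hj, sub_zero] at h2
      simp only [h3, dif_neg, not_false_eq_true] at h2
      exact (mul_eq_zero.1 h2).resolve_left hA
    have hyext : (ext0 h (x, fun i => y (Fin.castLE h i))) = (x, y) := by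
      apply Prod.ext
      · rfl
      · ext j
        by_cases hj : (j : ℕ) < n₁
        · have h4 : j = Fin.castLE h ⟨j, hj⟩ := by ext; simp
          rw [h4, ext0_castLE]
        · rw [ext0_ge h _ (by omega)]
          exact (hy0 j (by omega)).symm
    refine ⟨(x, fun i => y (Fin.castLE h i)), ⟨?_, ?_⟩, hyext⟩
    · intro i
      have h2 := hx i
      have h3 := hsum (x, fun i => y (Fin.castLE h i))
      rw [hyext] at h3
      simp only at h3 ⊢
      rw [← h3, ← h2, hrow]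
    · intro i
      have h2 := hy (Fin.castLE h i)
      rw [hcol, hs] at h2
      exact h2
  · rintro ⟨z, ⟨hx, hy⟩, hz⟩
    rw [← hz]
    constructor
    · intro i
      rw [hsum, hrow, ext0_castLE]
      exact hx i
    · intro j
      by_cases hj : (j : ℕ) < n₁
      · obtain ⟨i, rfl⟩ : ∃ i : Fin n₁, j = Fin.castLE h i := ⟨⟨j, hj⟩, by ext; simp⟩
        rw [hcol, ext0_castLE]
        simp only
        rw [hs]
        exact hy i
      · rw [hcol0 j (by omega), ext0_ge h z (by omega)]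
        simp [hj]

/-- All odd numbers are attained. -/
theorem att_le (h : n₁ ≤ n₂) {k : ℕ} (hk : Odd k) (hk2 : k ≤ 4 * n₁ + 1) : Att n₁ n₂ (4 * n₁ + 1) k := by
  obtain ⟨l, rfl⟩ := hk
  obtain ⟨σ, r, N, M, hgood, hN, hM, h0, hv⟩ := exists_good (m := n₁) (u := l / 2) (v := l % 2)
    (by omega) (by omega)
  obtain ⟨Q₁, hr1, hq1, h11, h12, h10⟩ := exists_QC n₁
  obtain ⟨Q₂, hr2, hq2, h21, h22, h20⟩ := exists_QC n₂
  have hc₁ := cc_ne n₁
  have hc₂ := cc_ne n₂
  set s : Fin n₂ → ℂ := fun j => if hj : (j : ℕ) < n₁ then (r ⟨j, hj⟩ : ℂ) else 0 with hs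
  set Y : Matrix (Fin (n₁ + 1)) (Fin (n₂ + 1)) ℂ := Matrix.of fun i j =>
    Fin.cases (Fin.cases (1 : ℂ) (fun j => s j) j) (fun i => Fin.cases (r i : ℂ) (fun j => Wsp n₁ n₂ σ i j) j) i with hY
  have hYreal : ∀ i j, (Y i j).im = 0 := by
    intro i j
    refine Fin.cases ?_ (fun i => ?_) i <;> refine Fin.cases ?_ (fun j => ?_) j
    · show ((1 : ℂ)).im = 0
      simp
    · show (s j).im = 0
      rw [hs]
      simp only
      split_ifs <;> simp
    · show ((r i : ℂ)).im = 0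
      simp
    · show (Wsp n₁ n₂ σ i j).im = 0
      unfold Wsp
      rw [of_apply]
      split_ifs <;> simp
  set T := TT (Q₁.map (fun t : ℝ => (t : ℂ))) (Q₂.map (fun t : ℝ => (t : ℂ))) (cc n₁ : ℂ) (cc n₂ : ℂ) Y with hT
  have hYY : YY (Q₁.map (fun t : ℝ => (t : ℂ))) (Q₂.map (fun t : ℝ => (t : ℂ))) (cc n₁ : ℂ) (cc n₂ : ℂ) T = Y :=
    YY_TT hc₁ hc₂ h11 h21 Y
  have hTreal : ∀ i j, (T i j).im = 0 := by
    intro i j
    rw [hT]
    unfold TT
    rw [Matrix.smul_apply, smul_eq_mul, ← Complex.ofReal_mul, Complex.im_ofReal_mul]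
    have h1 : ((Q₁.map (fun t : ℝ => (t : ℂ)) * Y * (Q₂.map (fun t : ℝ => (t : ℂ)))ᵀ) i j).im = 0 := by
      rw [Matrix.mul_apply, Complex.im_sum]
      apply Finset.sum_eq_zero
      intro l _
      rw [transpose_apply, Matrix.map_apply, Complex.im_mul_ofReal, Matrix.mul_apply, Complex.im_sum]
      rw [Finset.sum_eq_zero (fun k _ => by
        rw [Matrix.map_apply, Complex.im_ofReal_mul, hYreal, mul_zero]), zero_mul]
    rw [h1, mul_zero]
  have hcrit : {X | IsCrit T X} = Th (Q₁.map (fun t : ℝ => (t : ℂ))) (Q₂.map (fun t : ℝ => (t : ℂ))) (cc n₁ : ℂ) (cc n₂ : ℂ) ''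
      (ext0 h '' DSol σ r) := by
    rw [crit_eq hc₁ hc₂ h11 h12 h10 h21 h22 h20, hYY, ← Sol_special h hgood.pos]
    rfl
  have hThinj := Th_inj hc₁ hc₂ h11 h10 h21 h20
  have h1 : {X | IsCrit T X}.ncard = 4 * n₁ + 1 := by
    rw [hcrit, Set.ncard_image_of_injective _ hThinj, Set.ncard_image_of_injective _ (ext0_inj h),
      hgood.ncard_DSol, hN, hM, h0]
    omega
  have h2 : {X | IsCrit T X ∧ ∀ i j, (X i j).im = 0} =
      Th (Q₁.map (fun t : ℝ => (t : ℂ))) (Q₂.map (fun t : ℝ => (t : ℂ))) (cc n₁ : ℂ) (cc n₂ : ℂ) ''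
      (ext0 h '' {z | z ∈ DSol σ r ∧ RealPair z}) := by
    have hreal : ∀ z : (Fin n₁ → ℂ) × (Fin n₁ → ℂ), (∀ i j, (Th (Q₁.map (fun t : ℝ => (t : ℂ))) (Q₂.map (fun t : ℝ => (t : ℂ)))
        (cc n₁ : ℂ) (cc n₂ : ℂ) (ext0 h z) i j).im = 0) ↔ RealPair z := by
      intro z
      rw [Th_real (cc_pos n₁).ne' (cc_pos n₂).ne' hr1 hq1 hr2 hq2]
      constructor
      · rintro ⟨h3, h4⟩
        refine ⟨h3, fun i => ?_⟩
        have := h4 (Fin.castLE h i)
        rwa [ext0_castLE] at this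
      · rintro ⟨h3, h4⟩
        refine ⟨h3, fun j => ?_⟩
        by_cases hj : (j : ℕ) < n₁
        · obtain ⟨i, rfl⟩ : ∃ i : Fin n₁, j = Fin.castLE h i := ⟨⟨j, hj⟩, by ext; simp⟩
          rw [ext0_castLE]
          exact h4 i
        · rw [ext0_ge h z (by omega)]
          simp
    ext X
    constructor
    · rintro ⟨h3, h4⟩
      have h5 : X ∈ {X | IsCrit T X} := h3
      rw [hcrit] at h5
      obtain ⟨_, ⟨z, hz, rfl⟩, rfl⟩ := h5
      exact ⟨ext0 h z, ⟨z, ⟨hz, (hreal z).1 h4⟩, rfl⟩, rfl⟩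
    · rintro ⟨_, ⟨z, ⟨hz, hzr⟩, rfl⟩, rfl⟩
      refine ⟨?_, (hreal z).2 hzr⟩
      have h5 : Th (Q₁.map (fun t : ℝ => (t : ℂ))) (Q₂.map (fun t : ℝ => (t : ℂ))) (cc n₁ : ℂ) (cc n₂ : ℂ) (ext0 h z) ∈
          {X | IsCrit T X} := by
        rw [hcrit]
        exact ⟨_, ⟨z, hz, rfl⟩, rfl⟩
      exact h5
  have h3 : {X | IsCrit T X ∧ ∀ i j, (X i j).im = 0}.ncard = 2 * l + 1 := by
    rw [h2, Set.ncard_image_of_injective _ hThinj, Set.ncard_image_of_injective _ (ext0_inj h),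
      hgood.ncard_real, hN, hM, hv]
    omega
  refine ⟨T, hTreal, ?_, encard_of_ncard h1 (by omega), encard_of_ncard h3 (by omega)⟩
  rw [← YY_zero hc₁ hc₂ h10 h20, hYY]
  rfl

end le

/-- The complete answer for tensors of order two. -/
theorem main (n₁ n₂ : ℕ) : HasGen n₁ n₂ (4 * min n₁ n₂ + 1) ∧
    ∀ k : ℕ, Att n₁ n₂ (4 * min n₁ n₂ + 1) k ↔ Odd k ∧ k ≤ 4 * min n₁ n₂ + 1 := by
  constructor
  · rcases le_total n₁ n₂ with h | h
    · rw [min_eq_left h]
      exact hasGen_le h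
    · rw [min_eq_right h]
      exact (hasGen_le h).symm
  · intro k
    constructor
    · rintro ⟨T, h1, h2, h3, h4⟩
      obtain ⟨h5, h6⟩ := real_parity h1 h3 h4
      refine ⟨?_, h6⟩
      rw [← Nat.not_even_iff_odd]
      intro h7
      rw [Nat.even_add] at h5
      have h8 := h5.2 h7
      have h9 : ¬ Even (4 * min n₁ n₂ + 1) := by
        rw [Nat.not_even_iff_odd]
        exact ⟨2 * min n₁ n₂, by ring⟩
      exact h9 h8
    · rintro ⟨h1, h2⟩
      rcases le_total n₁ n₂ with h | h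
      · rw [min_eq_left h] at h2 ⊢
        exact att_le h h1 h2
      · rw [min_eq_right h] at h2 ⊢
        exact (att_le h h1 h2).symm

end Pool.Agent.MP_b0e20b_ag
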