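import Mathlib

/-!
The elimination polynomial of the critical equations.
-/

namespace Pool.Agent.MP_b0e20b_ag

open Finset Matrix Polynomial

set_option linter.unusedSectionVars false

section defs

variable {R : Type*} [CommRing R] {ι : Type*} [Fintype ι] [DecidableEq ι]

/-- `D = det (X - M)` -/
noncomputable def gD (M : Matrix ι ι R) : R[X] := M.charpoly
/-- `a adj(X - M) b` -/
noncomputable def gP2 (M : Matrix ι ι R) (a b : ι → R) : R[X] := M.charpoly - (M + vecMulVec a b).charpoly
/-- Wronskian of a polynomial with `D` -/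
noncomputable def wr (M : Matrix ι ι R) (P : R[X]) : R[X] := P * derivative (gD M) - derivative P * gD M
/-- `D (X - ss) - H` -/
noncomputable def gV (M : Matrix ι ι R) (w : ι → R) (ss : R) : R[X] := gD M * (X - C ss) - gP2 M w w
/-- `D - P` -/
noncomputable def gL (M : Matrix ι ι R) (r : ι → R) : R[X] := gD M - gP2 M r r
/-- `(D² + H₂)(D - P) + P₂ V` -/
noncomputable def gB (M : Matrix ι ι R) (r w : ι → R) (ss : R) : R[X] :=
  (gD M ^ 2 + wr M (gP2 M w w)) * gL M r + wr M (gP2 M r r) * gV M w ss
/-- `D² - 2 G₂` -/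
noncomputable def gZ (M : Matrix ι ι R) (r w : ι → R) : R[X] := gD M ^ 2 - 2 * wr M (gP2 M r w)
/-- `B² - V (D - P) Z²` -/
noncomputable def gPhi (M : Matrix ι ι R) (r w : ι → R) (ss : R) : R[X] :=
  gB M r w ss ^ 2 - gV M w ss * gL M r * gZ M r w ^ 2
/-- the elimination polynomial -/
noncomputable def gPsi (M : Matrix ι ι R) (r w : ι → R) (ss : R) : R[X] :=
  gPhi M r w ss /ₘ (gD M ^ 2)

end defs

section map

variable {R S : Type*} [CommRing R] [CommRing S] {ι : Type*} [Fintype ι] [DecidableEq ι] (f : R →+* S)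

lemma gD_map (M : Matrix ι ι R) : (gD M).map f = gD (M.map f) := by
  unfold gD
  rw [charpoly_map]

lemma gP2_map (M : Matrix ι ι R) (a b : ι → R) :
    (gP2 M a b).map f = gP2 (M.map f) (fun i => f (a i)) (fun i => f (b i)) := by
  unfold gP2
  rw [Polynomial.map_sub, ← charpoly_map, ← charpoly_map]
  congr 2
  ext i j
  simp [vecMulVec_apply]

lemma wr_map (M : Matrix ι ι R) (P : R[X]) : (wr M P).map f = wr (M.map f) (P.map f) := by
  unfold wr
  rw [Polynomial.map_sub, Polynomial.map_mul, Polynomial.map_mul, ← gD_map, derivative_map, derivative_map]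

lemma gV_map (M : Matrix ι ι R) (w : ι → R) (ss : R) :
    (gV M w ss).map f = gV (M.map f) (fun i => f (w i)) (f ss) := by
  unfold gV
  rw [Polynomial.map_sub, Polynomial.map_mul, Polynomial.map_sub, map_X, map_C, gD_map, gP2_map]

lemma gL_map (M : Matrix ι ι R) (r : ι → R) : (gL M r).map f = gL (M.map f) (fun i => f (r i)) := by
  unfold gL
  rw [Polynomial.map_sub, gD_map, gP2_map]

lemma gB_map (M : Matrix ι ι R) (r w : ι → R) (ss : R) :
    (gB M r w ss).map f = gB (M.map f) (fun i => f (r i)) (fun i => f (w i)) (f ss) := by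
  unfold gB
  rw [Polynomial.map_add, Polynomial.map_mul, Polynomial.map_mul, Polynomial.map_add, Polynomial.map_pow,
    gD_map, wr_map, wr_map, gP2_map, gP2_map, gL_map, gV_map]

lemma gZ_map (M : Matrix ι ι R) (r w : ι → R) :
    (gZ M r w).map f = gZ (M.map f) (fun i => f (r i)) (fun i => f (w i)) := by
  unfold gZ
  rw [Polynomial.map_sub, Polynomial.map_mul, Polynomial.map_pow, gD_map, wr_map, gP2_map]
  simp

lemma gPhi_map (M : Matrix ι ι R) (r w : ι → R) (ss : R) :
    (gPhi M r w ss).map f = gPhi (M.map f) (fun i => f (r i)) (fun i => f (w i)) (f ss) := by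
  unfold gPhi
  rw [Polynomial.map_sub, Polynomial.map_mul, Polynomial.map_mul, Polynomial.map_pow, Polynomial.map_pow,
    gB_map, gV_map, gL_map, gZ_map]

lemma gD_monic (M : Matrix ι ι R) : (gD M).Monic := charpoly_monic M

lemma gPsi_map (M : Matrix ι ι R) (r w : ι → R) (ss : R) :
    (gPsi M r w ss).map f = gPsi (M.map f) (fun i => f (r i)) (fun i => f (w i)) (f ss) := by
  unfold gPsi
  rw [Polynomial.map_divByMonic _ ((gD_monic M).pow 2), gPhi_map, Polynomial.map_pow, gD_map]

end map

section degree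

variable {R : Type*} [CommRing R] [Nontrivial R] {ι : Type*} [Fintype ι] [DecidableEq ι]

lemma natDegree_gD (M : Matrix ι ι R) : (gD M).natDegree = Fintype.card ι := charpoly_natDegree_eq_dim M

lemma degree_gD (M : Matrix ι ι R) : (gD M).degree = Fintype.card ι := charpoly_degree_eq_dim M

lemma degree_gP2 (M : Matrix ι ι R) (a b : ι → R) : (gP2 M a b).degree < Fintype.card ι := by
  unfold gP2
  rw [← charpoly_degree_eq_dim M]
  apply degree_sub_lt_left
  · rw [charpoly_degree_eq_dim, charpoly_degree_eq_dim]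
  · exact (charpoly_monic M).ne_zero
  · rw [(charpoly_monic M).leadingCoeff, (charpoly_monic _).leadingCoeff]

lemma gL_monic (M : Matrix ι ι R) (r : ι → R) : (gL M r).Monic := by
  unfold gL gP2 gD
  rw [sub_sub_cancel]
  exact charpoly_monic _

lemma natDegree_gL (M : Matrix ι ι R) (r : ι → R) : (gL M r).natDegree = Fintype.card ι := by
  unfold gL gP2 gD
  rw [sub_sub_cancel, charpoly_natDegree_eq_dim]

lemma gV_monic (M : Matrix ι ι R) (w : ι → R) (ss : R) : (gV M w ss).Monic := by
  unfold gV
  apply Monic.sub_of_left ((gD_monic M).mul (monic_X_sub_C ss))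
  rw [(monic_X_sub_C ss).degree_mul, degree_gD, degree_X_sub_C]
  refine lt_of_lt_of_le (degree_gP2 M w w) ?_
  exact_mod_cast Nat.le_succ _

lemma natDegree_gV (M : Matrix ι ι R) (w : ι → R) (ss : R) :
    (gV M w ss).natDegree = Fintype.card ι + 1 := by
  unfold gV
  rw [natDegree_sub_eq_left_of_natDegree_lt]
  · rw [(gD_monic M).natDegree_mul (monic_X_sub_C ss), natDegree_gD, natDegree_X_sub_C]
  · rw [(gD_monic M).natDegree_mul (monic_X_sub_C ss), natDegree_gD, natDegree_X_sub_C]
    rcases eq_or_ne (gP2 M w w) 0 with h | h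
    · rw [h, natDegree_zero]
      omega
    · have := natDegree_lt_iff_degree_lt h |>.2 (degree_gP2 M w w)
      omega

lemma natDegree_gP2 (M : Matrix ι ι R) (a b : ι → R) : (gP2 M a b).natDegree ≤ Fintype.card ι - 1 := by
  rcases eq_or_ne (gP2 M a b) 0 with h | h
  · rw [h, natDegree_zero]
    omega
  · have := natDegree_lt_iff_degree_lt h |>.2 (degree_gP2 M a b)
    omega

lemma natDegree_wr (M : Matrix ι ι R) (a b : ι → R) :
    (wr M (gP2 M a b)).natDegree ≤ 2 * (Fintype.card ι - 1) := by
  unfold wr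
  apply (natDegree_sub_le _ _).trans
  apply max_le
  · apply natDegree_mul_le.trans
    have h1 := natDegree_gP2 M a b
    have h2 := natDegree_derivative_le (gD M)
    rw [natDegree_gD] at h2
    omega
  · rcases Nat.eq_zero_or_pos (gP2 M a b).natDegree with h | h
    · have h1 : derivative (gP2 M a b) = 0 := by
        rw [natDegree_eq_zero] at h
        obtain ⟨c, hc⟩ := h
        rw [← hc, derivative_C]
      rw [h1, zero_mul, natDegree_zero]
      omega
    · apply natDegree_mul_le.trans
      have h1 := natDegree_gP2 M a b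
      have h2 := natDegree_derivative_lt (p := gP2 M a b) h.ne'
      rw [natDegree_gD]
      omega

lemma wr_of_isEmpty [IsEmpty ι] (M : Matrix ι ι R) (a b : ι → R) : wr M (gP2 M a b) = 0 := by
  unfold wr gP2 gD
  rw [charpoly_isEmpty, charpoly_isEmpty]
  simp

lemma wr_degree_lt (M : Matrix ι ι R) (a b : ι → R) :
    (wr M (gP2 M a b)).degree < ((2 * Fintype.card ι : ℕ) : WithBot ℕ) := by
  rcases isEmpty_or_nonempty ι with h | h
  · rw [wr_of_isEmpty, degree_zero]
    exact WithBot.bot_lt_coe _
  · refine lt_of_le_of_lt degree_le_natDegree ?_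
    have := natDegree_wr M a b
    have h2 : 0 < Fintype.card ι := Fintype.card_pos
    exact_mod_cast (by omega : (wr M (gP2 M a b)).natDegree < 2 * Fintype.card ι)

lemma gD2_degree (M : Matrix ι ι R) : (gD M ^ 2).degree = ((2 * Fintype.card ι : ℕ) : WithBot ℕ) := by
  rw [degree_eq_natDegree ((gD_monic M).pow 2).ne_zero, (gD_monic M).natDegree_pow, natDegree_gD]

lemma gZ_monic (M : Matrix ι ι R) (r w : ι → R) : (gZ M r w).Monic := by
  unfold gZ
  apply Monic.sub_of_left ((gD_monic M).pow 2)
  rw [gD2_degree]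
  refine lt_of_le_of_lt ?_ (wr_degree_lt M r w)
  rw [two_mul]
  exact (degree_add_le _ _).trans (max_self _).le

lemma natDegree_gZ (M : Matrix ι ι R) (r w : ι → R) : (gZ M r w).natDegree = 2 * Fintype.card ι := by
  apply natDegree_eq_of_degree_eq_some
  unfold gZ
  rw [degree_sub_eq_left_of_degree_lt, gD2_degree]
  rw [gD2_degree]
  refine lt_of_le_of_lt ?_ (wr_degree_lt M r w)
  rw [two_mul]
  exact (degree_add_le _ _).trans (max_self _).le

lemma natDegree_gB (M : Matrix ι ι R) (r w : ι → R) (ss : R) :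
    (gB M r w ss).natDegree ≤ 3 * Fintype.card ι := by
  unfold gB
  apply (natDegree_add_le _ _).trans
  apply max_le
  · apply natDegree_mul_le.trans
    have h1 : (gD M ^ 2 + wr M (gP2 M w w)).natDegree ≤ 2 * Fintype.card ι := by
      apply (natDegree_add_le _ _).trans
      apply max_le
      · rw [(gD_monic M).natDegree_pow, natDegree_gD]
      · have := natDegree_wr M w w
        omega
    rw [natDegree_gL]
    omega
  · rcases isEmpty_or_nonempty ι with h | h
    · rw [wr_of_isEmpty, zero_mul, natDegree_zero]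
      omega
    · apply natDegree_mul_le.trans
      have h1 := natDegree_wr M r r
      have h2 : 0 < Fintype.card ι := Fintype.card_pos
      rw [natDegree_gV]
      omega

lemma neg_gPhi_monic (M : Matrix ι ι R) (r w : ι → R) (ss : R) :
    (-gPhi M r w ss).Monic ∧ (-gPhi M r w ss).natDegree = 6 * Fintype.card ι + 1 := by
  have h1 : -gPhi M r w ss = gV M w ss * gL M r * gZ M r w ^ 2 - gB M r w ss ^ 2 := by
    unfold gPhi
    ring
  have h2 : (gV M w ss * gL M r * gZ M r w ^ 2).Monic :=
    ((gV_monic M w ss).mul (gL_monic M r)).mul ((gZ_monic M r w).pow 2)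
  have h3 : (gV M w ss * gL M r * gZ M r w ^ 2).natDegree = 6 * Fintype.card ι + 1 := by
    rw [((gV_monic M w ss).mul (gL_monic M r)).natDegree_mul ((gZ_monic M r w).pow 2),
      (gV_monic M w ss).natDegree_mul (gL_monic M r), (gZ_monic M r w).natDegree_pow, natDegree_gV,
      natDegree_gL, natDegree_gZ]
    ring
  have h4 : (gB M r w ss ^ 2).natDegree < 6 * Fintype.card ι + 1 := by
    have h5 := natDegree_pow_le (p := gB M r w ss) (n := 2)
    have := natDegree_gB M r w ss
    omega
  rw [h1]
  constructor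
  · apply Monic.sub_of_left h2
    exact degree_lt_degree (by rw [h3]; exact h4)
  · rw [natDegree_sub_eq_left_of_natDegree_lt (by rw [h3]; exact h4), h3]

end degree

end Pool.Agent.MP_b0e20b_ag
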