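import Pool.Agent.Lib.MP_b0e20b_ag.Gen1

/-!
The elimination polynomial for a diagonal matrix: divisibility by the square of `D`.
-/

namespace Pool.Agent.MP_b0e20b_ag

open Finset Matrix Polynomial

set_option linter.unusedSectionVars false

variable {ι : Type*} [Fintype ι] [DecidableEq ι]

/-- `∏_{j ≠ i} (X - l_j)` -/
noncomputable def EE (l : ι → ℂ) (i : ι) : ℂ[X] := ∏ j ∈ univ.erase i, (X - C (l j))

/-- `∏_{k ≠ i, j} (X - l_k)` -/
noncomputable def EE2 (l : ι → ℂ) (i j : ι) : ℂ[X] := ∏ k ∈ (univ.erase i).erase j, (X - C (l k))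

lemma eval_charpoly_rank_one (l a b : ι → ℂ) (μ : ℂ) (hμ : ∀ i, μ ≠ l i) :
    (diagonal l + vecMulVec a b).charpoly.eval μ =
      (∏ i, (μ - l i)) * (1 - ∑ i, a i * b i / (μ - l i)) := by
  rw [Matrix.eval_charpoly]
  have h1 : (Matrix.scalar ι μ) - (diagonal l + vecMulVec a b) =
      diagonal (fun i => μ - l i) + replicateCol Unit (fun i => - a i) * replicateRow Unit b := by
    ext i j
    simp only [Matrix.scalar_apply, Matrix.sub_apply, Matrix.add_apply, vecMulVec_apply,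
      Matrix.mul_apply, replicateCol_apply, replicateRow_apply, univ_unique, sum_singleton]
    by_cases h : i = j
    · subst h
      simp
      ring
    · simp [Matrix.diagonal_apply_ne _ h]
  have hne : ∀ i, μ - l i ≠ 0 := fun i => sub_ne_zero.2 (hμ i)
  have h2 : IsUnit (diagonal (fun i => μ - l i)).det := by
    rw [det_diagonal, isUnit_iff_ne_zero, Finset.prod_ne_zero_iff]
    exact fun i _ => hne i
  rw [h1, det_add_replicateCol_mul_replicateRow h2, det_diagonal]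
  congr 1
  rw [Matrix.inv_diagonal, det_unique]
  simp only [Matrix.add_apply, Matrix.one_apply_eq, Matrix.mul_apply, replicateCol_apply,
    replicateRow_apply]
  rw [sub_eq_add_neg, ← Finset.sum_neg_distrib]
  congr 1
  apply Finset.sum_congr rfl
  intro i _
  have h3 : IsUnit (fun i => μ - l i) := by
    rw [Pi.isUnit_iff]
    exact fun i => (isUnit_iff_ne_zero.2 (hne i))
  have h4 : Ring.inverse (fun i => μ - l i) i = (μ - l i)⁻¹ := by
    have h5 := Ring.mul_inverse_cancel _ h3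
    have h6 := congrFun h5 i
    simp only [Pi.mul_apply, Pi.one_apply] at h6
    exact eq_inv_of_mul_eq_one_right h6
  have h5 : ∑ x, b x * diagonal (Ring.inverse (fun i => μ - l i)) x i = b i * (μ - l i)⁻¹ := by
    rw [Finset.sum_eq_single i]
    · rw [Matrix.diagonal_apply_eq, h4]
    · intro j _ hj
      rw [Matrix.diagonal_apply_ne _ hj, mul_zero]
    · intro h
      exact absurd (mem_univ i) h
  rw [h5]
  have := hne i
  field_simp

lemma charpoly_rank_one (l a b : ι → ℂ) :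
    (diagonal l + vecMulVec a b).charpoly =
      ∏ i, (X - C (l i)) - ∑ i, C (a i * b i) * EE l i := by
  apply Polynomial.eq_of_infinite_eval_eq
  apply Set.Infinite.mono (s := (Set.range l)ᶜ)
  · intro μ hμ
    have hμ' : ∀ i, μ ≠ l i := fun i h => hμ ⟨i, h.symm⟩
    rw [Set.mem_ofPred_eq, eval_charpoly_rank_one l a b μ hμ']
    simp only [eval_sub, eval_prod, eval_X, eval_C, eval_finsetSum, eval_mul, EE]
    rw [mul_sub, mul_one, Finset.mul_sum]
    congr 1
    apply Finset.sum_congr rfl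
    intro i _
    rw [← Finset.mul_prod_erase univ _ (mem_univ i)]
    have := sub_ne_zero.2 (hμ' i)
    field_simp
  · exact (Set.finite_range l).infinite_compl

lemma gD_diag (l : ι → ℂ) : gD (diagonal l) = ∏ i, (X - C (l i)) := by
  unfold gD
  rw [charpoly_diagonal]

lemma gP2_diag (l a b : ι → ℂ) : gP2 (diagonal l) a b = ∑ i, C (a i * b i) * EE l i := by
  unfold gP2
  rw [charpoly_rank_one, charpoly_diagonal]
  ring

lemma gD_eq (l : ι → ℂ) (i : ι) : gD (diagonal l) = (X - C (l i)) * EE l i := by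
  rw [gD_diag]
  exact (Finset.mul_prod_erase univ (fun j => X - C (l j)) (mem_univ i)).symm

lemma EE_eq (l : ι → ℂ) {i j : ι} (h : j ≠ i) : EE l j = (X - C (l i)) * EE2 l i j := by
  unfold EE EE2
  rw [Finset.erase_right_comm]
  exact (Finset.mul_prod_erase (univ.erase j) (fun k => X - C (l k)) (mem_erase.2 ⟨h.symm, mem_univ i⟩)).symm

lemma wr_add (M : Matrix ι ι ℂ) (P Q : ℂ[X]) : wr M (P + Q) = wr M P + wr M Q := by
  unfold wr
  rw [derivative_add]
  ring

lemma wr_sum (M : Matrix ι ι ℂ) (f : ι → ℂ[X]) : wr M (∑ i, f i) = ∑ i, wr M (f i) := by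
  unfold wr
  rw [derivative_sum, Finset.sum_mul, Finset.sum_mul, ← Finset.sum_sub_distrib]

lemma wr_C_mul (M : Matrix ι ι ℂ) (c : ℂ) (P : ℂ[X]) : wr M (C c * P) = C c * wr M P := by
  unfold wr
  rw [derivative_C_mul]
  ring

lemma wr_EE (l : ι → ℂ) (i : ι) : wr (diagonal l) (EE l i) = EE l i ^ 2 := by
  unfold wr
  rw [gD_eq l i, derivative_mul, derivative_sub, derivative_X, derivative_C]
  ring

lemma wr_diag (l a b : ι → ℂ) :
    wr (diagonal l) (gP2 (diagonal l) a b) = ∑ i, C (a i * b i) * EE l i ^ 2 := by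
  rw [gP2_diag, wr_sum]
  apply Finset.sum_congr rfl
  intro i _
  rw [wr_C_mul, wr_EE]

/-- regular part of `gP2` at `l i` -/
noncomputable def Pt (l a b : ι → ℂ) (i : ι) : ℂ[X] := ∑ j ∈ univ.erase i, C (a j * b j) * EE2 l i j
/-- regular part of the Wronskian at `l i` -/
noncomputable def Pt2 (l a b : ι → ℂ) (i : ι) : ℂ[X] := ∑ j ∈ univ.erase i, C (a j * b j) * EE2 l i j ^ 2

lemma gP2_split (l a b : ι → ℂ) (i : ι) :
    gP2 (diagonal l) a b = C (a i * b i) * EE l i + (X - C (l i)) * Pt l a b i := by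
  rw [gP2_diag, ← Finset.add_sum_erase _ _ (mem_univ i), Pt, Finset.mul_sum]
  congr 1
  apply Finset.sum_congr rfl
  intro j hj
  rw [EE_eq l (Finset.ne_of_mem_erase hj)]
  ring

lemma wr_split (l a b : ι → ℂ) (i : ι) :
    wr (diagonal l) (gP2 (diagonal l) a b) =
      C (a i * b i) * EE l i ^ 2 + (X - C (l i)) ^ 2 * Pt2 l a b i := by
  rw [wr_diag, ← Finset.add_sum_erase _ _ (mem_univ i), Pt2, Finset.mul_sum]
  congr 1
  apply Finset.sum_congr rfl
  intro j hj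
  rw [EE_eq l (Finset.ne_of_mem_erase hj)]
  ring

lemma expand (δ E S α β P H P2 G2 H2 : ℂ[X]) :
    (((δ * E) ^ 2 + (β * β * E ^ 2 + δ ^ 2 * H2)) * (δ * E - (α * α * E + δ * P)) +
      (α * α * E ^ 2 + δ ^ 2 * P2) * ((δ * E) * S - (β * β * E + δ * H))) ^ 2 -
    ((δ * E) * S - (β * β * E + δ * H)) * (δ * E - (α * α * E + δ * P)) *
      ((δ * E) ^ 2 - 2 * (α * β * E ^ 2 + δ ^ 2 * G2)) ^ 2 =
    δ ^ 2 * (E ^ 4 * ((β ^ 2 * (E - P) - α ^ 2 * (E * S - H)) ^ 2 + 4 * α ^ 2 * β ^ 2 *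
      (α ^ 2 * (E ^ 2 + H2) + β ^ 2 * P2 + α * β * (E ^ 2 - 2 * G2))) +
      δ * ((2 * (-2 * α ^ 2 * β ^ 2 * E ^ 3) * ((E ^ 2 + H2) * (E - P) + P2 * (E * S - H)) +
        2 * (E ^ 2 * (β ^ 2 * (E - P) + α ^ 2 * (E * S - H))) * (-α ^ 2 * E * (E ^ 2 + H2) - β ^ 2 * E * P2) -
        (-E * (α ^ 2 * (E * S - H) + β ^ 2 * (E - P))) * (-4 * α * β * E ^ 2 * (E ^ 2 - 2 * G2))) +
        δ * ((-α ^ 2 * E * (E ^ 2 + H2) - β ^ 2 * E * P2) ^ 2 +
          2 * (E ^ 2 * (β ^ 2 * (E - P) + α ^ 2 * (E * S - H))) * ((E ^ 2 + H2) * (E - P) + P2 * (E * S - H)) -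
          (E - P) * (E * S - H) * (-4 * α * β * E ^ 2 * (E ^ 2 - 2 * G2)) -
          α ^ 2 * β ^ 2 * E ^ 2 * (E ^ 2 - 2 * G2) ^ 2) +
        δ ^ 2 * (2 * (-α ^ 2 * E * (E ^ 2 + H2) - β ^ 2 * E * P2) * ((E ^ 2 + H2) * (E - P) + P2 * (E * S - H)) -
          (-E * (α ^ 2 * (E * S - H) + β ^ 2 * (E - P))) * (E ^ 2 - 2 * G2) ^ 2) +
        δ ^ 3 * (((E ^ 2 + H2) * (E - P) + P2 * (E * S - H)) ^ 2 -
          (E - P) * (E * S - H) * (E ^ 2 - 2 * G2) ^ 2))) := by
  ring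

/-- The expansion of `gPhi` at `l i`. -/
lemma gPhi_split (l a b : ι → ℂ) (ss : ℂ) (i : ι) : ∃ Rest : ℂ[X],
    gPhi (diagonal l) a b ss = (X - C (l i)) ^ 2 * (EE l i ^ 4 *
      ((C (b i) ^ 2 * (EE l i - Pt l a a i) - C (a i) ^ 2 * (EE l i * (X - C ss) - Pt l b b i)) ^ 2 +
        4 * C (a i) ^ 2 * C (b i) ^ 2 * (C (a i) ^ 2 * (EE l i ^ 2 + Pt2 l b b i) +
          C (b i) ^ 2 * Pt2 l a a i + C (a i) * C (b i) * (EE l i ^ 2 - 2 * Pt2 l a b i))) +
      (X - C (l i)) * Rest) := by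
  exact ⟨_, Eq.trans (by
    unfold gPhi gB gZ gV gL
    rw [wr_split l b b i, wr_split l a a i, wr_split l a b i, gP2_split l a a i, gP2_split l b b i, gD_eq l i]
    simp only [C_mul]) (expand (X - C (l i)) (EE l i) (X - C ss) (C (a i)) (C (b i)) (Pt l a a i) (Pt l b b i)
      (Pt2 l a a i) (Pt2 l a b i) (Pt2 l b b i))⟩

lemma EE_eval_ne {l : ι → ℂ} (hl : Function.Injective l) (i : ι) : (EE l i).eval (l i) ≠ 0 := by
  unfold EE
  rw [eval_prod, Finset.prod_ne_zero_iff]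
  intro j hj
  rw [eval_sub, eval_X, eval_C, sub_ne_zero]
  exact fun h => Finset.ne_of_mem_erase hj (hl h).symm

lemma sq_dvd_gPhi {l : ι → ℂ} (hl : Function.Injective l) (a b : ι → ℂ) (ss : ℂ) :
    gD (diagonal l) ^ 2 ∣ gPhi (diagonal l) a b ss := by
  rw [gD_diag, ← Finset.prod_pow]
  apply Finset.prod_dvd_of_coprime
  · intro i _ j _ hij
    apply IsCoprime.pow
    exact Polynomial.isCoprime_X_sub_C_of_isUnit_sub
      (isUnit_iff_ne_zero.2 (sub_ne_zero.2 (fun h => hij (hl h))))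
  · intro i _
    obtain ⟨Rest, h⟩ := gPhi_split l a b ss i
    rw [h]
    exact dvd_mul_right _ _

lemma gPhi_eq {l : ι → ℂ} (hl : Function.Injective l) (a b : ι → ℂ) (ss : ℂ) :
    gPhi (diagonal l) a b ss = gD (diagonal l) ^ 2 * gPsi (diagonal l) a b ss := by
  have hm : (gD (diagonal l) ^ 2).Monic := (gD_monic _).pow 2
  have h1 := (modByMonic_eq_zero_iff_dvd hm).2 (sq_dvd_gPhi hl a b ss)
  have h2 := modByMonic_add_div (gPhi (diagonal l) a b ss) (gD (diagonal l) ^ 2)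
  rw [h1, zero_add] at h2
  exact h2.symm

/-- The value of the elimination polynomial at `l i`. -/
lemma gPsi_eval {l : ι → ℂ} (hl : Function.Injective l) (a b : ι → ℂ) (ss : ℂ) (i : ι) :
    (gPsi (diagonal l) a b ss).eval (l i) = (EE l i).eval (l i) ^ 2 *
      ((b i ^ 2 * ((EE l i).eval (l i) - (Pt l a a i).eval (l i)) -
        a i ^ 2 * ((EE l i).eval (l i) * (l i - ss) - (Pt l b b i).eval (l i))) ^ 2 +
        4 * a i ^ 2 * b i ^ 2 * (a i ^ 2 * ((EE l i).eval (l i) ^ 2 + (Pt2 l b b i).eval (l i)) +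
          b i ^ 2 * (Pt2 l a a i).eval (l i) + a i * b i * ((EE l i).eval (l i) ^ 2 -
            2 * (Pt2 l a b i).eval (l i)))) := by
  obtain ⟨Rest, h⟩ := gPhi_split l a b ss i
  rw [gPhi_eq hl, gD_eq l i, mul_pow, mul_assoc] at h
  have h3 : (X - C (l i)) ^ 2 ≠ 0 := pow_ne_zero _ (X_sub_C_ne_zero _)
  have h4 := mul_left_cancel₀ h3 h
  have h5 := congrArg (eval (l i)) h4
  simp only [eval_mul, eval_add, eval_sub, eval_pow, eval_X, eval_C, sub_self, zero_mul, add_zero,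
    eval_ofNat] at h5
  have h6 := EE_eval_ne hl i
  apply mul_left_cancel₀ (pow_ne_zero 2 h6)
  rw [h5]
  ring

end Pool.Agent.MP_b0e20b_ag
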