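import Pool.Agent.Lib.MP_b0e20b_ag.Gen2

/-!
The reduced system and the roots of the elimination polynomial.
-/

namespace Pool.Agent.MP_b0e20b_ag

open Finset Matrix Polynomial

set_option linter.unusedSectionVars false

variable {ι : Type*} [Fintype ι] [DecidableEq ι]

lemma eval_gD (l : ι → ℂ) (μ : ℂ) : (gD (diagonal l)).eval μ = ∏ i, (μ - l i) := by
  rw [gD_diag, eval_prod]
  simp

lemma eval_gD_ne {l : ι → ℂ} {μ : ℂ} (hμ : ∀ i, μ ≠ l i) : (gD (diagonal l)).eval μ ≠ 0 := by
  rw [eval_gD, Finset.prod_ne_zero_iff]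
  exact fun i _ => sub_ne_zero.2 (hμ i)

lemma eval_EE {l : ι → ℂ} {μ : ℂ} (hμ : ∀ i, μ ≠ l i) (i : ι) :
    (EE l i).eval μ = (gD (diagonal l)).eval μ / (μ - l i) := by
  have := sub_ne_zero.2 (hμ i)
  rw [eq_div_iff this, gD_eq l i, eval_mul, eval_sub, eval_X, eval_C]
  ring

lemma eval_gP2 {l : ι → ℂ} {μ : ℂ} (hμ : ∀ i, μ ≠ l i) (a b : ι → ℂ) :
    (gP2 (diagonal l) a b).eval μ = (gD (diagonal l)).eval μ * ∑ i, a i * b i / (μ - l i) := by
  rw [gP2_diag, eval_finsetSum, Finset.mul_sum]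
  apply Finset.sum_congr rfl
  intro i _
  rw [eval_mul, eval_C, eval_EE hμ]
  ring

lemma eval_wr {l : ι → ℂ} {μ : ℂ} (hμ : ∀ i, μ ≠ l i) (a b : ι → ℂ) :
    (wr (diagonal l) (gP2 (diagonal l) a b)).eval μ =
      (gD (diagonal l)).eval μ ^ 2 * ∑ i, a i * b i / (μ - l i) ^ 2 := by
  rw [wr_diag, eval_finsetSum, Finset.mul_sum]
  apply Finset.sum_congr rfl
  intro i _
  rw [eval_mul, eval_C, eval_pow, eval_EE hμ, div_pow]
  ring

/-- The reduced system in the unknowns `A`, `μ`, `ξ`. -/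
def RS (l a b : ι → ℂ) (ss : ℂ) : Set (ℂ × ℂ × (ι → ℂ)) :=
  {t | t.1 ≠ 0 ∧ (∀ i, (t.2.1 - l i) * t.2.2 i = t.1 * a i + b i) ∧ t.1 = 1 + ∑ i, t.2.2 i ^ 2 ∧
    t.2.1 - t.1 ^ 2 = ss + ∑ i, (b i - t.1 * a i) * t.2.2 i}

section sep

variable {l a b : ι → ℂ} {ss : ℂ}

lemma sep_facts (hsep : (gD (diagonal l) * gPsi (diagonal l) a b ss).Separable) :
    Function.Injective l ∧
    (∀ μ, (gPsi (diagonal l) a b ss).eval μ = 0 → (∀ i, μ ≠ l i) ∧
      (derivative (gPsi (diagonal l) a b ss)).eval μ ≠ 0) := by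
  have h1 : (gD (diagonal l)).Separable := hsep.of_mul_left
  have h2 : (gPsi (diagonal l) a b ss).Separable := hsep.of_mul_right
  have h3 : IsCoprime (gD (diagonal l)) (gPsi (diagonal l) a b ss) := hsep.isCoprime
  refine ⟨?_, ?_⟩
  · rw [gD_diag] at h1
    exact (separable_prod_X_sub_C_iff).1 h1
  · intro μ hμ
    refine ⟨?_, ?_⟩
    · rintro i rfl
      obtain ⟨u, v, huv⟩ := h3
      have h4 := congrArg (eval (l i)) huv
      rw [eval_add, eval_mul, eval_mul, hμ, gD_eq l i, eval_mul, eval_sub, eval_X, eval_C, eval_one] at h4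
      simp at h4
    · intro h0
      obtain ⟨u, v, huv⟩ := h2
      have h4 := congrArg (eval μ) huv
      rw [eval_add, eval_mul, eval_mul, hμ, h0, eval_one] at h4
      simp at h4

lemma Pt_eval (hl : Function.Injective l) (a b : ι → ℂ) (i : ι) :
    (Pt l a b i).eval (l i) = (EE l i).eval (l i) * ∑ j ∈ univ.erase i, a j * b j / (l i - l j) := by
  unfold Pt
  rw [eval_finsetSum, Finset.mul_sum]
  apply Finset.sum_congr rfl
  intro j hj
  have hne : l i - l j ≠ 0 := sub_ne_zero.2 (fun h => Finset.ne_of_mem_erase hj (hl h).symm)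
  rw [eval_mul, eval_C]
  have h1 : (EE l i).eval (l i) = (l i - l j) * (EE2 l i j).eval (l i) := by
    unfold EE EE2
    rw [← Finset.mul_prod_erase (univ.erase i) (fun k => X - C (l k)) hj, eval_mul]
    simp
  rw [h1]
  field_simp

lemma Pt2_eval (hl : Function.Injective l) (a b : ι → ℂ) (i : ι) :
    (Pt2 l a b i).eval (l i) = (EE l i).eval (l i) ^ 2 * ∑ j ∈ univ.erase i, a j * b j / (l i - l j) ^ 2 := by
  unfold Pt2
  rw [eval_finsetSum, Finset.mul_sum]
  apply Finset.sum_congr rfl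
  intro j hj
  have hne : l i - l j ≠ 0 := sub_ne_zero.2 (fun h => Finset.ne_of_mem_erase hj (hl h).symm)
  rw [eval_mul, eval_C, eval_pow]
  have h1 : (EE l i).eval (l i) = (l i - l j) * (EE2 l i j).eval (l i) := by
    unfold EE EE2
    rw [← Finset.mul_prod_erase (univ.erase i) (fun k => X - C (l k)) hj, eval_mul]
    simp
  rw [h1]
  field_simp

/-- A solution of the reduced system with `μ = l i` makes the elimination polynomial vanish. -/
lemma RS_at_pole (hl : Function.Injective l) {A : ℂ} {ξ : ι → ℂ} {i : ι}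
    (h : (A, l i, ξ) ∈ RS l a b ss) : (gPsi (diagonal l) a b ss).eval (l i) = 0 := by
  obtain ⟨hA, h1, h2, h3⟩ := h
  simp only at hA h1 h2 h3
  rw [gPsi_eval hl, Pt_eval hl, Pt_eval hl, Pt2_eval hl, Pt2_eval hl, Pt2_eval hl]
  set e := (EE l i).eval (l i) with he
  have hb : b i = -A * a i := by
    have := h1 i
    rw [sub_self, zero_mul] at this
    linear_combination -this
  have hξ : ∀ j ∈ univ.erase i, ξ j = (A * a j + b j) / (l i - l j) := by
    intro j hj
    have hne : l i - l j ≠ 0 := sub_ne_zero.2 (fun h => Finset.ne_of_mem_erase hj (hl h).symm)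
    rw [eq_div_iff hne]
    linear_combination h1 j
  rw [← Finset.add_sum_erase _ _ (mem_univ i)] at h2 h3
  set p1 := ∑ j ∈ univ.erase i, a j * a j / (l i - l j) with hp1
  set q1 := ∑ j ∈ univ.erase i, b j * b j / (l i - l j) with hq1
  set p2 := ∑ j ∈ univ.erase i, a j * a j / (l i - l j) ^ 2 with hp2
  set g2 := ∑ j ∈ univ.erase i, a j * b j / (l i - l j) ^ 2 with hg2
  set q2 := ∑ j ∈ univ.erase i, b j * b j / (l i - l j) ^ 2 with hq2
  have h4 : ∑ j ∈ univ.erase i, ξ j ^ 2 = A ^ 2 * p2 + 2 * A * g2 + q2 := by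
    rw [hp2, hg2, hq2, Finset.mul_sum, Finset.mul_sum, ← Finset.sum_add_distrib, ← Finset.sum_add_distrib]
    apply Finset.sum_congr rfl
    intro j hj
    rw [hξ j hj, div_pow]
    ring
  have h5 : ∑ j ∈ univ.erase i, (b j - A * a j) * ξ j = q1 - A ^ 2 * p1 := by
    rw [hp1, hq1, Finset.mul_sum, ← Finset.sum_sub_distrib]
    apply Finset.sum_congr rfl
    intro j hj
    rw [hξ j hj]
    ring
  rw [h4] at h2
  rw [h5] at h3
  -- ξ i
  have h6 : l i - ss - q1 - A ^ 2 * (1 - p1) = -(2 * A * a i * ξ i) := by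
    rw [hb] at h3
    linear_combination h3
  have h7 : ξ i ^ 2 = A - 1 - (A ^ 2 * p2 + 2 * A * g2 + q2) := by linear_combination -h2
  rw [hb]
  have h8 : (e * (l i - ss) - e * q1) = e * (A ^ 2 * (1 - p1) - 2 * A * a i * ξ i) := by
    linear_combination e * h6
  rw [h8]
  linear_combination (4 * e ^ 4 * A ^ 2 * a i ^ 6) * h7

lemma RS_eqs {A μ : ℂ} {ξ : ι → ℂ} (hμ : ∀ i, μ ≠ l i) (h : (A, μ, ξ) ∈ RS l a b ss) :
    (∀ i, ξ i = (A * a i + b i) / (μ - l i)) ∧
    (gV (diagonal l) b ss).eval μ = A ^ 2 * (gL (diagonal l) a).eval μ ∧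
    A * (gZ (diagonal l) a b).eval μ = (gD (diagonal l)).eval μ ^ 2 +
      (wr (diagonal l) (gP2 (diagonal l) b b)).eval μ +
      A ^ 2 * (wr (diagonal l) (gP2 (diagonal l) a a)).eval μ := by
  obtain ⟨hA, h1, h2, h3⟩ := h
  simp only at hA h1 h2 h3
  have hξ : ∀ i, ξ i = (A * a i + b i) / (μ - l i) := by
    intro i
    rw [eq_div_iff (sub_ne_zero.2 (hμ i))]
    linear_combination h1 i
  refine ⟨hξ, ?_, ?_⟩
  · unfold gV gL
    simp only [eval_sub, eval_mul, eval_X, eval_C]
    rw [eval_gP2 hμ, eval_gP2 hμ]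
    have h5 : ∑ j, (b j - A * a j) * ξ j =
        ∑ i, b i * b i / (μ - l i) - A ^ 2 * ∑ i, a i * a i / (μ - l i) := by
      rw [Finset.mul_sum, ← Finset.sum_sub_distrib]
      apply Finset.sum_congr rfl
      intro j _
      rw [hξ j]
      ring
    rw [h5] at h3
    linear_combination (eval μ (gD (diagonal l))) * h3
  · unfold gZ
    simp only [eval_sub, eval_mul, eval_pow, eval_ofNat]
    rw [eval_wr hμ, eval_wr hμ, eval_wr hμ]
    have h4 : ∑ j, ξ j ^ 2 = A ^ 2 * ∑ i, a i * a i / (μ - l i) ^ 2 +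
        2 * A * ∑ i, a i * b i / (μ - l i) ^ 2 + ∑ i, b i * b i / (μ - l i) ^ 2 := by
      rw [Finset.mul_sum, Finset.mul_sum, ← Finset.sum_add_distrib, ← Finset.sum_add_distrib]
      apply Finset.sum_congr rfl
      intro j _
      rw [hξ j, div_pow]
      ring
    rw [h4] at h2
    linear_combination (eval μ (gD (diagonal l)) ^ 2) * h2

lemma RS_root (hsep : (gD (diagonal l) * gPsi (diagonal l) a b ss).Separable) {A μ : ℂ} {ξ : ι → ℂ}
    (h : (A, μ, ξ) ∈ RS l a b ss) : (∀ i, μ ≠ l i) ∧ (gPsi (diagonal l) a b ss).eval μ = 0 ∧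
      A * (gL (diagonal l) a).eval μ * (gZ (diagonal l) a b).eval μ = (gB (diagonal l) a b ss).eval μ := by
  obtain ⟨hl, hs⟩ := sep_facts hsep
  have hμ : ∀ i, μ ≠ l i := by
    rintro i rfl
    exact (hs _ (RS_at_pole hl h)).1 i rfl
  obtain ⟨-, h1, h2⟩ := RS_eqs hμ h
  have h3 : A * (gL (diagonal l) a).eval μ * (gZ (diagonal l) a b).eval μ = (gB (diagonal l) a b ss).eval μ := by
    unfold gB
    simp only [eval_add, eval_mul, eval_pow]
    linear_combination (eval μ (gL (diagonal l) a)) * h2 -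
      (eval μ (wr (diagonal l) (gP2 (diagonal l) a a))) * h1
  refine ⟨hμ, ?_, h3⟩
  have h4 : (gPhi (diagonal l) a b ss).eval μ = 0 := by
    unfold gPhi
    simp only [eval_sub, eval_mul, eval_pow]
    rw [← h3, h1]
    ring
  rw [gPhi_eq hl, eval_mul, eval_pow] at h4
  exact (mul_eq_zero.1 h4).resolve_left (pow_ne_zero 2 (eval_gD_ne hμ))

lemma gB_eq (M : Matrix ι ι ℂ) (a b : ι → ℂ) (ss : ℂ) :
    gB M a b ss = derivative (gV M b ss * gL M a) * gD M - 2 * (gV M b ss * gL M a) * derivative (gD M) := by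
  unfold gB gV gL wr
  simp only [derivative_mul, derivative_sub, derivative_X, derivative_C]
  ring

/-- At a root of the elimination polynomial the relevant factors do not vanish. -/
lemma root_facts (hsep : (gD (diagonal l) * gPsi (diagonal l) a b ss).Separable) {μ : ℂ}
    (hμ : (gPsi (diagonal l) a b ss).eval μ = 0) :
    (∀ i, μ ≠ l i) ∧ (gV (diagonal l) b ss).eval μ ≠ 0 ∧ (gL (diagonal l) a).eval μ ≠ 0 ∧
      (gZ (diagonal l) a b).eval μ ≠ 0 ∧
      (gB (diagonal l) a b ss).eval μ ^ 2 = (gV (diagonal l) b ss).eval μ *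
        (gL (diagonal l) a).eval μ * (gZ (diagonal l) a b).eval μ ^ 2 := by
  obtain ⟨hl, hs⟩ := sep_facts hsep
  obtain ⟨h1, h2⟩ := hs μ hμ
  have hD := eval_gD_ne h1
  have h3 : (gPhi (diagonal l) a b ss).eval μ = 0 := by
    rw [gPhi_eq hl, eval_mul, hμ, mul_zero]
  have h4 : (derivative (gPhi (diagonal l) a b ss)).eval μ ≠ 0 := by
    rw [gPhi_eq hl, derivative_mul, eval_add, eval_mul, eval_mul, hμ, mul_zero, zero_add, eval_pow]
    exact mul_ne_zero (pow_ne_zero 2 hD) h2
  have h5 : (gB (diagonal l) a b ss).eval μ ^ 2 = (gV (diagonal l) b ss).eval μ *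
        (gL (diagonal l) a).eval μ * (gZ (diagonal l) a b).eval μ ^ 2 := by
    unfold gPhi at h3
    simp only [eval_sub, eval_mul, eval_pow] at h3
    linear_combination h3
  have h6 : derivative (gPhi (diagonal l) a b ss) = 2 * gB (diagonal l) a b ss * derivative (gB (diagonal l) a b ss) -
      derivative (gV (diagonal l) b ss * gL (diagonal l) a) * gZ (diagonal l) a b ^ 2 -
      (gV (diagonal l) b ss * gL (diagonal l) a) * (2 * gZ (diagonal l) a b * derivative (gZ (diagonal l) a b)) := by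
    unfold gPhi
    simp only [derivative_sub, derivative_mul, derivative_pow, Nat.cast_ofNat, map_ofNat]
    ring
  rw [h6] at h4
  simp only [eval_sub, eval_mul, eval_pow, eval_ofNat] at h4
  have hZ : (gZ (diagonal l) a b).eval μ ≠ 0 := by
    intro h0
    rw [h0] at h5 h4
    have h7 : (gB (diagonal l) a b ss).eval μ = 0 := by
      have : (gB (diagonal l) a b ss).eval μ ^ 2 = 0 := by rw [h5]; ring
      exact pow_eq_zero_iff (two_ne_zero) |>.1 this
    rw [h7] at h4
    apply h4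
    ring
  have hVL : (gV (diagonal l) b ss).eval μ * (gL (diagonal l) a).eval μ ≠ 0 := by
    intro h0
    rw [h0] at h5 h4
    have h7 : (gB (diagonal l) a b ss).eval μ = 0 := by
      have : (gB (diagonal l) a b ss).eval μ ^ 2 = 0 := by rw [h5]; ring
      exact pow_eq_zero_iff (two_ne_zero) |>.1 this
    have h8 := congrArg (eval μ) (gB_eq (diagonal l) a b ss)
    simp only [eval_sub, eval_mul, eval_ofNat] at h8
    rw [h7, h0] at h8
    have h9 : (derivative (gV (diagonal l) b ss * gL (diagonal l) a)).eval μ = 0 := by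
      have : (derivative (gV (diagonal l) b ss * gL (diagonal l) a)).eval μ * (gD (diagonal l)).eval μ = 0 := by
        linear_combination -h8
      exact (mul_eq_zero.1 this).resolve_right hD
    rw [h7, h9] at h4
    apply h4
    ring
  exact ⟨h1, left_ne_zero_of_mul hVL, right_ne_zero_of_mul hVL, hZ, h5⟩

/-- Existence of a solution of the reduced system over a root. -/
lemma root_lift (hsep : (gD (diagonal l) * gPsi (diagonal l) a b ss).Separable) {μ : ℂ}
    (hμ : (gPsi (diagonal l) a b ss).eval μ = 0) : ∃ A ξ, (A, μ, ξ) ∈ RS l a b ss := by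
  obtain ⟨h1, hV, hL, hZ, h5⟩ := root_facts hsep hμ
  have hD := eval_gD_ne h1
  set D := (gD (diagonal l)).eval μ with hDdef
  set V := (gV (diagonal l) b ss).eval μ with hVdef
  set L := (gL (diagonal l) a).eval μ with hLdef
  set Z := (gZ (diagonal l) a b).eval μ with hZdef
  set B := (gB (diagonal l) a b ss).eval μ with hBdef
  set A := B / (L * Z) with hAdef
  have hA1 : A * L * Z = B := by
    rw [hAdef]
    field_simp
  have hA2 : V = A ^ 2 * L := by
    apply mul_right_cancel₀ (mul_ne_zero hL (pow_ne_zero 2 hZ))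
    rw [← mul_assoc, ← h5, ← hA1]
    ring
  have hA0 : A ≠ 0 := by
    intro h0
    apply hV
    rw [hA2, h0]
    ring
  have hE2 : A * Z = D ^ 2 + (wr (diagonal l) (gP2 (diagonal l) b b)).eval μ +
      A ^ 2 * (wr (diagonal l) (gP2 (diagonal l) a a)).eval μ := by
    apply mul_right_cancel₀ hL
    have h6 : B = (D ^ 2 + (wr (diagonal l) (gP2 (diagonal l) b b)).eval μ) * L +
        (wr (diagonal l) (gP2 (diagonal l) a a)).eval μ * V := by
      rw [hBdef]
      unfold gB
      simp only [eval_add, eval_mul, eval_pow]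
      rfl
    rw [hA2] at h6
    linear_combination hA1 + h6
  refine ⟨A, fun i => (A * a i + b i) / (μ - l i), hA0, ?_, ?_, ?_⟩
  · intro i
    have := sub_ne_zero.2 (h1 i)
    simp only
    field_simp
  · simp only
    have h4 : ∑ j, ((A * a j + b j) / (μ - l j)) ^ 2 = A ^ 2 * ∑ i, a i * a i / (μ - l i) ^ 2 +
        2 * A * ∑ i, a i * b i / (μ - l i) ^ 2 + ∑ i, b i * b i / (μ - l i) ^ 2 := by
      rw [Finset.mul_sum, Finset.mul_sum, ← Finset.sum_add_distrib, ← Finset.sum_add_distrib]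
      apply Finset.sum_congr rfl
      intro j _
      rw [div_pow]
      ring
    rw [h4]
    have h7 : Z = D ^ 2 - 2 * (D ^ 2 * ∑ i, a i * b i / (μ - l i) ^ 2) := by
      rw [hZdef]
      unfold gZ
      simp only [eval_sub, eval_mul, eval_pow, eval_ofNat]
      rw [eval_wr h1]
    rw [eval_wr h1, eval_wr h1, h7, ← hDdef] at hE2
    apply mul_left_cancel₀ (pow_ne_zero 2 hD)
    linear_combination hE2
  · simp only
    have h4 : ∑ j, (b j - A * a j) * ((A * a j + b j) / (μ - l j)) =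
        ∑ i, b i * b i / (μ - l i) - A ^ 2 * ∑ i, a i * a i / (μ - l i) := by
      rw [Finset.mul_sum, ← Finset.sum_sub_distrib]
      apply Finset.sum_congr rfl
      intro j _
      ring
    rw [h4]
    have h7 : V = D * (μ - ss) - D * ∑ i, b i * b i / (μ - l i) := by
      rw [hVdef]
      unfold gV
      simp only [eval_sub, eval_mul, eval_X, eval_C]
      rw [eval_gP2 h1]
    have h8 : L = D - D * ∑ i, a i * a i / (μ - l i) := by
      rw [hLdef]
      unfold gL
      simp only [eval_sub]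
      rw [eval_gP2 h1]
    rw [h7, h8] at hA2
    apply mul_left_cancel₀ hD
    linear_combination hA2

/-- The reduced system has as many solutions as the elimination polynomial has roots. -/
theorem RS_ncard (hsep : (gD (diagonal l) * gPsi (diagonal l) a b ss).Separable) :
    (RS l a b ss).ncard = {μ | (gPsi (diagonal l) a b ss).eval μ = 0}.ncard := by
  have himg : (fun t : ℂ × ℂ × (ι → ℂ) => t.2.1) '' (RS l a b ss) = {μ | (gPsi (diagonal l) a b ss).eval μ = 0} := by
    ext μ
    constructor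
    · rintro ⟨⟨A, μ', ξ⟩, h, rfl⟩
      exact (RS_root hsep h).2.1
    · intro hμ
      obtain ⟨A, ξ, h⟩ := root_lift hsep hμ
      exact ⟨(A, μ, ξ), h, rfl⟩
  rw [← himg, Set.InjOn.ncard_image]
  rintro ⟨A, μ, ξ⟩ h ⟨A', μ', ξ'⟩ h' heq
  simp only at heq
  subst heq
  obtain ⟨h1, h2, h3⟩ := RS_root hsep h
  obtain ⟨-, -, h3'⟩ := RS_root hsep h'
  obtain ⟨-, hV, hL, hZ, -⟩ := root_facts hsep h2
  have hAA : A = A' := by
    apply mul_right_cancel₀ (mul_ne_zero hL hZ)
    linear_combination h3 - h3'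
  subst hAA
  obtain ⟨h4, -⟩ := RS_eqs h1 h
  obtain ⟨h4', -⟩ := RS_eqs h1 h'
  have : ξ = ξ' := by
    ext i
    rw [h4, h4']
  rw [this]

lemma roots_ncard (hsep : (gD (diagonal l) * gPsi (diagonal l) a b ss).Separable) :
    {μ | (gPsi (diagonal l) a b ss).eval μ = 0}.ncard = 4 * Fintype.card ι + 1 := by
  obtain ⟨hl, -⟩ := sep_facts hsep
  have h2 : (gPsi (diagonal l) a b ss).Separable := hsep.of_mul_right
  have hdeg : (gPsi (diagonal l) a b ss).natDegree = 4 * Fintype.card ι + 1 := by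
    have h3 := (neg_gPhi_monic (diagonal l) a b ss).2
    rw [natDegree_neg] at h3
    unfold gPsi
    rw [natDegree_divByMonic _ ((gD_monic _).pow 2), h3, (gD_monic _).natDegree_pow, natDegree_gD]
    omega
  have h0 : gPsi (diagonal l) a b ss ≠ 0 := h2.ne_zero
  have h4 : {μ | (gPsi (diagonal l) a b ss).eval μ = 0} = ((gPsi (diagonal l) a b ss).roots.toFinset : Set ℂ) := by
    ext μ
    simp [mem_roots h0]
  rw [h4, Set.ncard_coe_finset, Multiset.toFinset_card_of_nodup (nodup_roots h2), ← hdeg]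
  exact (IsAlgClosed.splits _).natDegree_eq_card_roots.symm

end sep

end Pool.Agent.MP_b0e20b_ag
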