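import Pool.Agent.Lib.MP_b0e20b_ag.Gen3
import Pool.Agent.Lib.MP_b0e20b_ag.Coord

/-!
Complex orthogonal diagonalisation and the number of solutions of the critical equations.
-/

namespace Pool.Agent.MP_b0e20b_ag

open Finset Matrix Polynomial

set_option linter.unusedSectionVars false

variable {ι κ : Type*} [Fintype ι] [DecidableEq ι] [Fintype κ]

/-- A complex symmetric matrix with separable characteristic polynomial is orthogonally
diagonalisable. -/
theorem exists_diag (M : Matrix ι ι ℂ) (hM : Mᵀ = M) (hsep : M.charpoly.Separable) :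
    ∃ (O : Matrix ι ι ℂ) (l : ι → ℂ), Oᵀ * O = 1 ∧ O * Oᵀ = 1 ∧ M = O * diagonal l * Oᵀ := by
  -- the eigenvalues
  have h1 : M.charpoly.roots.toFinset.card = Fintype.card ι := by
    rw [Multiset.toFinset_card_of_nodup (nodup_roots hsep), ← charpoly_natDegree_eq_dim M]
    exact (IsAlgClosed.splits _).natDegree_eq_card_roots.symm
  have h2 : Fintype.card ι = Fintype.card M.charpoly.roots.toFinset := by
    rw [Fintype.card_coe, h1]
  let e : ι ≃ M.charpoly.roots.toFinset := Fintype.equivOfCardEq h2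
  set l : ι → ℂ := fun i => (e i : ℂ) with hl
  have hlinj : Function.Injective l := fun i j hij => e.injective (Subtype.ext hij)
  have hroot : ∀ i, M.charpoly.eval (l i) = 0 := by
    intro i
    have := (e i).2
    rw [Multiset.mem_toFinset, mem_roots hsep.ne_zero] at this
    exact this
  have hex : ∀ i, ∃ v : ι → ℂ, v ≠ 0 ∧ M *ᵥ v = l i • v := by
    intro i
    have h3 := hroot i
    rw [Matrix.eval_charpoly] at h3
    obtain ⟨v, hv, h4⟩ := Matrix.exists_mulVec_eq_zero_iff.2 h3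
    refine ⟨v, hv, ?_⟩
    rw [sub_mulVec, sub_eq_zero] at h4
    rw [← h4]
    simp [Matrix.scalar_apply]
  choose v hv0 hv using hex
  have horth : ∀ i j, i ≠ j → v i ⬝ᵥ v j = 0 := by
    intro i j hij
    have h3 : (M *ᵥ v i) ⬝ᵥ v j = v i ⬝ᵥ (M *ᵥ v j) := by
      rw [dotProduct_mulVec, ← mulVec_transpose, hM]
    rw [hv i, hv j, smul_dotProduct, dotProduct_smul] at h3
    have h4 : (l i - l j) * (v i ⬝ᵥ v j) = 0 := by
      simp only [smul_eq_mul] at h3
      linear_combination h3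
    exact (mul_eq_zero.1 h4).resolve_left (sub_ne_zero.2 (fun h => hij (hlinj h)))
  have hind : LinearIndependent ℂ v := by
    apply Module.End.eigenvectors_linearIndependent' (Matrix.toLin' M) l hlinj v
    intro i
    rw [Module.End.hasEigenvector_iff]
    refine ⟨?_, hv0 i⟩
    rw [Module.End.mem_eigenspace_iff, Matrix.toLin'_apply]
    exact hv i
  set Vm : Matrix ι ι ℂ := Matrix.of (fun i j => v j i) with hVm
  have hdet : Vm.det ≠ 0 := by
    have h3 : LinearIndependent ℂ Vm.col := hind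
    rw [linearIndependent_cols_iff_isUnit] at h3
    exact ((Matrix.isUnit_iff_isUnit_det _).1 h3).ne_zero
  have hVV : Vmᵀ * Vm = diagonal (fun i => v i ⬝ᵥ v i) := by
    ext i j
    have h3 : (Vmᵀ * Vm) i j = v i ⬝ᵥ v j := by
      simp [Matrix.mul_apply, hVm, dotProduct]
    rw [h3]
    by_cases hij : i = j
    · subst hij
      rw [diagonal_apply_eq]
    · rw [diagonal_apply_ne _ hij, horth i j hij]
  have hne : ∀ i, v i ⬝ᵥ v i ≠ 0 := by
    have h3 := congrArg Matrix.det hVV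
    rw [det_mul, det_transpose, det_diagonal] at h3
    have h4 : ∏ i, v i ⬝ᵥ v i ≠ 0 := by
      rw [← h3]
      exact mul_ne_zero hdet hdet
    rw [Finset.prod_ne_zero_iff] at h4
    exact fun i => h4 i (mem_univ i)
  have hsq : ∀ i, ∃ c : ℂ, c ^ 2 = v i ⬝ᵥ v i := fun i =>
    IsAlgClosed.exists_pow_nat_eq _ (by norm_num)
  choose c hc using hsq
  have hc0 : ∀ i, c i ≠ 0 := by
    intro i h
    apply hne i
    rw [← hc i, h]
    ring
  set O : Matrix ι ι ℂ := Matrix.of (fun i j => v j i / c j) with hO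
  have hOO : Oᵀ * O = 1 := by
    ext i j
    have h3 : (Oᵀ * O) i j = (v i ⬝ᵥ v j) / (c i * c j) := by
      simp only [Matrix.mul_apply, hO, dotProduct, transpose_apply, of_apply]
      rw [Finset.sum_div]
      apply Finset.sum_congr rfl
      intro k _
      have := hc0 i
      have := hc0 j
      field_simp
    rw [h3]
    by_cases hij : i = j
    · subst hij
      rw [one_apply_eq, ← hc i]
      have := hc0 i
      field_simp
    · rw [one_apply_ne hij, horth i j hij, zero_div]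
  have hOO' : O * Oᵀ = 1 := mul_eq_one_comm.1 hOO
  refine ⟨O, l, hOO, hOO', ?_⟩
  have hMO : M * O = O * diagonal l := by
    ext i j
    rw [mul_diagonal, hO, of_apply, Matrix.mul_apply]
    have h3 := congrFun (hv j) i
    simp only [mulVec, dotProduct, Pi.smul_apply, smul_eq_mul] at h3
    simp only [of_apply]
    have h4 := hc0 j
    have h5 : ∑ x, M i x * (v j x / c j) = (∑ x, M i x * v j x) / c j := by
      rw [Finset.sum_div]
      apply Finset.sum_congr rfl
      intro k _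
      ring
    rw [h5, h3]
    ring
  rw [← hMO, Matrix.mul_assoc, hOO', Matrix.mul_one]

section transfer

variable {O : Matrix ι ι ℂ} {l : ι → ℂ} {M : Matrix ι ι ℂ}

lemma charpoly_conj (h1 : Oᵀ * O = 1) (N : Matrix ι ι ℂ) : (O * N * Oᵀ).charpoly = N.charpoly := by
  rw [Matrix.mul_assoc, charpoly_mul_comm, Matrix.mul_assoc, h1, Matrix.mul_one]

lemma gD_conj (h1 : Oᵀ * O = 1) (hM : M = O * diagonal l * Oᵀ) : gD M = gD (diagonal l) := by
  unfold gD
  rw [hM, charpoly_conj h1]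

lemma gP2_conj (h1 : Oᵀ * O = 1) (h2 : O * Oᵀ = 1) (hM : M = O * diagonal l * Oᵀ) (r w : ι → ℂ) :
    gP2 M r w = gP2 (diagonal l) (Oᵀ *ᵥ r) (Oᵀ *ᵥ w) := by
  unfold gP2
  have h3 : M + vecMulVec r w = O * (diagonal l + vecMulVec (Oᵀ *ᵥ r) (Oᵀ *ᵥ w)) * Oᵀ := by
    rw [Matrix.mul_add, Matrix.add_mul, ← hM]
    congr 1
    rw [mul_vecMulVec, vecMulVec_mul, mulVec_mulVec, h2, one_mulVec, ← mulVec_transpose,
      transpose_transpose, mulVec_mulVec, h2, one_mulVec]
  rw [h3, charpoly_conj h1, hM, charpoly_conj h1]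

lemma gPsi_conj (h1 : Oᵀ * O = 1) (h2 : O * Oᵀ = 1) (hM : M = O * diagonal l * Oᵀ) (r w : ι → ℂ) (ss : ℂ) :
    gPsi M r w ss = gPsi (diagonal l) (Oᵀ *ᵥ r) (Oᵀ *ᵥ w) ss := by
  have hD := gD_conj h1 hM
  have hP := gP2_conj h1 h2 hM
  unfold gPsi gPhi gB gV gL gZ wr
  rw [hD, hP, hP, hP]

end transfer

/-- All critical points have `1 + |x|² ≠ 0` under the separability assumption. -/
lemma A_ne_zero_of_sep {l : ι → ℂ} {O : Matrix ι ι ℂ} (h1 : Oᵀ * O = 1) (h2 : O * Oᵀ = 1)
    {W : Matrix ι κ ℂ} {r : ι → ℂ} {s : κ → ℂ} (hM : W * Wᵀ = O * diagonal l * Oᵀ) (hl0 : ∀ i, l i ≠ 0)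
    (hsep : (gD (diagonal l) * gPsi (diagonal l) (Oᵀ *ᵥ r) (Oᵀ *ᵥ (W *ᵥ s)) (s ⬝ᵥ s)).Separable)
    {z : (ι → ℂ) × (κ → ℂ)} (hz : z ∈ Sol r s W) : 1 + ∑ i, z.1 i ^ 2 ≠ 0 := by
  intro hA
  obtain ⟨x, y⟩ := z
  obtain ⟨-, hy⟩ := hz
  simp only at hy hA
  obtain ⟨hl, hs⟩ := sep_facts hsep
  set a := Oᵀ *ᵥ r with ha
  set b := Oᵀ *ᵥ (W *ᵥ s) with hb
  set ξ := Oᵀ *ᵥ x with hξ
  have hsx : s = -(Wᵀ *ᵥ x) := by
    ext j
    have := hy j
    rw [hA, zero_mul, zero_sub] at this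
    rw [← this]
    simp [mulVec, dotProduct]
  have hbξ : ∀ i, b i = -(l i * ξ i) := by
    intro i
    have h3 : b = -(diagonal l *ᵥ ξ) := by
      rw [hb, hsx, mulVec_neg, mulVec_mulVec, hM, mulVec_neg, mulVec_mulVec, ← Matrix.mul_assoc, ← Matrix.mul_assoc,
        h1, Matrix.one_mul, hξ, mulVec_mulVec]
    rw [h3]
    simp [mulVec_diagonal]
  have hξξ : ∑ i, ξ i ^ 2 = ∑ i, x i ^ 2 := by
    have h3 : x ⬝ᵥ x = ξ ⬝ᵥ ξ := by
      rw [hξ, dotProduct_mulVec, vecMul_transpose, mulVec_mulVec, h2, one_mulVec]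
    simp only [dotProduct] at h3
    simp only [sq]
    exact h3.symm
  have hss : s ⬝ᵥ s = ∑ i, l i * ξ i ^ 2 := by
    have h3 : s ⬝ᵥ s = x ⬝ᵥ ((W * Wᵀ) *ᵥ x) := by
      rw [hsx, neg_dotProduct, dotProduct_neg, neg_neg, ← mulVec_mulVec, dotProduct_mulVec x, ← mulVec_transpose]
    rw [h3, hM]
    have h4 : x ⬝ᵥ ((O * diagonal l * Oᵀ) *ᵥ x) = ξ ⬝ᵥ (diagonal l *ᵥ ξ) := by
      rw [hξ, ← mulVec_mulVec, ← mulVec_mulVec, dotProduct_mulVec x O, ← mulVec_transpose]
    rw [h4]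
    simp only [dotProduct, mulVec_diagonal]
    apply Finset.sum_congr rfl
    intro i _
    ring
  -- evaluate at zero
  have h0 : ∀ i, (0 : ℂ) ≠ l i := fun i => (hl0 i).symm
  have hD := eval_gD_ne h0
  set D := (gD (diagonal l)).eval 0 with hDdef
  have hV : (gV (diagonal l) b (s ⬝ᵥ s)).eval 0 = 0 := by
    unfold gV
    simp only [eval_sub, eval_mul, eval_X, eval_C]
    rw [eval_gP2 h0, ← hDdef, hss]
    have h3 : ∑ i, b i * b i / (0 - l i) = - ∑ i, l i * ξ i ^ 2 := by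
      rw [← Finset.sum_neg_distrib]
      apply Finset.sum_congr rfl
      intro i _
      rw [hbξ i]
      have := hl0 i
      field_simp
      ring
    rw [h3]
    ring
  have hW : D ^ 2 + (wr (diagonal l) (gP2 (diagonal l) b b)).eval 0 = 0 := by
    rw [eval_wr h0, ← hDdef]
    have h3 : ∑ i, b i * b i / (0 - l i) ^ 2 = ∑ i, ξ i ^ 2 := by
      apply Finset.sum_congr rfl
      intro i _
      rw [hbξ i]
      have := hl0 i
      field_simp
      ring
    rw [h3, hξξ]
    linear_combination D ^ 2 * hA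
  have hB : (gB (diagonal l) a b (s ⬝ᵥ s)).eval 0 = 0 := by
    unfold gB
    simp only [eval_add, eval_mul, eval_pow]
    rw [hV, ← hDdef]
    linear_combination (eval 0 (gL (diagonal l) a)) * hW
  have hΦ : (gPhi (diagonal l) a b (s ⬝ᵥ s)).eval 0 = 0 := by
    unfold gPhi
    simp only [eval_sub, eval_mul, eval_pow]
    rw [hV, hB]
    ring
  have hV' : (derivative (gV (diagonal l) b (s ⬝ᵥ s))).eval 0 = 0 := by
    have h3 : derivative (gV (diagonal l) b (s ⬝ᵥ s)) * gD (diagonal l) - gV (diagonal l) b (s ⬝ᵥ s) * derivative (gD (diagonal l)) =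
        gD (diagonal l) ^ 2 + wr (diagonal l) (gP2 (diagonal l) b b) := by
      unfold gV wr
      simp only [derivative_mul, derivative_sub, derivative_X, derivative_C]
      ring
    have h4 := congrArg (eval 0) h3
    simp only [eval_sub, eval_mul, eval_add, eval_pow] at h4
    rw [hV, ← hDdef, hW] at h4
    have h5 : (derivative (gV (diagonal l) b (s ⬝ᵥ s))).eval 0 * D = 0 := by linear_combination h4
    exact (mul_eq_zero.1 h5).resolve_right hD
  have hΨ : (gPsi (diagonal l) a b (s ⬝ᵥ s)).eval 0 = 0 := by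
    rw [gPhi_eq hl, eval_mul, eval_pow] at hΦ
    exact (mul_eq_zero.1 hΦ).resolve_left (pow_ne_zero 2 hD)
  apply (hs 0 hΨ).2
  have h6 : derivative (gPhi (diagonal l) a b (s ⬝ᵥ s)) = 2 * gB (diagonal l) a b (s ⬝ᵥ s) * derivative (gB (diagonal l) a b (s ⬝ᵥ s)) -
      (derivative (gV (diagonal l) b (s ⬝ᵥ s)) * gL (diagonal l) a + gV (diagonal l) b (s ⬝ᵥ s) * derivative (gL (diagonal l) a)) * gZ (diagonal l) a b ^ 2 -
      (gV (diagonal l) b (s ⬝ᵥ s) * gL (diagonal l) a) * (2 * gZ (diagonal l) a b * derivative (gZ (diagonal l) a b)) := by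
    unfold gPhi
    simp only [derivative_sub, derivative_mul, derivative_pow, Nat.cast_ofNat, map_ofNat]
    ring
  have h7 := congrArg (eval 0) h6
  simp only [eval_sub, eval_mul, eval_add, eval_pow] at h7
  rw [hV, hB, hV'] at h7
  rw [gPhi_eq hl, derivative_mul, eval_add, eval_mul, eval_mul, hΨ, mul_zero, zero_add, eval_pow] at h7
  have h8 : D ^ 2 * (derivative (gPsi (diagonal l) a b (s ⬝ᵥ s))).eval 0 = 0 := by
    rw [hDdef]
    linear_combination h7
  exact (mul_eq_zero.1 h8).resolve_left (pow_ne_zero 2 hD)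

end Pool.Agent.MP_b0e20b_ag
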