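import Pool.Agent.Lib.MP_b0e20b_ag.Gen4

/-!
The number of solutions of the critical equations under the separability assumption.
-/

namespace Pool.Agent.MP_b0e20b_ag

open Finset Matrix Polynomial

set_option linter.unusedSectionVars false

variable {ι κ : Type*} [Fintype ι] [DecidableEq ι] [Fintype κ]

lemma dot_self_eq {α : Type*} [Fintype α] (x : α → ℂ) : x ⬝ᵥ x = ∑ i, x i ^ 2 := by
  simp only [dotProduct, sq]

/-- From the critical equations to the reduced system. -/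
lemma Sol_to_RS {l : ι → ℂ} {O : Matrix ι ι ℂ} (h1 : Oᵀ * O = 1) (h2 : O * Oᵀ = 1)
    {W : Matrix ι κ ℂ} {r : ι → ℂ} {s : κ → ℂ} (hM : W * Wᵀ = O * diagonal l * Oᵀ)
    {x : ι → ℂ} {y : κ → ℂ} (hz : (x, y) ∈ Sol r s W) (hA : 1 + ∑ i, x i ^ 2 ≠ 0) :
    (1 + ∑ i, x i ^ 2, (1 + ∑ i, x i ^ 2) * (1 + ∑ j, y j ^ 2), Oᵀ *ᵥ x) ∈
      RS l (Oᵀ *ᵥ r) (Oᵀ *ᵥ (W *ᵥ s)) (s ⬝ᵥ s) := by
  obtain ⟨hx, hy⟩ := hz
  simp only at hx hy
  set A := 1 + ∑ i, x i ^ 2 with hAdef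
  set B := 1 + ∑ j, y j ^ 2 with hBdef
  have hxv : B • x - W *ᵥ y = r := by
    ext i
    rw [← hx i]
    simp [mulVec, dotProduct]
  have hyv : A • y - Wᵀ *ᵥ x = s := by
    ext j
    rw [← hy j]
    simp [mulVec, dotProduct]
  have hMx : (A * B) • x - (W * Wᵀ) *ᵥ x = A • r + W *ᵥ s := by
    rw [← hxv, ← hyv, mulVec_sub, mulVec_smul, smul_sub, smul_smul, ← mulVec_mulVec]
    abel
  have hxx : x ⬝ᵥ x = (Oᵀ *ᵥ x) ⬝ᵥ (Oᵀ *ᵥ x) := by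
    rw [dotProduct_mulVec, vecMul_transpose, mulVec_mulVec, h2, one_mulVec]
  have hwx : ∀ u : ι → ℂ, u ⬝ᵥ x = (Oᵀ *ᵥ u) ⬝ᵥ (Oᵀ *ᵥ x) := by
    intro u
    rw [dotProduct_mulVec, vecMul_transpose, mulVec_mulVec, h2, one_mulVec]
  refine ⟨hA, ?_, ?_, ?_⟩
  · intro i
    simp only
    have h3 : Oᵀ *ᵥ ((A * B) • x - (W * Wᵀ) *ᵥ x) = Oᵀ *ᵥ (A • r + W *ᵥ s) := by rw [hMx]
    rw [mulVec_sub, mulVec_smul, mulVec_add, mulVec_smul, hM, mulVec_mulVec, ← Matrix.mul_assoc, ← Matrix.mul_assoc,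
      h1, Matrix.one_mul, ← mulVec_mulVec] at h3
    have h4 := congrFun h3 i
    simp only [Pi.sub_apply, Pi.smul_apply, Pi.add_apply, smul_eq_mul, mulVec_diagonal] at h4
    linear_combination h4
  · simp only
    rw [← dot_self_eq, ← hxx, dot_self_eq]
  · simp only
    have h3 : ∑ i, ((Oᵀ *ᵥ (W *ᵥ s)) i - A * (Oᵀ *ᵥ r) i) * (Oᵀ *ᵥ x) i = (W *ᵥ s) ⬝ᵥ x - A * (r ⬝ᵥ x) := by
      rw [hwx (W *ᵥ s), hwx r]
      simp only [dotProduct]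
      rw [Finset.mul_sum, ← Finset.sum_sub_distrib]
      apply Finset.sum_congr rfl
      intro i _
      ring
    rw [h3]
    -- A² y·y
    have h4 : A ^ 2 * (y ⬝ᵥ y) = s ⬝ᵥ s + 2 * ((W *ᵥ s) ⬝ᵥ x) + x ⬝ᵥ ((W * Wᵀ) *ᵥ x) := by
      have h5 : A • y = s + Wᵀ *ᵥ x := by rw [← hyv]; abel
      have h6 : (A • y) ⬝ᵥ (A • y) = A ^ 2 * (y ⬝ᵥ y) := by
        rw [smul_dotProduct, dotProduct_smul]
        simp only [smul_eq_mul]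
        ring
      rw [← h6, h5, add_dotProduct, dotProduct_add, dotProduct_add, ← mulVec_mulVec, dotProduct_mulVec x W,
        ← mulVec_transpose]
      have h7 : s ⬝ᵥ (Wᵀ *ᵥ x) = (W *ᵥ s) ⬝ᵥ x := by
        rw [dotProduct_mulVec, vecMul_transpose]
      have h8 : (Wᵀ *ᵥ x) ⬝ᵥ s = (W *ᵥ s) ⬝ᵥ x := by
        rw [dotProduct_comm, h7]
      rw [h7, h8]
      ring
    have h5 : x ⬝ᵥ ((W * Wᵀ) *ᵥ x) = A * B * (x ⬝ᵥ x) - A * (r ⬝ᵥ x) - (W *ᵥ s) ⬝ᵥ x := by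
      have h6 : (W * Wᵀ) *ᵥ x = (A * B) • x - (A • r + W *ᵥ s) := by rw [← hMx]; abel
      rw [h6, dotProduct_sub, dotProduct_add, dotProduct_smul, dotProduct_smul, dotProduct_comm x r,
        dotProduct_comm x (W *ᵥ s)]
      simp only [smul_eq_mul]
      ring
    rw [h5] at h4
    have h6 : y ⬝ᵥ y = B - 1 := by rw [dot_self_eq, hBdef]; ring
    have h7 : x ⬝ᵥ x = A - 1 := by rw [dot_self_eq, hAdef]; ring
    rw [h6, h7] at h4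
    linear_combination h4

/-- From the reduced system back to the critical equations. -/
lemma RS_to_Sol {l : ι → ℂ} {O : Matrix ι ι ℂ} (h1 : Oᵀ * O = 1) (h2 : O * Oᵀ = 1)
    {W : Matrix ι κ ℂ} {r : ι → ℂ} {s : κ → ℂ} (hM : W * Wᵀ = O * diagonal l * Oᵀ)
    {A μ : ℂ} {ξ : ι → ℂ} (h : (A, μ, ξ) ∈ RS l (Oᵀ *ᵥ r) (Oᵀ *ᵥ (W *ᵥ s)) (s ⬝ᵥ s)) :
    ∃ z ∈ Sol r s W, 1 + ∑ i, z.1 i ^ 2 = A ∧ (1 + ∑ i, z.1 i ^ 2) * (1 + ∑ j, z.2 j ^ 2) = μ ∧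
      Oᵀ *ᵥ z.1 = ξ := by
  obtain ⟨hA, e1, e2, e3⟩ := h
  simp only at hA e1 e2 e3
  obtain ⟨x, hx⟩ : ∃ x, x = O *ᵥ ξ := ⟨_, rfl⟩
  have hξ : Oᵀ *ᵥ x = ξ := by rw [hx, mulVec_mulVec, h1, one_mulVec]
  obtain ⟨y, hy⟩ : ∃ y, y = A⁻¹ • (s + Wᵀ *ᵥ x) := ⟨_, rfl⟩
  have hxx : ∑ i, x i ^ 2 = ∑ i, ξ i ^ 2 := by
    rw [← dot_self_eq, ← dot_self_eq, ← hξ, dotProduct_mulVec (Oᵀ *ᵥ x), vecMul_transpose, mulVec_mulVec, h2,
      one_mulVec]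
  have hwx : ∀ u : ι → ℂ, u ⬝ᵥ x = (Oᵀ *ᵥ u) ⬝ᵥ ξ := by
    intro u
    rw [← hξ, dotProduct_mulVec, vecMul_transpose, mulVec_mulVec, h2, one_mulVec]
  have hMx : μ • x - (W * Wᵀ) *ᵥ x = A • r + W *ᵥ s := by
    have h3 : Oᵀ *ᵥ (μ • x - (W * Wᵀ) *ᵥ x) = Oᵀ *ᵥ (A • r + W *ᵥ s) := by
      rw [mulVec_sub, mulVec_smul, mulVec_add, mulVec_smul, hM, mulVec_mulVec, ← Matrix.mul_assoc, ← Matrix.mul_assoc,
        h1, Matrix.one_mul, ← mulVec_mulVec, hξ]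
      ext i
      simp only [Pi.sub_apply, Pi.smul_apply, Pi.add_apply, smul_eq_mul, mulVec_diagonal]
      linear_combination e1 i
    have h4 := congrArg (fun u => O *ᵥ u) h3
    rwa [mulVec_mulVec, mulVec_mulVec, h2, one_mulVec, one_mulVec] at h4
  have hA1 : 1 + ∑ i, x i ^ 2 = A := by rw [hxx, ← e2]
  have hyy : ∑ j, y j ^ 2 = μ / A - 1 := by
    rw [← dot_self_eq]
    have h4 : A ^ 2 * (y ⬝ᵥ y) = s ⬝ᵥ s + 2 * ((W *ᵥ s) ⬝ᵥ x) + x ⬝ᵥ ((W * Wᵀ) *ᵥ x) := by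
      have h5 : A • y = s + Wᵀ *ᵥ x := by
        rw [hy, smul_smul, mul_inv_cancel₀ hA, one_smul]
      have h6 : (A • y) ⬝ᵥ (A • y) = A ^ 2 * (y ⬝ᵥ y) := by
        rw [smul_dotProduct, dotProduct_smul]
        simp only [smul_eq_mul]
        ring
      rw [← h6, h5, add_dotProduct, dotProduct_add, dotProduct_add, ← mulVec_mulVec, dotProduct_mulVec x W,
        ← mulVec_transpose]
      have h7 : s ⬝ᵥ (Wᵀ *ᵥ x) = (W *ᵥ s) ⬝ᵥ x := by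
        rw [dotProduct_mulVec, vecMul_transpose]
      have h8 : (Wᵀ *ᵥ x) ⬝ᵥ s = (W *ᵥ s) ⬝ᵥ x := by
        rw [dotProduct_comm, h7]
      rw [h7, h8]
      ring
    have h5 : x ⬝ᵥ ((W * Wᵀ) *ᵥ x) = μ * (x ⬝ᵥ x) - A * (r ⬝ᵥ x) - (W *ᵥ s) ⬝ᵥ x := by
      have h6 : (W * Wᵀ) *ᵥ x = μ • x - (A • r + W *ᵥ s) := by rw [← hMx]; abel
      rw [h6, dotProduct_sub, dotProduct_add, dotProduct_smul, dotProduct_smul, dotProduct_comm x r,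
        dotProduct_comm x (W *ᵥ s)]
      simp only [smul_eq_mul]
      ring
    have h3 : ∑ i, ((Oᵀ *ᵥ (W *ᵥ s)) i - A * (Oᵀ *ᵥ r) i) * ξ i = (W *ᵥ s) ⬝ᵥ x - A * (r ⬝ᵥ x) := by
      rw [hwx (W *ᵥ s), hwx r]
      simp only [dotProduct]
      rw [Finset.mul_sum, ← Finset.sum_sub_distrib]
      apply Finset.sum_congr rfl
      intro i _
      ring
    rw [h3] at e3
    have h7 : x ⬝ᵥ x = A - 1 := by rw [dot_self_eq, ← hA1]; ring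
    rw [h5, h7] at h4
    apply mul_left_cancel₀ (pow_ne_zero 2 hA)
    rw [h4]
    field_simp
    linear_combination -e3
  have hB : 1 + ∑ j, y j ^ 2 = μ / A := by rw [hyy]; ring
  refine ⟨(x, y), ⟨?_, ?_⟩, hA1, ?_, hξ⟩
  · intro i
    simp only
    rw [hB]
    have h3 : W *ᵥ y = A⁻¹ • (W *ᵥ s + (W * Wᵀ) *ᵥ x) := by
      rw [hy, mulVec_smul, mulVec_add, mulVec_mulVec]
    have h4 := congrFun h3 i
    have h5 := congrFun hMx i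
    simp only [Pi.sub_apply, Pi.smul_apply, Pi.add_apply, smul_eq_mul] at h4 h5
    have h6 : ∑ j, W i j * y j = (W *ᵥ y) i := rfl
    rw [h6, h4]
    field_simp
    linear_combination h5
  · intro j
    simp only
    rw [hA1]
    have h6 : ∑ i, W i j * x i = (Wᵀ *ᵥ x) j := rfl
    rw [h6, hy]
    simp only [Pi.smul_apply, Pi.add_apply, smul_eq_mul]
    field_simp
    ring
  · simp only
    rw [hA1, hB]
    field_simp

/-- **The count.** -/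
theorem Sol_ncard (W : Matrix ι κ ℂ) (r : ι → ℂ) (s : κ → ℂ) (h0 : (gD (W * Wᵀ)).eval 0 ≠ 0)
    (hsep : (gD (W * Wᵀ) * gPsi (W * Wᵀ) r (W *ᵥ s) (s ⬝ᵥ s)).Separable) :
    (Sol r s W).ncard = 4 * Fintype.card ι + 1 := by
  have hsymm : (W * Wᵀ)ᵀ = W * Wᵀ := by rw [transpose_mul, transpose_transpose]
  have hsep1 : (W * Wᵀ).charpoly.Separable := hsep.of_mul_left
  obtain ⟨O, l, h1, h2, hM⟩ := exists_diag (W * Wᵀ) hsymm hsep1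
  rw [gD_conj h1 hM] at h0 hsep
  rw [gPsi_conj h1 h2 hM] at hsep
  have hl0 : ∀ i, l i ≠ 0 := by
    intro i hi
    apply h0
    rw [eval_gD]
    apply Finset.prod_eq_zero (mem_univ i)
    rw [hi, sub_zero]
  have hA : ∀ z ∈ Sol r s W, 1 + ∑ i, z.1 i ^ 2 ≠ 0 := fun z hz =>
    A_ne_zero_of_sep h1 h2 hM hl0 hsep hz
  rw [← roots_ncard hsep, ← RS_ncard hsep]
  set T : (ι → ℂ) × (κ → ℂ) → ℂ × ℂ × (ι → ℂ) := fun z =>
    (1 + ∑ i, z.1 i ^ 2, (1 + ∑ i, z.1 i ^ 2) * (1 + ∑ j, z.2 j ^ 2), Oᵀ *ᵥ z.1) with hT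
  have himg : T '' Sol r s W = RS l (Oᵀ *ᵥ r) (Oᵀ *ᵥ (W *ᵥ s)) (s ⬝ᵥ s) := by
    ext ⟨A, μ, ξ⟩
    constructor
    · rintro ⟨⟨x, y⟩, hz, h3⟩
      rw [← h3]
      exact Sol_to_RS h1 h2 hM hz (hA _ hz)
    · intro h
      obtain ⟨z, hz, h3, h4, h5⟩ := RS_to_Sol h1 h2 hM h
      refine ⟨z, hz, ?_⟩
      rw [hT]
      simp only [h4, h5]
      rw [h3]
  rw [← himg, Set.InjOn.ncard_image]
  rintro ⟨x, y⟩ hz ⟨x', y'⟩ hz' heq
  simp only [hT, Prod.mk.injEq] at heq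
  obtain ⟨-, -, h5⟩ := heq
  have hxx : x = x' := by
    have h6 := congrArg (fun u => O *ᵥ u) h5
    simpa only [mulVec_mulVec, h2, one_mulVec] using h6
  subst hxx
  have hyy : y = y' := by
    ext j
    have h6 := hz.2 j
    have h7 := hz'.2 j
    simp only at h6 h7
    apply mul_left_cancel₀ (hA _ hz)
    simp only
    linear_combination h6 - h7
  rw [hyy]

end Pool.Agent.MP_b0e20b_ag
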