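import Mathlib

/-!
A real polynomial with as many sign changes as its degree has only real, simple roots.
-/

namespace Pool.Agent.MP_b0e20b_ag

open Polynomial

/-- Sign changes on pairwise disjoint open intervals give distinct real roots. -/
lemma exists_real_roots {J : Type*} (f : ℝ[X]) (a b : J → ℝ) (hab : ∀ j, a j < b j)
    (hf : ∀ j, f.eval (a j) * f.eval (b j) < 0)
    (hdis : ∀ i j, i ≠ j → Disjoint (Set.Ioo (a i) (b i)) (Set.Ioo (a j) (b j))) :
    ∃ ρ : J → ℝ, Function.Injective ρ ∧ (∀ j, ρ j ∈ Set.Ioo (a j) (b j)) ∧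
      ∀ j, f.eval (ρ j) = 0 := by
  have h : ∀ j, ∃ x ∈ Set.Ioo (a j) (b j), f.eval x = 0 := by
    intro j
    have hc : ContinuousOn (fun x => f.eval x) (Set.Icc (a j) (b j)) := f.continuous.continuousOn
    rcases lt_trichotomy (f.eval (a j)) 0 with h1 | h1 | h1
    · have h2 : 0 < f.eval (b j) := by
        by_contra h3
        push Not at h3
        nlinarith [hf j, mul_nonneg_of_nonpos_of_nonpos h1.le h3]
      obtain ⟨x, hx, hx0⟩ := intermediate_value_Ioo (hab j).le hc ⟨h1, h2⟩
      exact ⟨x, hx, hx0⟩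
    · have := hf j
      rw [h1, zero_mul] at this
      exact absurd this (lt_irrefl _)
    · have h2 : f.eval (b j) < 0 := by
        by_contra h3
        push Not at h3
        nlinarith [hf j, mul_nonneg h1.le h3]
      obtain ⟨x, hx, hx0⟩ := intermediate_value_Ioo' (hab j).le hc ⟨h2, h1⟩
      exact ⟨x, hx, hx0⟩
  choose ρ hρ hρ0 using h
  refine ⟨ρ, ?_, hρ, hρ0⟩
  intro i j hij
  by_contra hne
  have h1 := hρ i
  have h2 := hρ j
  rw [← hij] at h2
  exact Set.disjoint_left.1 (hdis i j hne) h1 h2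

/-- If moreover the number of intervals is at least the degree, then these are all the complex
roots. -/
lemma exists_all_roots {J : Type*} [Fintype J] (f : ℝ[X]) (hf0 : f ≠ 0)
    (hdeg : f.natDegree ≤ Fintype.card J) (a b : J → ℝ) (hab : ∀ j, a j < b j)
    (hf : ∀ j, f.eval (a j) * f.eval (b j) < 0)
    (hdis : ∀ i j, i ≠ j → Disjoint (Set.Ioo (a i) (b i)) (Set.Ioo (a j) (b j))) :
    ∃ ρ : J → ℝ, Function.Injective ρ ∧ (∀ j, ρ j ∈ Set.Ioo (a j) (b j)) ∧
      ∀ z : ℂ, (f.map (algebraMap ℝ ℂ)).eval z = 0 ↔ ∃ j, z = ρ j := by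
  classical
  obtain ⟨ρ, h1, h2, h3⟩ := exists_real_roots f a b hab hf hdis
  refine ⟨ρ, h1, h2, ?_⟩
  have hg0 : f.map (algebraMap ℝ ℂ) ≠ 0 := by
    rwa [Ne, Polynomial.map_eq_zero]
  have hroot : ∀ j, (f.map (algebraMap ℝ ℂ)).eval ((ρ j : ℝ) : ℂ) = 0 := by
    intro j
    have := Polynomial.eval_map_apply (algebraMap ℝ ℂ) (p := f) (ρ j)
    rw [h3 j, map_zero] at this
    exact this
  set T : Finset ℂ := Finset.univ.image (fun j => ((ρ j : ℝ) : ℂ)) with hT
  have hTcard : T.card = Fintype.card J := by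
    rw [hT, Finset.card_image_of_injective _ (fun i j hij => h1 (Complex.ofReal_injective hij)),
      Finset.card_univ]
  have hsub : T ⊆ (f.map (algebraMap ℝ ℂ)).roots.toFinset := by
    intro z hz
    rw [hT, Finset.mem_image] at hz
    obtain ⟨j, -, rfl⟩ := hz
    rw [Multiset.mem_toFinset, mem_roots hg0]
    exact hroot j
  have hle : (f.map (algebraMap ℝ ℂ)).roots.toFinset.card ≤ T.card := by
    calc _ ≤ (f.map (algebraMap ℝ ℂ)).roots.card := Multiset.toFinset_card_le _
      _ ≤ (f.map (algebraMap ℝ ℂ)).natDegree := card_roots' _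
      _ = f.natDegree := natDegree_map _
      _ ≤ Fintype.card J := hdeg
      _ = T.card := hTcard.symm
  have heq := Finset.eq_of_subset_of_card_le hsub hle
  intro z
  constructor
  · intro hz
    have : z ∈ (f.map (algebraMap ℝ ℂ)).roots.toFinset := by
      rw [Multiset.mem_toFinset, mem_roots hg0]
      exact hz
    rw [← heq, hT, Finset.mem_image] at this
    obtain ⟨j, -, hj⟩ := this
    exact ⟨j, hj.symm⟩
  · rintro ⟨j, rfl⟩
    exact hroot j

end Pool.Agent.MP_b0e20b_ag
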