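import Pool.Agent.Lib.MP_b0e20b_ag.Gen5
import Pool.Agent.Lib.MP_b0e20b_ag.Roots

/-!
An explicit datum satisfying the separability assumption.
-/

namespace Pool.Agent.MP_b0e20b_ag

open Finset Matrix Polynomial Filter Topology

set_option linter.unusedSectionVars false

section poly

variable {ι : Type*} [Fintype ι] [DecidableEq ι]

/-- real `D` -/
noncomputable def Dr (l : ι → ℝ) : ℝ[X] := ∏ i, (X - C (l i))
/-- real `E_i` -/
noncomputable def Er (l : ι → ℝ) (i : ι) : ℝ[X] := ∏ j ∈ univ.erase i, (X - C (l j))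
/-- the real elimination polynomial of the example -/
noncomputable def Psr (l : ι → ℝ) (t : ℝ) : ℝ[X] :=
  (Dr l ^ 2 - C (t ^ 2) * ∑ i, Er l i ^ 2) ^ 2 -
    (Dr l * (X + C (t ^ 2 * ∑ i, 1 / l i)) + C (t ^ 2) * ∑ i, Er l i) * Dr l ^ 3

/-- the rational function -/
noncomputable def fr (l : ι → ℝ) (t μ : ℝ) : ℝ :=
  (1 - t ^ 2 * ∑ i, 1 / (μ - l i) ^ 2) ^ 2 - (μ + t ^ 2 * ∑ i, 1 / l i + t ^ 2 * ∑ i, 1 / (μ - l i))

lemma eval_Dr (l : ι → ℝ) (μ : ℝ) : (Dr l).eval μ = ∏ i, (μ - l i) := by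
  unfold Dr
  rw [eval_prod]
  simp

lemma eval_Er {l : ι → ℝ} {μ : ℝ} (hμ : ∀ i, μ ≠ l i) (i : ι) :
    (Er l i).eval μ = (Dr l).eval μ * (1 / (μ - l i)) := by
  have := sub_ne_zero.2 (hμ i)
  unfold Er Dr
  rw [← Finset.mul_prod_erase univ (fun j => X - C (l j)) (mem_univ i), eval_mul]
  simp only [eval_sub, eval_X, eval_C]
  field_simp

lemma eval_Psr {l : ι → ℝ} {t μ : ℝ} (hμ : ∀ i, μ ≠ l i) :
    (Psr l t).eval μ = (Dr l).eval μ ^ 4 * fr l t μ := by
  unfold Psr fr
  simp only [eval_sub, eval_mul, eval_pow, eval_add, eval_X, eval_C, eval_finsetSum]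
  have h1 : ∑ i, (Er l i).eval μ = (Dr l).eval μ * ∑ i, 1 / (μ - l i) := by
    rw [Finset.mul_sum]
    exact Finset.sum_congr rfl (fun i _ => eval_Er hμ i)
  have h2 : ∑ i, (Er l i).eval μ ^ 2 = (Dr l).eval μ ^ 2 * ∑ i, 1 / (μ - l i) ^ 2 := by
    rw [Finset.mul_sum]
    apply Finset.sum_congr rfl
    intro i _
    rw [eval_Er hμ i, mul_pow, div_pow, one_pow]
  rw [h1, h2]
  ring

lemma gD_real (l : ι → ℝ) : gD (diagonal (fun i => (l i : ℂ))) = (Dr l).map (algebraMap ℝ ℂ) := by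
  rw [gD_diag, Dr, Polynomial.map_prod]
  simp

lemma EE_real (l : ι → ℝ) (i : ι) : EE (fun i => (l i : ℂ)) i = (Er l i).map (algebraMap ℝ ℂ) := by
  rw [EE, Er, Polynomial.map_prod]
  simp

/-- The elimination polynomial of the example. -/
lemma gPsi_real {l : ι → ℝ} (hl : Function.Injective l) (t : ℝ) :
    gPsi (diagonal (fun i => (l i : ℂ))) 0 (fun _ => Complex.I * t) (((-(t ^ 2 * ∑ i, 1 / l i) : ℝ)) : ℂ) =
      (Psr l t).map (algebraMap ℝ ℂ) := by
  have hl' : Function.Injective (fun i => (l i : ℂ)) := fun i j h => hl (Complex.ofReal_injective h)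
  have h1 := gPhi_eq hl' 0 (fun _ => Complex.I * t) (((-(t ^ 2 * ∑ i, 1 / l i) : ℝ)) : ℂ)
  have hP0 : ∀ b : ι → ℂ, gP2 (diagonal (fun i => (l i : ℂ))) 0 b = 0 := by
    intro b
    rw [gP2_diag]
    apply Finset.sum_eq_zero
    intro i _
    simp
  have hwr0 : wr (diagonal (fun i => (l i : ℂ))) 0 = 0 := by
    unfold wr
    simp
  have hb : ∀ i : ι, C ((Complex.I * (t : ℂ)) * (Complex.I * t)) = (C (-(t ^ 2)) : ℝ[X]).map (algebraMap ℝ ℂ) := by
    intro i
    rw [map_C]
    congr 1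
    push_cast
    linear_combination (t : ℂ) ^ 2 * Complex.I_mul_I
  have hH : gP2 (diagonal (fun i => (l i : ℂ))) (fun _ => Complex.I * t) (fun _ => Complex.I * t) =
      (-(C (t ^ 2) * ∑ i, Er l i)).map (algebraMap ℝ ℂ) := by
    rw [gP2_diag]
    simp only [EE_real]
    rw [← neg_mul, ← C_neg, Finset.mul_sum, Polynomial.map_sum]
    apply Finset.sum_congr rfl
    intro i _
    rw [Polynomial.map_mul, hb i]
  have hH2 : wr (diagonal (fun i => (l i : ℂ))) (gP2 (diagonal (fun i => (l i : ℂ))) (fun _ => Complex.I * t) (fun _ => Complex.I * t)) =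
      (-(C (t ^ 2) * ∑ i, Er l i ^ 2)).map (algebraMap ℝ ℂ) := by
    rw [wr_diag]
    simp only [EE_real]
    rw [← neg_mul, ← C_neg, Finset.mul_sum, Polynomial.map_sum]
    apply Finset.sum_congr rfl
    intro i _
    rw [Polynomial.map_mul, Polynomial.map_pow, hb i]
  have hD0 : gD (diagonal (fun i => (l i : ℂ))) ^ 2 ≠ 0 := ((gD_monic _).pow 2).ne_zero
  apply mul_left_cancel₀ hD0
  rw [← h1]
  unfold gPhi gB gV gL gZ
  rw [hP0, hP0, hwr0, hH2, hH, gD_real]
  unfold Psr
  simp only [Polynomial.map_sub, Polynomial.map_mul, Polynomial.map_pow, Polynomial.map_add,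
    Polynomial.map_neg, map_X, map_C]
  simp only [Complex.coe_algebraMap, Complex.ofReal_neg, map_neg]
  ring

lemma Dr_mul {l : ι → ℝ} (i : ι) {x y : ℝ} (h : ∀ j, j ≠ i → 0 < (x - l j) * (y - l j)) :
    ∃ p : ℝ, 0 < p ∧ (Dr l).eval x * (Dr l).eval y = ((x - l i) * (y - l i)) * p := by
  refine ⟨∏ j ∈ univ.erase i, (x - l j) * (y - l j), ?_, ?_⟩
  · apply Finset.prod_pos
    intro j hj
    exact h j (Finset.ne_of_mem_erase hj)
  · rw [eval_Dr, eval_Dr, ← Finset.prod_mul_distrib, Finset.mul_prod_erase univ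
      (fun j => (x - l j) * (y - l j)) (mem_univ i)]

end poly

/-- the nodes -/
noncomputable def lam (m : ℕ) (i : Fin m) : ℝ := ((i : ℕ) + 1 : ℝ) / ((m : ℝ) + 1)

lemma lam_pos (m : ℕ) (i : Fin m) : 0 < lam m i := by
  unfold lam
  positivity

lemma lam_lt (m : ℕ) (i : Fin m) : lam m i ≤ 1 - 1 / ((m : ℝ) + 1) := by
  unfold lam
  have h1 : (0 : ℝ) < (m : ℝ) + 1 := by positivity
  have h2 : ((i : ℕ) : ℝ) + 1 ≤ m := by exact_mod_cast i.2
  rw [le_sub_iff_add_le, ← add_div, div_le_one h1]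
  linarith

lemma lam_sep (m : ℕ) {i j : Fin m} (h : i ≠ j) : 1 / ((m : ℝ) + 1) ≤ |lam m i - lam m j| := by
  unfold lam
  have h1 : (0 : ℝ) < (m : ℝ) + 1 := by positivity
  rw [← sub_div, abs_div, abs_of_pos h1, div_le_div_iff_of_pos_right h1]
  have h2 : ((i : ℕ) : ℝ) + 1 - (((j : ℕ) : ℝ) + 1) = (((i : ℕ) : ℤ) - ((j : ℕ) : ℤ) : ℤ) := by
    push_cast
    ring
  rw [h2, ← Int.cast_abs]
  have h3 : (1 : ℤ) ≤ |((i : ℕ) : ℤ) - ((j : ℕ) : ℤ)| := by
    apply Int.one_le_abs
    intro h4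
    apply h
    ext
    omega
  exact_mod_cast h3

lemma lam_inj (m : ℕ) : Function.Injective (lam m) := by
  intro i j h
  by_contra hne
  have := lam_sep m hne
  rw [h, sub_self, abs_zero] at this
  have h1 : (0 : ℝ) < 1 / ((m : ℝ) + 1) := by positivity
  linarith

/-- Values near the nodes: limit as `t → 0`. -/
lemma fr_near (m : ℕ) (i : Fin m) {c : ℝ} (hc : c ≠ 0) :
    Tendsto (fun t : ℝ => fr (lam m) t (lam m i + t * c)) (𝓝[>] 0) (𝓝 ((1 - 1 / c ^ 2) ^ 2 - lam m i)) := by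
  set G : ℝ → ℝ := fun t => (1 - 1 / c ^ 2 - t ^ 2 * ∑ j ∈ univ.erase i, 1 / (lam m i + t * c - lam m j) ^ 2) ^ 2 -
    (lam m i + t * c + t ^ 2 * ∑ j, 1 / lam m j + (t / c + t ^ 2 * ∑ j ∈ univ.erase i, 1 / (lam m i + t * c - lam m j))) with hG
  have hcont : ContinuousAt G 0 := by
    have h1 : ContinuousAt (fun t : ℝ => ∑ j ∈ univ.erase i, 1 / (lam m i + t * c - lam m j) ^ 2) 0 := by
      apply tendsto_finsetSum
      intro j hj
      have hne : lam m i + 0 * c - lam m j ≠ 0 := by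
        rw [zero_mul, add_zero, sub_ne_zero]
        exact fun h => Finset.ne_of_mem_erase hj (lam_inj m h).symm
      exact (continuousAt_const.div (by fun_prop) (pow_ne_zero 2 hne))
    have h2 : ContinuousAt (fun t : ℝ => ∑ j ∈ univ.erase i, 1 / (lam m i + t * c - lam m j)) 0 := by
      apply tendsto_finsetSum
      intro j hj
      have hne : lam m i + 0 * c - lam m j ≠ 0 := by
        rw [zero_mul, add_zero, sub_ne_zero]
        exact fun h => Finset.ne_of_mem_erase hj (lam_inj m h).symm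
      exact (continuousAt_const.div (by fun_prop) hne)
    have h3 : ContinuousAt (fun t : ℝ => t ^ 2) 0 := by fun_prop
    have h4 : ContinuousAt (fun t : ℝ => lam m i + t * c + t ^ 2 * ∑ j, 1 / lam m j) 0 := by fun_prop
    have h5 : ContinuousAt (fun t : ℝ => t / c) 0 := by fun_prop
    exact ((continuousAt_const.sub (h3.mul h1)).pow 2).sub (h4.add (h5.add (h3.mul h2)))
  have h0 : G 0 = (1 - 1 / c ^ 2) ^ 2 - lam m i := by
    rw [hG]
    simp
  have hlim : Tendsto G (𝓝[>] 0) (𝓝 ((1 - 1 / c ^ 2) ^ 2 - lam m i)) := by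
    rw [← h0]
    exact hcont.tendsto.mono_left nhdsWithin_le_nhds
  apply hlim.congr'
  filter_upwards [self_mem_nhdsWithin] with t ht
  have ht0 : t ≠ 0 := (Set.mem_Ioi.1 ht).ne'
  unfold fr
  rw [hG]
  simp only
  rw [← Finset.add_sum_erase univ (fun j => 1 / (lam m i + t * c - lam m j) ^ 2) (mem_univ i),
    ← Finset.add_sum_erase univ (fun j => 1 / (lam m i + t * c - lam m j)) (mem_univ i)]
  have h1 : t ^ 2 * (1 / (lam m i + t * c - lam m i) ^ 2) = 1 / c ^ 2 := by
    rw [add_sub_cancel_left]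
    field_simp
  have h2 : t ^ 2 * (1 / (lam m i + t * c - lam m i)) = t / c := by
    rw [add_sub_cancel_left]
    field_simp
  rw [mul_add, mul_add, h1, h2]
  ring

/-- Values at a fixed point: limit as `t → 0`. -/
lemma fr_fixed (m : ℕ) (μ : ℝ) :
    Tendsto (fun t : ℝ => fr (lam m) t μ) (𝓝[>] 0) (𝓝 (1 - μ)) := by
  have hcont : ContinuousAt (fun t : ℝ => fr (lam m) t μ) 0 := by
    unfold fr
    fun_prop
  have h0 : fr (lam m) 0 μ = 1 - μ := by
    unfold fr
    simp
  rw [← h0]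
  exact hcont.tendsto.mono_left nhdsWithin_le_nhds

/-- the multipliers -/
noncomputable def cm (m : ℕ) : Fin 6 → ℝ := ![-(2 * ((m : ℝ) + 1)), -1, -1 / 2, 1 / 2, 1, 2 * ((m : ℝ) + 1)]

lemma cm_mono (m : ℕ) (k : Fin 5) : cm m k.castSucc < cm m k.succ := by
  have h : (0 : ℝ) ≤ m := Nat.cast_nonneg m
  fin_cases k <;> simp [cm] <;> linarith

lemma cm_strictMono (m : ℕ) : StrictMono (cm m) := Fin.strictMono_iff_lt_succ.2 (cm_mono m)

lemma cm_bound (m : ℕ) (k : Fin 6) : |cm m k| ≤ 2 * ((m : ℝ) + 1) := by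
  have h : (0 : ℝ) ≤ m := Nat.cast_nonneg m
  rw [abs_le]
  fin_cases k <;> simp [cm] <;> (try constructor) <;> linarith

lemma cm_ne (m : ℕ) (k : Fin 6) : cm m k ≠ 0 := by
  have h : (0 : ℝ) ≤ m := Nat.cast_nonneg m
  fin_cases k <;> simp [cm]
  · positivity
  · positivity

/-- the expected sign -/
def sg6 : Fin 6 → ℝ := ![1, -1, 1, 1, -1, 1]

lemma limit_sign (m : ℕ) (i : Fin m) (k : Fin 6) : 0 < sg6 k * ((1 - 1 / (cm m k) ^ 2) ^ 2 - lam m i) := by
  have h : (0 : ℝ) ≤ m := Nat.cast_nonneg m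
  have h1 := lam_pos m i
  have h2 := lam_lt m i
  have h3 : (0 : ℝ) < 1 / ((m : ℝ) + 1) := by positivity
  have h4 : 1 / ((m : ℝ) + 1) ≤ 1 := by
    rw [div_le_one (by positivity)]
    linarith
  have hbig : 0 < (1 - 1 / (2 * ((m : ℝ) + 1)) ^ 2) ^ 2 - lam m i := by
    have h5 : 1 / (2 * ((m : ℝ) + 1)) ^ 2 = (1 / ((m : ℝ) + 1)) ^ 2 / 4 := by
      field_simp
      norm_num
    rw [h5]
    set e := 1 / ((m : ℝ) + 1) with he
    have h6 : e ^ 2 ≤ e := by nlinarith
    nlinarith [sq_nonneg (e ^ 2)]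
  fin_cases k
  · simp only [sg6, cm, Fin.zero_eta, Matrix.cons_val_zero, one_mul, neg_sq]
    exact hbig
  · simp only [sg6, cm, Fin.mk_one, Matrix.cons_val_one, Matrix.cons_val_zero]
    norm_num
    exact h1
  · simp [sg6, cm]
    norm_num
    linarith
  · simp [sg6, cm]
    norm_num
    linarith
  · simp [sg6, cm]
    exact h1
  · have h7 : cm m 5 = 2 * ((m : ℝ) + 1) := by simp [cm]
    have h8 : sg6 5 = 1 := by simp [sg6]
    show 0 < sg6 5 * ((1 - 1 / (cm m 5) ^ 2) ^ 2 - lam m i)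
    rw [h7, h8, one_mul]
    exact hbig

/-- A suitable small parameter. -/
lemma exists_t (m : ℕ) : ∃ t : ℝ, 0 < t ∧ t * (2 * ((m : ℝ) + 1)) < 1 / (2 * ((m : ℝ) + 1)) ∧
    (∀ (i : Fin m) (k : Fin 6), 0 < sg6 k * fr (lam m) t (lam m i + t * cm m k)) ∧
    0 < fr (lam m) t (1 - 1 / (2 * ((m : ℝ) + 1))) ∧ fr (lam m) t 3 < 0 := by
  have h1 : ∀ᶠ t : ℝ in 𝓝[>] 0, ∀ p : Fin m × Fin 6, 0 < sg6 p.2 * fr (lam m) t (lam m p.1 + t * cm m p.2) := by
    rw [Filter.eventually_all]
    rintro ⟨i, k⟩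
    have h2 := (fr_near m i (cm_ne m k)).const_mul (sg6 k)
    exact h2.eventually_const_lt (limit_sign m i k)
  have h2 : ∀ᶠ t : ℝ in 𝓝[>] 0, 0 < fr (lam m) t (1 - 1 / (2 * ((m : ℝ) + 1))) := by
    apply (fr_fixed m _).eventually_const_lt
    have : (0 : ℝ) < 1 / (2 * ((m : ℝ) + 1)) := by positivity
    linarith
  have h3 : ∀ᶠ t : ℝ in 𝓝[>] 0, fr (lam m) t 3 < 0 := by
    apply (fr_fixed m _).eventually_lt_const
    norm_num
  have h4 : ∀ᶠ t : ℝ in 𝓝[>] 0, t * (2 * ((m : ℝ) + 1)) < 1 / (2 * ((m : ℝ) + 1)) := by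
    have h5 : Tendsto (fun t : ℝ => t * (2 * ((m : ℝ) + 1))) (𝓝[>] 0) (𝓝 (0 * (2 * ((m : ℝ) + 1)))) :=
      (tendsto_id.mono_left nhdsWithin_le_nhds).mul_const _
    apply h5.eventually_lt_const
    rw [zero_mul]
    positivity
  have h5 : ∀ᶠ t : ℝ in 𝓝[>] 0, 0 < t := self_mem_nhdsWithin
  obtain ⟨t, h6, h7, h8, h9, h10⟩ := (h1.and (h2.and (h3.and (h4.and h5)))).exists
  exact ⟨t, h10, h9, fun i k => h6 (i, k), h7, h8⟩

lemma separable_of_roots {J : Type*} [Fintype J] {f : ℂ[X]} (hf0 : f ≠ 0) (hdeg : f.natDegree = Fintype.card J)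
    (ρ : J → ℂ) (hρ : Function.Injective ρ) (h : ∀ j, f.eval (ρ j) = 0) : f.Separable := by
  classical
  have hsplit : f.Splits := IsAlgClosed.splits f
  have h1 : f.roots.card = Fintype.card J := by rw [← hdeg]; exact hsplit.natDegree_eq_card_roots.symm
  have h2 : univ.image ρ ⊆ f.roots.toFinset := by
    intro z hz
    obtain ⟨j, -, rfl⟩ := Finset.mem_image.1 hz
    rw [Multiset.mem_toFinset, mem_roots hf0]
    exact h j
  have h3 := Finset.card_le_card h2
  rw [Finset.card_image_of_injective _ hρ, card_univ] at h3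
  have h4 : f.roots.toFinset.card = f.roots.card :=
    le_antisymm (Multiset.toFinset_card_le _) (by rw [h1]; exact h3)
  have h5 := Multiset.toFinset_card_eq_card_iff_nodup.1 h4
  exact (nodup_roots_iff_of_splits hf0 hsplit).1 h5

/-- The example is separable. -/
theorem example_sep (m : ℕ) : ∃ t : ℝ, (gD (diagonal (fun i => (lam m i : ℂ))) *
    gPsi (diagonal (fun i => (lam m i : ℂ))) 0 (fun _ => Complex.I * t)
      (((-(t ^ 2 * ∑ i, 1 / lam m i) : ℝ)) : ℂ)).Separable := by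
  obtain ⟨t, ht, htC, hsign, hmid, hend⟩ := exists_t m
  refine ⟨t, ?_⟩
  have hm0 : (0 : ℝ) ≤ m := Nat.cast_nonneg m
  have hnpos : (0 : ℝ) < (m : ℝ) + 1 := by positivity
  have hhalf : 2 * (1 / (2 * ((m : ℝ) + 1))) = 1 / ((m : ℝ) + 1) := by field_simp
  -- the displacement is small
  have hsmall : ∀ k : Fin 6, |t * cm m k| < 1 / (2 * ((m : ℝ) + 1)) := by
    intro k
    rw [abs_mul, abs_of_pos ht]
    exact lt_of_le_of_lt (mul_le_mul_of_nonneg_left (cm_bound m k) ht.le) htC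
  -- points near a node avoid all nodes
  have hne : ∀ (i : Fin m) (k : Fin 6) (j : Fin m), lam m i + t * cm m k ≠ lam m j := by
    intro i k j h
    by_cases hij : i = j
    · subst hij
      have : t * cm m k = 0 := by linarith
      exact (mul_ne_zero ht.ne' (cm_ne m k)) this
    · have h1 := lam_sep m hij
      have h2 := hsmall k
      have h3 : lam m i - lam m j = -(t * cm m k) := by linarith
      rw [h3, abs_neg] at h1
      have : (0 : ℝ) < 1 / (2 * ((m : ℝ) + 1)) := by positivity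
      linarith
  have hmidne : ∀ (j : Fin m), (1 - 1 / (2 * ((m : ℝ) + 1))) - lam m j > 0 := by
    intro j
    have := lam_lt m j
    have : (0 : ℝ) < 1 / (2 * ((m : ℝ) + 1)) := by positivity
    linarith
  have hendne : ∀ (j : Fin m), (3 : ℝ) - lam m j > 0 := by
    intro j
    have := lam_lt m j
    have : (0 : ℝ) < 1 / ((m : ℝ) + 1) := by positivity
    linarith
  set f : ℝ[X] := Dr (lam m) * Psr (lam m) t with hf
  have hfmap : f.map (algebraMap ℝ ℂ) = gD (diagonal (fun i => (lam m i : ℂ))) *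
    gPsi (diagonal (fun i => (lam m i : ℂ))) 0 (fun _ => Complex.I * t)
      (((-(t ^ 2 * ∑ i, 1 / lam m i) : ℝ)) : ℂ) := by
    rw [gPsi_real (lam_inj m), gD_real, hf, Polynomial.map_mul]
  have hval : ∀ {μ ν : ℝ}, (∀ i, μ ≠ lam m i) → (∀ i, ν ≠ lam m i) →
      ((Dr (lam m)).eval μ * (Dr (lam m)).eval ν) * (fr (lam m) t μ * fr (lam m) t ν) < 0 →
      f.eval μ * f.eval ν < 0 := by
    intro μ ν h1 h2 h3
    rw [hf, eval_mul, eval_mul, eval_Psr h1, eval_Psr h2]
    have h4 : (Dr (lam m)).eval μ ≠ 0 := by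
      rw [eval_Dr, Finset.prod_ne_zero_iff]
      exact fun i _ => sub_ne_zero.2 (h1 i)
    have h5 : (Dr (lam m)).eval ν ≠ 0 := by
      rw [eval_Dr, Finset.prod_ne_zero_iff]
      exact fun i _ => sub_ne_zero.2 (h2 i)
    have h6 : 0 < (Dr (lam m)).eval μ ^ 4 * (Dr (lam m)).eval ν ^ 4 := by positivity
    have h7 := mul_neg_of_pos_of_neg h6 h3
    linarith
  set a : (Fin m × Fin 5) ⊕ Unit → ℝ := Sum.elim (fun p => lam m p.1 + t * cm m p.2.castSucc)
    (fun _ => 1 - 1 / (2 * ((m : ℝ) + 1))) with ha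
  set b : (Fin m × Fin 5) ⊕ Unit → ℝ := Sum.elim (fun p => lam m p.1 + t * cm m p.2.succ)
    (fun _ => 3) with hb
  obtain ⟨ρ, hρinj, -, hρ⟩ := exists_real_roots f a b (by
    rintro (⟨i, k⟩ | u)
    · simp only [ha, hb, Sum.elim_inl]
      have := mul_lt_mul_of_pos_left (cm_mono m k) ht
      linarith
    · simp only [ha, hb, Sum.elim_inr]
      have : (0 : ℝ) < 1 / (2 * ((m : ℝ) + 1)) := by positivity
      linarith) (by
    rintro (⟨i, k⟩ | u)
    · simp only [ha, hb, Sum.elim_inl]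
      apply hval (hne i _) (hne i _)
      obtain ⟨p, hp, hDD⟩ := Dr_mul (l := lam m) i (x := lam m i + t * cm m k.castSucc)
        (y := lam m i + t * cm m k.succ) (by
          intro j hj
          have h1 := lam_sep m hj
          have h2 := abs_lt.1 (hsmall k.castSucc)
          have h3 := abs_lt.1 (hsmall k.succ)
          rcases le_abs'.1 h1 with h4 | h4
          · apply mul_pos <;> linarith
          · apply mul_pos_of_neg_of_neg <;> linarith)
      rw [hDD, add_sub_cancel_left, add_sub_cancel_left]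
      have hs1 := hsign i k.castSucc
      have hs2 := hsign i k.succ
      have h4 : 0 < (sg6 k.castSucc * fr (lam m) t (lam m i + t * cm m k.castSucc)) *
        (sg6 k.succ * fr (lam m) t (lam m i + t * cm m k.succ)) := mul_pos hs1 hs2
      have h5 : (cm m k.castSucc * cm m k.succ) * (sg6 k.castSucc * sg6 k.succ) < 0 := by
        fin_cases k <;> simp [cm, sg6] <;> linarith
      set F1 := fr (lam m) t (lam m i + t * cm m k.castSucc) with hF1
      set F2 := fr (lam m) t (lam m i + t * cm m k.succ) with hF2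
      have h6 : sg6 k.castSucc * sg6 k.castSucc = 1 := by fin_cases k <;> simp [sg6]
      have h7 : sg6 k.succ * sg6 k.succ = 1 := by fin_cases k <;> simp [sg6]
      have h8 : 0 < t * t * p := by positivity
      have h9 := mul_neg_of_pos_of_neg (mul_pos h8 h4) h5
      calc t * cm m k.castSucc * (t * cm m k.succ) * p * (F1 * F2) =
          (t * cm m k.castSucc * (t * cm m k.succ) * p * (F1 * F2)) * (sg6 k.castSucc * sg6 k.castSucc) *
            (sg6 k.succ * sg6 k.succ) := by rw [h6, h7, mul_one, mul_one]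
        _ = t * t * p * (sg6 k.castSucc * F1 * (sg6 k.succ * F2)) *
            (cm m k.castSucc * cm m k.succ * (sg6 k.castSucc * sg6 k.succ)) := by ring
        _ < 0 := h9
    · simp only [ha, hb, Sum.elim_inr]
      apply hval
      · intro i h
        have := hmidne i
        linarith
      · intro i h
        have := hendne i
        linarith
      · apply mul_neg_of_pos_of_neg
        · rw [eval_Dr, eval_Dr, ← Finset.prod_mul_distrib]
          exact Finset.prod_pos (fun i _ => mul_pos (hmidne i) (hendne i))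
        · exact mul_neg_of_pos_of_neg hmid hend) (by
    -- disjointness
    rintro (⟨i, k⟩ | u) (⟨j, k'⟩ | u') hij
    · rw [Set.disjoint_left]
      simp only [ha, hb, Sum.elim_inl]
      rintro x ⟨hx1, hx2⟩ ⟨hx3, hx4⟩
      by_cases h : i = j
      · subst h
        have hk : k ≠ k' := by
          rintro rfl
          exact hij rfl
        rcases lt_or_gt_of_ne hk with h | h
        · have h1 : cm m k.succ ≤ cm m k'.castSucc := by
            apply (cm_strictMono m).monotone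
            rw [Fin.le_def, Fin.val_succ, Fin.val_castSucc]
            exact h
          have := mul_le_mul_of_nonneg_left h1 ht.le
          linarith
        · have h1 : cm m k'.succ ≤ cm m k.castSucc := by
            apply (cm_strictMono m).monotone
            rw [Fin.le_def, Fin.val_succ, Fin.val_castSucc]
            exact h
          have := mul_le_mul_of_nonneg_left h1 ht.le
          linarith
      · have h1 := lam_sep m h
        have h2 := abs_lt.1 (hsmall k.castSucc)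
        have h3 := abs_lt.1 (hsmall k.succ)
        have h4 := abs_lt.1 (hsmall k'.castSucc)
        have h5 := abs_lt.1 (hsmall k'.succ)
        rcases le_abs'.1 h1 with h6 | h6 <;> linarith
    · rw [Set.disjoint_left]
      simp only [ha, hb, Sum.elim_inl, Sum.elim_inr]
      rintro x ⟨hx1, hx2⟩ ⟨hx3, hx4⟩
      have h1 := lam_lt m i
      have h3 := abs_lt.1 (hsmall k.succ)
      linarith
    · rw [Set.disjoint_left]
      simp only [ha, hb, Sum.elim_inl, Sum.elim_inr]
      rintro x ⟨hx1, hx2⟩ ⟨hx3, hx4⟩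
      have h1 := lam_lt m j
      have h3 := abs_lt.1 (hsmall k'.succ)
      linarith
    · exact absurd (by cases u; cases u'; rfl) hij)
  have hl' : Function.Injective (fun i => (lam m i : ℂ)) := fun i j h => lam_inj m (Complex.ofReal_injective h)
  rw [← hfmap]
  have hmonic := neg_gPhi_monic (diagonal (fun i => (lam m i : ℂ))) 0 (fun _ => Complex.I * t)
      (((-(t ^ 2 * ∑ i, 1 / lam m i) : ℝ)) : ℂ)
  have hPsi : (gPsi (diagonal (fun i => (lam m i : ℂ))) 0 (fun _ => Complex.I * t)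
      (((-(t ^ 2 * ∑ i, 1 / lam m i) : ℝ)) : ℂ)).natDegree = 4 * m + 1 := by
    have h3 := hmonic.2
    rw [natDegree_neg] at h3
    unfold gPsi
    rw [natDegree_divByMonic _ ((gD_monic _).pow 2), h3, (gD_monic _).natDegree_pow, natDegree_gD, Fintype.card_fin]
    omega
  have hPsi0 : gPsi (diagonal (fun i => (lam m i : ℂ))) 0 (fun _ => Complex.I * t)
      (((-(t ^ 2 * ∑ i, 1 / lam m i) : ℝ)) : ℂ) ≠ 0 := by
    intro h
    rw [h, natDegree_zero] at hPsi
    omega
  have hD0 : gD (diagonal (fun i => (lam m i : ℂ))) ≠ 0 := (gD_monic _).ne_zero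
  apply separable_of_roots (J := (Fin m × Fin 5) ⊕ Unit) (ρ := fun j => ((ρ j : ℝ) : ℂ))
  · rw [hfmap]
    exact mul_ne_zero hD0 hPsi0
  · rw [hfmap, natDegree_mul hD0 hPsi0, natDegree_gD, hPsi]
    simp
    ring
  · exact fun i j h => hρinj (Complex.ofReal_injective h)
  · intro j
    have h3 := Polynomial.eval_map_apply (algebraMap ℝ ℂ) (p := f) (ρ j)
    rw [hρ j, map_zero] at h3
    exact h3

end Pool.Agent.MP_b0e20b_ag
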