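import Pool.Agent.Lib.MP_b0e20b_ag.Polys

/-!
Explicit parameters with prescribed numbers of real solutions.
-/

namespace Pool.Agent.MP_b0e20b_ag

open Finset Polynomial

set_option linter.unusedSectionVars false

/-- The singular values: `c` large well separated ones, the others below one. -/
noncomputable def sg (L : ℝ) (c : ℕ) (i : ℕ) : ℝ := if i < c then L ^ (i + 1) else 1 / ((i : ℝ) + 2)

/-- The linear part. -/
noncomputable def rr (L : ℝ) (u : ℕ) (i : ℕ) : ℝ := if i < u then 10 * √(L ^ (i + 1)) else 0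

section

variable {L : ℝ} {u v m : ℕ}

lemma sg_pos (hL : 1600 ≤ L) (c i : ℕ) : 0 < sg L c i := by
  unfold sg
  split_ifs <;> positivity

lemma sg_of_lt {c i : ℕ} (h : i < c) : sg L c i = L ^ (i + 1) := by
  unfold sg
  rw [if_pos h]

lemma sg_of_ge {c i : ℕ} (h : c ≤ i) : sg L c i = 1 / ((i : ℝ) + 2) := by
  unfold sg
  rw [if_neg (by omega)]

lemma sg_small {c i : ℕ} (h : c ≤ i) : sg L c i < 1 := by
  rw [sg_of_ge h, div_lt_one (by positivity)]
  have : (0 : ℝ) ≤ i := Nat.cast_nonneg i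
  linarith

lemma le_pow_L (hL : 1600 ≤ L) (i : ℕ) : L ≤ L ^ (i + 1) := by
  have : (1 : ℝ) ≤ L := by linarith
  calc L = L ^ 1 := (pow_one L).symm
    _ ≤ L ^ (i + 1) := pow_le_pow_right₀ this (by omega)

lemma pow_sep (hL : 1600 ≤ L) {i j : ℕ} (h : i < j) : 1600 * L ^ (i + 1) ≤ L ^ (j + 1) := by
  have h1 : (1 : ℝ) ≤ L := by linarith
  calc 1600 * L ^ (i + 1) ≤ L * L ^ (i + 1) := by
        apply mul_le_mul_of_nonneg_right hL (by positivity)
    _ = L ^ (i + 2) := by ring
    _ ≤ L ^ (j + 1) := pow_le_pow_right₀ h1 (by omega)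

lemma sg_inj (hL : 1600 ≤ L) (c : ℕ) : Function.Injective (sg L c) := by
  intro i j hij
  rcases lt_or_ge i c with hi | hi <;> rcases lt_or_ge j c with hj | hj
  · rw [sg_of_lt hi, sg_of_lt hj] at hij
    by_contra hne
    rcases lt_or_gt_of_ne hne with h | h
    · have := pow_sep hL h
      have h2 : 0 < L ^ (i + 1) := by positivity
      linarith
    · have := pow_sep hL h
      have h2 : 0 < L ^ (j + 1) := by positivity
      linarith
  · have h1 := sg_small (L := L) hj
    rw [← hij, sg_of_lt hi] at h1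
    have := le_pow_L hL i
    linarith
  · have h1 := sg_small (L := L) hi
    rw [hij, sg_of_lt hj] at h1
    have := le_pow_L hL j
    linarith
  · rw [sg_of_ge hi, sg_of_ge hj] at hij
    have h1 : ((i : ℝ) + 2) = (j : ℝ) + 2 := by
      have := congrArg (fun x => 1 / x) hij
      simpa using this
    have h2 : (i : ℝ) = j := by linarith
    exact_mod_cast h2

lemma rr_eq_zero (hL : 1600 ≤ L) {i : ℕ} : rr L u i = 0 ↔ u ≤ i := by
  unfold rr
  split_ifs with h
  · constructor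
    · intro h1
      have : 0 < 10 * √(L ^ (i + 1)) := by positivity
      linarith
    · intro h1
      omega
  · simp only [true_iff]
    omega

lemma rr_sq (hL : 1600 ≤ L) {i : ℕ} (h : i < u) : rr L u i ^ 2 = 100 * L ^ (i + 1) := by
  unfold rr
  rw [if_pos h, mul_pow, Real.sq_sqrt (by positivity)]
  norm_num

end

/-- The index set of the nonzero linear coefficients. -/
def SS (m u : ℕ) : Finset (Fin m) := univ.filter (fun i => (i : ℕ) < u)

lemma card_SS {m u : ℕ} (h : u ≤ m) : (SS m u).card = u := by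
  have h1 : SS m u = (univ : Finset (Fin u)).map (Fin.castLEEmb h) := by
    ext i
    simp only [SS, mem_filter, mem_univ, true_and, mem_map, Fin.castLEEmb_apply]
    constructor
    · intro hi
      exact ⟨⟨i, hi⟩, by ext; simp⟩
    · rintro ⟨j, rfl⟩
      simp
  rw [h1, card_map, card_univ, Fintype.card_fin]

lemma mem_SS {m u : ℕ} {i : Fin m} : i ∈ SS m u ↔ (i : ℕ) < u := by simp [SS]

/-- Sums of functions vanishing off the index set. -/
lemma sum_SS {m u : ℕ} {K : Type*} [AddCommMonoid K] {F : Fin m → K} (h : ∀ i : Fin m, u ≤ (i : ℕ) → F i = 0) :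
    ∑ i, F i = ∑ i ∈ SS m u, F i := by
  symm
  apply Finset.sum_subset (Finset.subset_univ _)
  intro i _ hi
  apply h
  rw [mem_SS] at hi
  omega

lemma sum_SS_le {m u : ℕ} (hu : u ≤ m) {L : ℝ} (hL : 1600 * ((u : ℝ) + 1) ≤ L) {F : Fin m → ℝ} {C : ℝ}
    (hC : 0 ≤ C) (h : ∀ i ∈ SS m u, F i ≤ C / L) : ∑ i ∈ SS m u, F i ≤ C / 1600 := by
  have h1 := Finset.sum_le_card_nsmul _ _ _ h
  rw [card_SS hu, nsmul_eq_mul] at h1
  apply h1.trans
  have hu0 : (0 : ℝ) ≤ u := Nat.cast_nonneg u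
  have hLpos : 0 < L := by nlinarith
  rw [← mul_div_assoc, div_le_div_iff₀ hLpos (by norm_num)]
  nlinarith

section

variable {L : ℝ} {u v m : ℕ}

/-- bound for `sf` when the point is far from all `σ`. -/
lemma sf_le (hu : u ≤ m) (hL : 1600 * ((u : ℝ) + 1) ≤ L) (hL' : 1600 ≤ L) {c : ℕ} (huc : u ≤ c) {ν : ℝ}
    (hν : ∀ i < u, L ^ (i + 1) / 2 ≤ |ν - L ^ (i + 1)|) :
    sf (fun i : Fin m => sg L c i) (fun i : Fin m => rr L u i) ν ≤ 1 / 4 := by
  unfold sf
  rw [sum_SS (u := u) (by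
    intro i hi
    show rr L u i ^ 2 / (ν - sg L c i) ^ 2 = 0
    rw [(rr_eq_zero hL').2 hi]
    simp)]
  have h1 : ∀ i ∈ SS m u, rr L u i ^ 2 / (ν - sg L c i) ^ 2 ≤ 400 / L := by
    intro i hi
    rw [mem_SS] at hi
    rw [rr_sq hL' hi, sg_of_lt (by omega : (i : ℕ) < c)]
    have h2 := hν i hi
    have h3 := le_pow_L hL' (i : ℕ)
    set s := L ^ ((i : ℕ) + 1) with hs
    have hspos : 0 < s := by linarith
    have h4 : s ^ 2 / 4 ≤ (ν - s) ^ 2 := by
      rw [← sq_abs (ν - s)]
      nlinarith [abs_nonneg (ν - s)]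
    have h5 : 0 < (ν - s) ^ 2 := lt_of_lt_of_le (by positivity) h4
    rw [div_le_div_iff₀ h5 (by linarith)]
    nlinarith [mul_le_mul_of_nonneg_left h3 hspos.le]
  have := sum_SS_le hu hL (by norm_num : (0 : ℝ) ≤ 400) h1
  linarith

lemma sf_nonneg {ι : Type*} [Fintype ι] (σ r : ι → ℝ) (ν : ℝ) : 0 ≤ sf σ r ν :=
  Finset.sum_nonneg (fun j _ => by positivity)

/-- The polynomial of degree `2u+1`. -/
noncomputable def fP (L : ℝ) (m u c : ℕ) : ℝ[X] :=
  mixPoly (SS m u) (X - 1) (fun i => (X - C (sg L c i)) ^ 2) (fun i => rr L u i ^ 2)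

lemma natDegree_fP (hu : u ≤ m) (c : ℕ) : (fP L m u c).natDegree ≤ 2 * u + 1 := by
  have h := natDegree_mixPoly (SS m u) (X - 1 : ℝ[X]) (fun i => (X - C (sg L c i)) ^ 2)
    (fun i => rr L u i ^ 2) 2 1 (by
      have := natDegree_X_sub_C (1 : ℝ)
      rw [map_one] at this
      exact this.le) (by
      intro i _
      apply (natDegree_pow_le).trans
      rw [natDegree_X_sub_C])
  rw [card_SS hu] at h
  unfold fP
  omega

lemma aeval_fP {K : Type*} [Field K] [Algebra ℝ K] (hL : 1600 ≤ L) (c : ℕ) {z : K}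
    (hz : ∀ i : Fin m, (i : ℕ) < u → z ≠ algebraMap ℝ K (sg L c i)) :
    aeval z (fP L m u c) = (∏ i ∈ SS m u, (z - algebraMap ℝ K (sg L c i)) ^ 2) *
      (z - 1 - sf (fun i : Fin m => algebraMap ℝ K (sg L c i)) (fun i : Fin m => algebraMap ℝ K (rr L u i)) z) := by
  unfold fP
  rw [aeval_mixPoly]
  · simp only [map_pow, map_sub, aeval_X, aeval_C, map_one]
    congr 2
    unfold sf
    rw [sum_SS (u := u)]
    intro i hi
    show (algebraMap ℝ K (rr L u i)) ^ 2 / _ = 0
    rw [(rr_eq_zero hL).2 hi]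
    simp
  · intro i hi
    simp only [map_pow, map_sub, aeval_X, aeval_C]
    exact pow_ne_zero _ (sub_ne_zero.2 (hz i (mem_SS.1 hi)))

/-- sampling points -/
noncomputable def aN (L : ℝ) (n : ℕ) : ℝ :=
  if n = 0 then 0 else if n % 2 = 1 then L ^ ((n + 1) / 2) / 2 else L ^ (n / 2)

lemma aN_zero : aN L 0 = 0 := by simp [aN]

lemma aN_odd (j : ℕ) : aN L (2 * j + 1) = L ^ (j + 1) / 2 := by
  unfold aN
  rw [if_neg (by omega), if_pos (by omega)]
  congr 2
  omega

lemma aN_even (j : ℕ) : aN L (2 * j + 2) = L ^ (j + 1) := by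
  unfold aN
  rw [if_neg (by omega), if_neg (by omega)]
  congr 1
  omega

lemma aN_lt (hL : 1600 ≤ L) (n : ℕ) : aN L n < aN L (n + 1) := by
  have hLpos : 0 < L := by linarith
  rcases Nat.even_or_odd' n with ⟨k, rfl | rfl⟩
  · rcases Nat.eq_zero_or_pos k with rfl | hk
    · rw [mul_zero, aN_zero]
      have := aN_odd (L := L) 0
      norm_num at this
      rw [zero_add, this]
      linarith
    · obtain ⟨j, rfl⟩ : ∃ j, k = j + 1 := ⟨k - 1, by omega⟩
      have h1 := aN_even (L := L) j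
      have h2 := aN_odd (L := L) (j + 1)
      rw [show 2 * (j + 1) = 2 * j + 2 by ring] at h2 ⊢
      rw [h1, h2]
      have h3 := pow_sep hL (show j < j + 1 by omega)
      have h4 : 0 < L ^ (j + 1) := by positivity
      linarith
  · rw [aN_odd, show 2 * k + 1 + 1 = 2 * k + 2 by ring, aN_even]
    have : 0 < L ^ (k + 1) := by positivity
    linarith

lemma aN_strictMono (hL : 1600 ≤ L) : StrictMono (aN L) := strictMono_nat_of_lt_succ (aN_lt hL)

lemma half_far (hL : 1600 ≤ L) (j i : ℕ) : L ^ (i + 1) / 2 ≤ |L ^ (j + 1) / 2 - L ^ (i + 1)| := by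
  have hLpos : 0 < L := by linarith
  have h1 : 0 < L ^ (i + 1) := by positivity
  have h2 : 0 < L ^ (j + 1) := by positivity
  rcases lt_trichotomy i j with h | h | h
  · have := pow_sep hL h
    rw [abs_of_nonneg (by linarith)]
    linarith
  · subst h
    rw [abs_of_nonpos (by linarith)]
    linarith
  · have := pow_sep hL h
    rw [abs_of_nonpos (by linarith)]
    linarith

lemma fP_odd (hu : u ≤ m) (hL : 1600 * ((u : ℝ) + 1) ≤ L) (hL' : 1600 ≤ L) {c : ℕ} (huc : u ≤ c) (j : ℕ) :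
    0 < (fP L m u c).eval (aN L (2 * j + 1)) := by
  rw [aN_odd]
  set ν := L ^ (j + 1) / 2 with hν
  have hfar : ∀ i < u, L ^ (i + 1) / 2 ≤ |ν - L ^ (i + 1)| := fun i _ => half_far hL' j i
  have hLpos : 0 < L := by linarith
  have hne : ∀ i : Fin m, (i : ℕ) < u → ν - sg L c i ≠ 0 := by
    intro i hi h0
    have h1 := hfar i hi
    rw [sg_of_lt (by omega : (i : ℕ) < c)] at h0
    rw [h0, abs_zero] at h1
    have : 0 < L ^ ((i : ℕ) + 1) := by positivity
    linarith
  have h1 := aeval_fP (K := ℝ) (m := m) (u := u) hL' c (z := ν) (fun i hi h => hne i hi (by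
    simp only [Algebra.algebraMap_self, RingHom.id_apply] at h
    linarith))
  rw [Polynomial.coe_aeval_eq_eval] at h1
  rw [h1]
  apply mul_pos
  · apply Finset.prod_pos
    intro i hi
    have := hne i (mem_SS.1 hi)
    simp only [Algebra.algebraMap_self, RingHom.id_apply]
    positivity
  · simp only [Algebra.algebraMap_self, RingHom.id_apply]
    have h2 := sf_le (m := m) hu hL hL' huc hfar
    have h3 := le_pow_L hL' j
    linarith

lemma fP_zero (hL' : 1600 ≤ L) (c : ℕ) : (fP L m u c).eval 0 < 0 := by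
  have hne : ∀ i : ℕ, sg L c i ≠ 0 := fun i => (sg_pos hL' c i).ne'
  have h1 := aeval_fP (K := ℝ) (m := m) (u := u) hL' c (z := 0) (fun i hi h => hne i (by
    simp only [Algebra.algebraMap_self, RingHom.id_apply] at h
    exact h.symm))
  rw [Polynomial.coe_aeval_eq_eval] at h1
  rw [h1]
  apply mul_neg_of_pos_of_neg
  · apply Finset.prod_pos
    intro i hi
    have := hne i
    simp only [Algebra.algebraMap_self, RingHom.id_apply, zero_sub, neg_sq]
    positivity
  · simp only [Algebra.algebraMap_self, RingHom.id_apply]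
    have h2 := sf_nonneg (fun i : Fin m => sg L c i) (fun i : Fin m => rr L u i) 0
    linarith

lemma fP_even (hu : u ≤ m) (hL' : 1600 ≤ L) {c : ℕ} (huc : u ≤ c) {j : ℕ} (hj : j < u) :
    (fP L m u c).eval (aN L (2 * j + 2)) < 0 := by
  rw [aN_even]
  have hmem : (⟨j, by omega⟩ : Fin m) ∈ SS m u := mem_SS.2 hj
  unfold fP
  rw [eval_mixPoly_root (SS m u) _ _ _ _ hmem]
  · rw [neg_lt_zero]
    apply mul_pos
    · rw [rr_sq hL' hj]
      positivity
    · apply Finset.prod_pos
      intro i hi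
      rw [Finset.mem_erase, mem_SS] at hi
      have h1 : L ^ (j + 1) - sg L c i ≠ 0 := by
        rw [← sg_of_lt (L := L) (by omega : j < c), sub_ne_zero]
        intro h
        have := sg_inj hL' c h
        apply hi.1
        ext
        exact this.symm
      simp only [eval_pow, eval_sub, eval_X, eval_C]
      positivity
  · simp only [eval_pow, eval_sub, eval_X, eval_C]
    rw [sg_of_lt (by omega : j < c), sub_self]
    norm_num

lemma fP_sign (hu : u ≤ m) (hL : 1600 * ((u : ℝ) + 1) ≤ L) (hL' : 1600 ≤ L) {c : ℕ} (huc : u ≤ c) {n : ℕ}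
    (hn : n < 2 * u + 1) :
    (fP L m u c).eval (aN L n) * (fP L m u c).eval (aN L (n + 1)) < 0 := by
  rcases Nat.even_or_odd' n with ⟨k, rfl | rfl⟩
  · have h1 := fP_odd hu hL hL' huc k
    rcases Nat.eq_zero_or_pos k with rfl | hk
    · rw [mul_zero, aN_zero]
      exact mul_neg_of_neg_of_pos (fP_zero hL' c) h1
    · obtain ⟨j, rfl⟩ : ∃ j, k = j + 1 := ⟨k - 1, by omega⟩
      exact mul_neg_of_neg_of_pos (fP_even hu hL' huc (by omega)) h1
  · exact mul_neg_of_pos_of_neg (fP_odd hu hL hL' huc k) (fP_even hu hL' huc (by omega))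

lemma aeval_cast (f : ℝ[X]) (t : ℝ) : aeval (t : ℂ) f = ((f.eval t : ℝ) : ℂ) := by
  have h := Polynomial.aeval_algebraMap_apply ℂ t f
  rw [Polynomial.coe_aeval_eq_eval] at h
  exact h

/-- All roots of the first polynomial. -/
lemma exists_N (hu : u ≤ m) (hL : 1600 * ((u : ℝ) + 1) ≤ L) (hL' : 1600 ≤ L) {c : ℕ} (huc : u ≤ c) :
    ∃ N : Finset ℝ, N.card = 2 * u + 1 ∧
      (∀ ν : ℂ, (∀ j : Fin m, rr L u j ≠ 0 → ν ≠ sg L c j) →
        (ν - 1 = sf (fun j : Fin m => (sg L c j : ℂ)) (fun j : Fin m => (rr L u j : ℂ)) ν ↔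
          ∃ t ∈ N, ν = ((t : ℝ) : ℂ))) ∧
      (∀ t ∈ N, ∀ j : Fin m, rr L u j ≠ 0 → t ≠ sg L c j) := by
  obtain ⟨ρ, h1, h2, h3⟩ := exists_all_roots (J := Fin (2 * u + 1)) (fP L m u c) (by
    intro h
    have := fP_zero (m := m) (u := u) hL' c
    rw [h, eval_zero] at this
    exact lt_irrefl _ this) (by
    rw [Fintype.card_fin]
    exact natDegree_fP hu c) (fun n => aN L n) (fun n => aN L (n + 1)) (fun n => aN_lt hL' n)
    (fun n => fP_sign hu hL hL' huc n.2) (by
    intro i j hij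
    rw [Set.disjoint_left]
    rintro x ⟨hx1, hx2⟩ ⟨hx3, hx4⟩
    rcases lt_or_gt_of_ne (fun h => hij (Fin.ext h) : (i : ℕ) ≠ j) with h | h
    · have := (aN_strictMono hL').monotone (show (i : ℕ) + 1 ≤ j by omega)
      linarith
    · have := (aN_strictMono hL').monotone (show (j : ℕ) + 1 ≤ i by omega)
      linarith)
  have hval : ∀ t : ℝ, (∃ n, t = ρ n) ↔ (fP L m u c).eval t = 0 := by
    intro t
    have h4 := h3 (t : ℂ)
    rw [Polynomial.eval_map_algebraMap, aeval_cast] at h4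
    constructor
    · rintro ⟨n, hn⟩
      have := h4.2 ⟨n, by rw [hn]⟩
      exact_mod_cast this
    · intro h
      obtain ⟨n, hn⟩ := h4.1 (by exact_mod_cast h)
      exact ⟨n, by exact_mod_cast hn⟩
  refine ⟨univ.image ρ, ?_, ?_, ?_⟩
  · rw [Finset.card_image_of_injective _ h1, card_univ, Fintype.card_fin]
  · intro ν hν
    have h4 := h3 ν
    rw [Polynomial.eval_map_algebraMap, aeval_fP hL' c (fun i hi => hν i (by
      rw [Ne, rr_eq_zero hL']
      omega))] at h4
    have h5 : (∏ i ∈ SS m u, (ν - algebraMap ℝ ℂ (sg L c i)) ^ 2) ≠ 0 := by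
      rw [Finset.prod_ne_zero_iff]
      intro i hi
      apply pow_ne_zero
      rw [sub_ne_zero]
      apply hν i
      rw [Ne, rr_eq_zero hL']
      have := mem_SS.1 hi
      omega
    rw [mul_eq_zero, or_iff_right h5, sub_eq_zero] at h4
    rw [show (sf (fun j : Fin m => (sg L c j : ℂ)) (fun j : Fin m => (rr L u j : ℂ)) ν) =
      sf (fun i : Fin m => algebraMap ℝ ℂ (sg L c i)) (fun i : Fin m => algebraMap ℝ ℂ (rr L u i)) ν from rfl, h4]
    constructor
    · rintro ⟨n, hn⟩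
      exact ⟨ρ n, Finset.mem_image_of_mem _ (mem_univ n), hn⟩
    · rintro ⟨t, ht, htν⟩
      obtain ⟨n, -, rfl⟩ := Finset.mem_image.1 ht
      exact ⟨n, htν⟩
  · intro t ht j hj hts
    obtain ⟨n, -, rfl⟩ := Finset.mem_image.1 ht
    have h4 := (hval (ρ n)).1 ⟨n, rfl⟩
    rw [Ne, rr_eq_zero hL'] at hj
    push Not at hj
    have h5 := fP_even (m := m) hu hL' huc hj
    rw [aN_even, ← sg_of_lt (L := L) (by omega : (j : ℕ) < c), ← hts, h4] at h5
    exact lt_irrefl _ h5

end

end Pool.Agent.MP_b0e20b_ag
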