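import Pool.Agent.Lib.MP_b0e20b_ag.Count
import Pool.Agent.Lib.MP_b0e20b_ag.Roots

/-!
The two polynomials whose roots parametrise the solutions of the symmetric diagonal system.
-/

namespace Pool.Agent.MP_b0e20b_ag

open Finset Polynomial

set_option linter.unusedSectionVars false

variable {ι : Type*} [Fintype ι] [DecidableEq ι]

/-- `g · ∏ q_i - ∑ c_i ∏_{j ≠ i} q_j`. -/
noncomputable def mixPoly (S : Finset ι) (g : ℝ[X]) (q : ι → ℝ[X]) (c : ι → ℝ) : ℝ[X] :=
  g * ∏ i ∈ S, q i - ∑ i ∈ S, C (c i) * ∏ j ∈ S.erase i, q j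

lemma aeval_mixPoly {K : Type*} [Field K] [Algebra ℝ K] (S : Finset ι) (g : ℝ[X]) (q : ι → ℝ[X])
    (c : ι → ℝ) (z : K) (hz : ∀ i ∈ S, aeval z (q i) ≠ 0) :
    aeval z (mixPoly S g q c) = (∏ i ∈ S, aeval z (q i)) *
      (aeval z g - ∑ i ∈ S, algebraMap ℝ K (c i) / aeval z (q i)) := by
  unfold mixPoly
  rw [map_sub, map_mul, map_prod, map_sum, mul_sub, mul_comm (aeval z g), Finset.mul_sum]
  congr 1
  apply Finset.sum_congr rfl
  intro i hi
  rw [map_mul, map_prod, aeval_C, ← Finset.mul_prod_erase S _ hi]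
  have := hz i hi
  field_simp

/-- At a zero of `q j`. -/
lemma eval_mixPoly_root (S : Finset ι) (g : ℝ[X]) (q : ι → ℝ[X])
    (c : ι → ℝ) (z : ℝ) {j : ι} (hj : j ∈ S) (hz : eval z (q j) = 0) :
    eval z (mixPoly S g q c) = - (c j * ∏ i ∈ S.erase j, eval z (q i)) := by
  unfold mixPoly
  rw [eval_sub, eval_mul, eval_prod, Finset.prod_eq_zero hj hz, mul_zero, zero_sub, eval_finsetSum,
    Finset.sum_eq_single_of_mem j hj]
  · rw [eval_mul, eval_C, eval_prod]
  · intro i hi hij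
    rw [eval_mul, eval_prod, Finset.prod_eq_zero (Finset.mem_erase.2 ⟨hij.symm, hj⟩) hz, mul_zero]

lemma natDegree_mixPoly (S : Finset ι) (g : ℝ[X]) (q : ι → ℝ[X]) (c : ι → ℝ) (d e : ℕ)
    (hg : g.natDegree ≤ e) (hq : ∀ i ∈ S, (q i).natDegree ≤ d) :
    (mixPoly S g q c).natDegree ≤ S.card * d + e := by
  unfold mixPoly
  apply (natDegree_sub_le _ _).trans
  apply max_le
  · apply natDegree_mul_le.trans
    have h1 : (∏ i ∈ S, q i).natDegree ≤ S.card * d := by
      apply (natDegree_prod_le _ _).trans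
      apply (Finset.sum_le_card_nsmul _ _ d hq).trans
      simp
    omega
  · apply natDegree_sum_le_of_forall_le
    intro i hi
    apply (natDegree_C_mul_le _ _).trans
    apply (natDegree_prod_le _ _).trans
    apply (Finset.sum_le_card_nsmul _ _ d (fun j hj => hq j (Finset.mem_of_mem_erase hj))).trans
    rw [smul_eq_mul]
    have h1 : (S.erase i).card ≤ S.card := Finset.card_le_card (Finset.erase_subset _ _)
    nlinarith [Nat.mul_le_mul_right d h1]

end Pool.Agent.MP_b0e20b_ag
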