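import Mathlib

/-!
The symmetric diagonal system: classification of its complex solutions.
-/

namespace Pool.Agent.MP_b0e20b_ag

open Finset

set_option linter.unusedSectionVars false

variable {ι : Type*} [Fintype ι] [DecidableEq ι]

/-- Solutions of the symmetric diagonal system with data `σ`, `r`. -/
def DSol (σ r : ι → ℝ) : Set ((ι → ℂ) × (ι → ℂ)) :=
  {z | (∀ i, (1 + ∑ j, z.2 j ^ 2) * z.1 i - σ i * z.2 i = r i) ∧
       (∀ i, (1 + ∑ j, z.1 j ^ 2) * z.2 i - σ i * z.1 i = r i)}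

lemma DSol.swap {σ r : ι → ℝ} {z : (ι → ℂ) × (ι → ℂ)} (hz : z ∈ DSol σ r) :
    (z.2, z.1) ∈ DSol σ r := ⟨hz.2, hz.1⟩

lemma one_add_sum_sq_ne_zero (f : ι → ℝ) : (1 + ∑ j, ((f j : ℝ) : ℂ) ^ 2) ≠ 0 := by
  have h1 : (1 + ∑ j, ((f j : ℝ) : ℂ) ^ 2) = ((1 + ∑ j, f j ^ 2 : ℝ) : ℂ) := by push_cast; rfl
  rw [h1]
  have h2 : (0 : ℝ) < 1 + ∑ j, f j ^ 2 := by
    have : 0 ≤ ∑ j, f j ^ 2 := Finset.sum_nonneg (fun j _ => sq_nonneg _)
    linarith
  exact_mod_cast h2.ne'

lemma DSol.A_ne_zero {σ r : ι → ℝ} (hσ : ∀ i, 0 < σ i) {z : (ι → ℂ) × (ι → ℂ)}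
    (hz : z ∈ DSol σ r) : (1 + ∑ j, z.1 j ^ 2) ≠ 0 := by
  intro h0
  have h1 : ∀ i, z.1 i = ((-(r i / σ i) : ℝ) : ℂ) := by
    intro i
    have h2 := hz.2 i
    rw [h0, zero_mul, zero_sub] at h2
    have h3 : ((σ i : ℝ) : ℂ) ≠ 0 := by exact_mod_cast (hσ i).ne'
    push_cast
    field_simp
    linear_combination -h2
  apply one_add_sum_sq_ne_zero (fun i => -(r i / σ i))
  simpa only [h1] using h0

lemma DSol.B_ne_zero {σ r : ι → ℝ} (hσ : ∀ i, 0 < σ i) {z : (ι → ℂ) × (ι → ℂ)}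
    (hz : z ∈ DSol σ r) : (1 + ∑ j, z.2 j ^ 2) ≠ 0 := by
  have h := DSol.A_ne_zero (z := (z.2, z.1)) hσ (DSol.swap hz)
  exact h

/-- For an index with `r j ≠ 0` the product `AB` is not `σ j ^ 2`. -/
lemma DSol.AB_ne {σ r : ι → ℝ} (hσ : ∀ i, 0 < σ i) (hinj : Function.Injective σ)
    {z : (ι → ℂ) × (ι → ℂ)} (hz : z ∈ DSol σ r) {j : ι} (hj : r j ≠ 0) :
    (1 + ∑ j, z.1 j ^ 2) * (1 + ∑ j, z.2 j ^ 2) ≠ (σ j : ℂ) ^ 2 := by
  intro hAB
  obtain ⟨x, y⟩ := z
  have hx := hz.1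
  have hy := hz.2
  simp only at hx hy hAB
  set A : ℂ := 1 + ∑ j, x j ^ 2 with hA
  set B : ℂ := 1 + ∑ j, y j ^ 2 with hB
  have hσc : ∀ i, ((σ i : ℝ) : ℂ) ≠ 0 := fun i => by exact_mod_cast (hσ i).ne'
  have hrc : ((r j : ℝ) : ℂ) ≠ 0 := by exact_mod_cast hj
  have hAj : A = -(σ j : ℂ) := by
    have h1 : (r j : ℂ) * (A + σ j) = 0 := by
      linear_combination (-A) * (hx j) - (σ j : ℂ) * (hy j) + x j * hAB
    rcases mul_eq_zero.1 h1 with h | h
    · exact absurd h hrc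
    · linear_combination h
  have hBj : B = -(σ j : ℂ) := by
    have h1 : (r j : ℂ) * (B + σ j) = 0 := by
      linear_combination (-B) * (hy j) - (σ j : ℂ) * (hx j) + y j * hAB
    rcases mul_eq_zero.1 h1 with h | h
    · exact absurd h hrc
    · linear_combination h
  -- the other coordinates
  have hk : ∀ k, k ≠ j → x k = ((-(r k / (σ j + σ k)) : ℝ) : ℂ) ∧ y k = ((-(r k / (σ j + σ k)) : ℝ) : ℂ) := by
    intro k hkj
    have h1 := hx k
    have h2 := hy k
    rw [hBj] at h1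
    rw [hAj] at h2
    have hne : ((σ j : ℂ) - σ k) ≠ 0 := by
      rw [sub_ne_zero]
      intro h
      exact hkj (hinj (by exact_mod_cast h.symm))
    have hne2 : ((σ j : ℂ) + σ k) ≠ 0 := by
      have : (σ j + σ k : ℝ) ≠ 0 := by
        have := hσ j
        have := hσ k
        positivity
      exact_mod_cast this
    constructor
    · have h3 : ((σ j : ℂ) - σ k) * ((σ j + σ k) * x k + r k) = 0 := by
        linear_combination (-(σ j : ℂ)) * h1 + (σ k : ℂ) * h2
      have h4 := (mul_eq_zero.1 h3).resolve_left hne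
      push_cast
      rw [eq_neg_iff_add_eq_zero]
      field_simp
      linear_combination h4
    · have h3 : ((σ j : ℂ) - σ k) * ((σ j + σ k) * y k + r k) = 0 := by
        linear_combination (-(σ j : ℂ)) * h2 + (σ k : ℂ) * h1
      have h4 := (mul_eq_zero.1 h3).resolve_left hne
      push_cast
      rw [eq_neg_iff_add_eq_zero]
      field_simp
      linear_combination h4
  have hsum : x j ^ 2 = y j ^ 2 := by
    have h1 : A = 1 + (x j ^ 2 + ∑ k ∈ univ.erase j, x k ^ 2) := by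
      rw [hA, Finset.add_sum_erase _ (fun k => x k ^ 2) (mem_univ j)]
    have h2 : B = 1 + (y j ^ 2 + ∑ k ∈ univ.erase j, y k ^ 2) := by
      rw [hB, Finset.add_sum_erase _ (fun k => y k ^ 2) (mem_univ j)]
    have h3 : ∑ k ∈ univ.erase j, x k ^ 2 = ∑ k ∈ univ.erase j, y k ^ 2 := by
      apply Finset.sum_congr rfl
      intro k hk'
      have hne := (Finset.mem_erase.1 hk').1
      rw [(hk k hne).1, (hk k hne).2]
    rw [h3] at h1
    rw [hAj] at h1
    rw [hBj] at h2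
    linear_combination h2 - h1
  have hxy : -(σ j : ℂ) * (x j + y j) = r j := by
    have := hx j
    rw [hBj] at this
    linear_combination this
  have hne : x j + y j ≠ 0 := by
    intro h
    rw [h, mul_zero] at hxy
    exact hrc hxy.symm
  have heq : x j = y j := by
    have h1 : (x j + y j) * (x j - y j) = 0 := by linear_combination hsum
    rcases mul_eq_zero.1 h1 with h | h
    · exact absurd h hne
    · linear_combination h
  have hxj : x j = ((-(r j / (2 * σ j)) : ℝ) : ℂ) := by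
    rw [← heq] at hxy
    have := hσc j
    push_cast
    field_simp
    linear_combination -hxy
  set g : ι → ℝ := fun k => if k = j then -(r j / (2 * σ j)) else -(r k / (σ j + σ k)) with hg
  have hxg : ∀ k, x k = ((g k : ℝ) : ℂ) := by
    intro k
    by_cases h : k = j
    · subst h
      rw [hg]
      simp only [if_true]
      exact hxj
    · rw [hg]
      simp only [h, if_false]
      exact (hk k h).1
  have h1 : A = ((1 + ∑ k, g k ^ 2 : ℝ) : ℂ) := by
    rw [hA]
    push_cast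
    simp only [hxg]
  rw [hAj] at h1
  have h2 : -σ j = 1 + ∑ k, g k ^ 2 := by exact_mod_cast h1
  have h3 : 0 ≤ ∑ k, g k ^ 2 := Finset.sum_nonneg (fun j _ => sq_nonneg _)
  have := hσ j
  linarith

end Pool.Agent.MP_b0e20b_ag
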