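import Pool.Agent.Lib.MP_b0e20b_ag.Gen6
import Pool.Agent.Lib.MP_b0e20b_ag.Crit

/-!
The generic number of critical points: a polynomial condition.
-/

namespace Pool.Agent.MP_b0e20b_ag

open Finset Matrix Polynomial

set_option linter.unusedSectionVars false

/-- Separability detected by a resultant. -/
lemma separable_iff_resultant {f : ℂ[X]} {n : ℕ} (hn : f.natDegree = n + 1) :
    resultant f (derivative f) (n + 1) n ≠ 0 ↔ f.Separable := by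
  have h1 : (derivative f).natDegree = n := by
    rw [natDegree_derivative (R := ℂ), hn]
    simp
  have h2 : resultant f (derivative f) (n + 1) n = resultant f (derivative f) := by
    rw [← hn]
    conv_rhs => rw [h1]
  rw [h2, Ne, resultant_eq_zero_iff]
  have h3 : f ≠ 0 := by
    rintro rfl
    simp at hn
  constructor
  · intro h
    by_contra h4
    exact h ⟨Or.inl h3, h4⟩
  · rintro h ⟨-, h4⟩
    exact h4 h

lemma natDegree_E {ι : Type*} [Fintype ι] [DecidableEq ι] (M : Matrix ι ι ℂ) (r w : ι → ℂ) (ss : ℂ) :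
    (gD M * gPsi M r w ss).natDegree = 5 * Fintype.card ι + 1 := by
  have h3 := (neg_gPhi_monic M r w ss).2
  rw [natDegree_neg] at h3
  have h4 : (gPsi M r w ss).natDegree = 4 * Fintype.card ι + 1 := by
    unfold gPsi
    rw [natDegree_divByMonic _ ((gD_monic _).pow 2), h3, (gD_monic _).natDegree_pow, natDegree_gD]
    omega
  have h5 : gPsi M r w ss ≠ 0 := by
    intro h
    rw [h, natDegree_zero] at h4
    omega
  rw [natDegree_mul (gD_monic M).ne_zero h5, natDegree_gD, h4]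
  ring

section

variable {n₁ n₂ : ℕ}

/-- universal coordinates -/
noncomputable def Yu (Q₁ : Matrix (Fin (n₁ + 1)) (Fin (n₁ + 1)) ℂ) (Q₂ : Matrix (Fin (n₂ + 1)) (Fin (n₂ + 1)) ℂ)
    (c₁ c₂ : ℂ) : Matrix (Fin (n₁ + 1)) (Fin (n₂ + 1)) (MvPolynomial (Fin (n₁ + 1) × Fin (n₂ + 1)) ℂ) :=
  Matrix.of fun i j => MvPolynomial.C (c₁ * c₂)⁻¹ *
    ∑ l, (∑ k, MvPolynomial.C (Q₁ k i) * MvPolynomial.X (k, l)) * MvPolynomial.C (Q₂ l j)

lemma Yu_eval (Q₁ : Matrix (Fin (n₁ + 1)) (Fin (n₁ + 1)) ℂ) (Q₂ : Matrix (Fin (n₂ + 1)) (Fin (n₂ + 1)) ℂ)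
    (c₁ c₂ : ℂ) (T : Matrix (Fin (n₁ + 1)) (Fin (n₂ + 1)) ℂ) (i : Fin (n₁ + 1)) (j : Fin (n₂ + 1)) :
    MvPolynomial.eval (fun p => T p.1 p.2) (Yu Q₁ Q₂ c₁ c₂ i j) = YY Q₁ Q₂ c₁ c₂ T i j := by
  unfold Yu YY
  simp only [of_apply, map_mul, map_sum, MvPolynomial.eval_C, MvPolynomial.eval_X, Matrix.smul_apply,
    Matrix.mul_apply, transpose_apply, smul_eq_mul]

/-- The polynomial expressing genericity. -/
noncomputable def genPoly (Q₁ : Matrix (Fin (n₁ + 1)) (Fin (n₁ + 1)) ℂ) (Q₂ : Matrix (Fin (n₂ + 1)) (Fin (n₂ + 1)) ℂ)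
    (c₁ c₂ : ℂ) : MvPolynomial (Fin (n₁ + 1) × Fin (n₂ + 1)) ℂ :=
  let W : Matrix (Fin n₁) (Fin n₂) (MvPolynomial (Fin (n₁ + 1) × Fin (n₂ + 1)) ℂ) :=
    Matrix.of fun i j => Yu Q₁ Q₂ c₁ c₂ i.succ j.succ
  let r : Fin n₁ → MvPolynomial (Fin (n₁ + 1) × Fin (n₂ + 1)) ℂ := fun i => Yu Q₁ Q₂ c₁ c₂ i.succ 0
  let s : Fin n₂ → MvPolynomial (Fin (n₁ + 1) × Fin (n₂ + 1)) ℂ := fun j => Yu Q₁ Q₂ c₁ c₂ 0 j.succ
  (gD (W * Wᵀ)).eval 0 * resultant (gD (W * Wᵀ) * gPsi (W * Wᵀ) r (W *ᵥ s) (s ⬝ᵥ s))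
    (derivative (gD (W * Wᵀ) * gPsi (W * Wᵀ) r (W *ᵥ s) (s ⬝ᵥ s))) (5 * n₁ + 1) (5 * n₁)

lemma genPoly_ne_zero_iff (Q₁ : Matrix (Fin (n₁ + 1)) (Fin (n₁ + 1)) ℂ) (Q₂ : Matrix (Fin (n₂ + 1)) (Fin (n₂ + 1)) ℂ)
    (c₁ c₂ : ℂ) (T : Matrix (Fin (n₁ + 1)) (Fin (n₂ + 1)) ℂ) {W : Matrix (Fin n₁) (Fin n₂) ℂ} {r : Fin n₁ → ℂ}
    {s : Fin n₂ → ℂ} (hW : ∀ i j, YY Q₁ Q₂ c₁ c₂ T i.succ j.succ = W i j)
    (hr : ∀ i, YY Q₁ Q₂ c₁ c₂ T i.succ 0 = r i) (hs : ∀ j, YY Q₁ Q₂ c₁ c₂ T 0 j.succ = s j) :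
    MvPolynomial.eval (fun p => T p.1 p.2) (genPoly Q₁ Q₂ c₁ c₂) ≠ 0 ↔
      (gD (W * Wᵀ)).eval 0 ≠ 0 ∧ (gD (W * Wᵀ) * gPsi (W * Wᵀ) r (W *ᵥ s) (s ⬝ᵥ s)).Separable := by
  set φ := MvPolynomial.eval (fun p : Fin (n₁ + 1) × Fin (n₂ + 1) => T p.1 p.2) with hφ
  set Wu : Matrix (Fin n₁) (Fin n₂) (MvPolynomial (Fin (n₁ + 1) × Fin (n₂ + 1)) ℂ) :=
    Matrix.of fun i j => Yu Q₁ Q₂ c₁ c₂ i.succ j.succ with hWu
  set ru : Fin n₁ → MvPolynomial (Fin (n₁ + 1) × Fin (n₂ + 1)) ℂ := fun i => Yu Q₁ Q₂ c₁ c₂ i.succ 0 with hru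
  set su : Fin n₂ → MvPolynomial (Fin (n₁ + 1) × Fin (n₂ + 1)) ℂ := fun j => Yu Q₁ Q₂ c₁ c₂ 0 j.succ with hsu
  have hWφ : ∀ i j, φ (Wu i j) = W i j := fun i j => by rw [hWu, of_apply, hφ, Yu_eval, hW]
  have hrφ : ∀ i, φ (ru i) = r i := fun i => by rw [hru, hφ, Yu_eval, hr]
  have hsφ : ∀ j, φ (su j) = s j := fun j => by rw [hsu, hφ, Yu_eval, hs]
  have hM : (Wu * Wuᵀ).map φ = W * Wᵀ := by
    ext i j
    rw [Matrix.map_apply, Matrix.mul_apply, Matrix.mul_apply, map_sum]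
    apply Finset.sum_congr rfl
    intro k _
    rw [map_mul, transpose_apply, transpose_apply, hWφ, hWφ]
  have hw : (fun i => φ ((Wu *ᵥ su) i)) = W *ᵥ s := by
    ext i
    simp only [mulVec, dotProduct, map_sum, map_mul, hWφ, hsφ]
  have hss : φ (su ⬝ᵥ su) = s ⬝ᵥ s := by
    simp only [dotProduct, map_sum, map_mul, hsφ]
  have hr' : (fun i => φ (ru i)) = r := funext hrφ
  have hE : (gD (Wu * Wuᵀ) * gPsi (Wu * Wuᵀ) ru (Wu *ᵥ su) (su ⬝ᵥ su)).map φ =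
      gD (W * Wᵀ) * gPsi (W * Wᵀ) r (W *ᵥ s) (s ⬝ᵥ s) := by
    rw [Polynomial.map_mul, gD_map, gPsi_map, hM, hw, hss, hr']
  have h1 : φ (genPoly Q₁ Q₂ c₁ c₂) = (gD (W * Wᵀ)).eval 0 *
      resultant (gD (W * Wᵀ) * gPsi (W * Wᵀ) r (W *ᵥ s) (s ⬝ᵥ s))
        (derivative (gD (W * Wᵀ) * gPsi (W * Wᵀ) r (W *ᵥ s) (s ⬝ᵥ s))) (5 * n₁ + 1) (5 * n₁) := by
    show φ ((gD (Wu * Wuᵀ)).eval 0 * resultant (gD (Wu * Wuᵀ) * gPsi (Wu * Wuᵀ) ru (Wu *ᵥ su) (su ⬝ᵥ su))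
      (derivative (gD (Wu * Wuᵀ) * gPsi (Wu * Wuᵀ) ru (Wu *ᵥ su) (su ⬝ᵥ su))) (5 * n₁ + 1) (5 * n₁)) = _
    rw [map_mul, ← resultant_map_map, ← derivative_map, hE]
    congr 1
    have h2 := Polynomial.eval_map_apply φ (p := gD (Wu * Wuᵀ)) 0
    rw [map_zero, gD_map, hM] at h2
    exact h2.symm
  rw [h1, mul_ne_zero_iff, separable_iff_resultant]
  rw [natDegree_E, Fintype.card_fin]

/-- The critical set has `4 n₁ + 1` elements when the polynomial does not vanish. -/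
theorem crit_ncard {Q₁ : Matrix (Fin (n₁ + 1)) (Fin (n₁ + 1)) ℂ}
    {Q₂ : Matrix (Fin (n₂ + 1)) (Fin (n₂ + 1)) ℂ} {c₁ c₂ : ℂ}
    (hc₁ : c₁ ≠ 0) (hc₂ : c₂ ≠ 0) (h11 : Q₁ᵀ * Q₁ = 1) (h12 : Q₁ * Q₁ᵀ = 1)
    (h10 : ∀ i, Q₁ i 0 = c₁) (h21 : Q₂ᵀ * Q₂ = 1) (h22 : Q₂ * Q₂ᵀ = 1) (h20 : ∀ i, Q₂ i 0 = c₂)
    (T : Matrix (Fin (n₁ + 1)) (Fin (n₂ + 1)) ℂ)
    (hT : MvPolynomial.eval (fun p => T p.1 p.2) (genPoly Q₁ Q₂ c₁ c₂) ≠ 0) :
    {X | IsCrit T X}.ncard = 4 * n₁ + 1 := by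
  rw [crit_eq hc₁ hc₂ h11 h12 h10 h21 h22 h20,
    Set.ncard_image_of_injective _ (Th_inj hc₁ hc₂ h11 h10 h21 h20)]
  obtain ⟨h1, h2⟩ := (genPoly_ne_zero_iff Q₁ Q₂ c₁ c₂ T
    (W := Matrix.of fun i j => YY Q₁ Q₂ c₁ c₂ T i.succ j.succ)
    (r := fun i => YY Q₁ Q₂ c₁ c₂ T i.succ 0) (s := fun j => YY Q₁ Q₂ c₁ c₂ T 0 j.succ)
    (fun i j => rfl) (fun i => rfl) (fun j => rfl)).1 hT
  rw [Sol_ncard _ _ _ h1 h2, Fintype.card_fin]

/-- The polynomial does not vanish identically on the hyperplane when `n₁ ≤ n₂`. -/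
theorem exists_generic (h : n₁ ≤ n₂) {Q₁ : Matrix (Fin (n₁ + 1)) (Fin (n₁ + 1)) ℂ}
    {Q₂ : Matrix (Fin (n₂ + 1)) (Fin (n₂ + 1)) ℂ} {c₁ c₂ : ℂ}
    (hc₁ : c₁ ≠ 0) (hc₂ : c₂ ≠ 0) (h11 : Q₁ᵀ * Q₁ = 1)
    (h10 : ∀ i, Q₁ i 0 = c₁) (h21 : Q₂ᵀ * Q₂ = 1) (h20 : ∀ i, Q₂ i 0 = c₂) :
    ∃ T : Matrix (Fin (n₁ + 1)) (Fin (n₂ + 1)) ℂ, total T = 1 ∧
      MvPolynomial.eval (fun p => T p.1 p.2) (genPoly Q₁ Q₂ c₁ c₂) ≠ 0 := by
  obtain ⟨t, ht⟩ := example_sep n₁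
  -- the data
  set σ : Fin n₁ → ℝ := fun i => √(lam n₁ i) with hσ
  have hσ2 : ∀ i, σ i * σ i = lam n₁ i := fun i => Real.mul_self_sqrt (lam_pos n₁ i).le
  have hσ0 : ∀ i, σ i ≠ 0 := fun i => (Real.sqrt_pos.2 (lam_pos n₁ i)).ne'
  set W : Matrix (Fin n₁) (Fin n₂) ℂ := Matrix.of fun i j => if (i : ℕ) = j then (σ i : ℂ) else 0 with hW
  set s : Fin n₂ → ℂ := fun j => if hj : (j : ℕ) < n₁ then Complex.I * t / σ ⟨j, hj⟩ else 0 with hs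
  set Y : Matrix (Fin (n₁ + 1)) (Fin (n₂ + 1)) ℂ := Matrix.of fun i j =>
    Fin.cases (Fin.cases (1 : ℂ) (fun j => s j) j) (fun i => Fin.cases (0 : ℂ) (fun j => W i j) j) i with hY
  have hYY := YY_TT (Q₁ := Q₁) (Q₂ := Q₂) hc₁ hc₂ h11 h21 Y
  refine ⟨TT Q₁ Q₂ c₁ c₂ Y, ?_, ?_⟩
  · rw [← YY_zero hc₁ hc₂ h10 h20, hYY]
    rfl
  · rw [genPoly_ne_zero_iff Q₁ Q₂ c₁ c₂ _ (W := W) (r := 0) (s := s) (by
      intro i j
      rw [hYY]
      rfl) (by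
      intro i
      rw [hYY]
      rfl) (by
      intro j
      rw [hYY]
      rfl)]
    have hWs : ∀ (i : Fin n₁) (f : Fin n₂ → ℂ), ∑ j, W i j * f j = σ i * f (Fin.castLE h i) := by
      intro i f
      rw [Finset.sum_eq_single (Fin.castLE h i)]
      · simp [hW]
      · intro j _ hj
        have : ¬ ((i : ℕ) = j) := by
          intro h0
          apply hj
          ext
          simp [h0]
        simp [hW, this]
      · intro h0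
        exact absurd (mem_univ _) h0
    have hM : W * Wᵀ = diagonal (fun i => (lam n₁ i : ℂ)) := by
      ext i k
      rw [Matrix.mul_apply]
      simp only [transpose_apply]
      rw [hWs i (fun j => W k j)]
      by_cases hik : i = k
      · subst hik
        rw [diagonal_apply_eq, hW, of_apply, if_pos (by simp), ← Complex.ofReal_mul, hσ2]
      · rw [diagonal_apply_ne _ hik, hW, of_apply, if_neg, mul_zero]
        intro h0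
        apply hik
        ext
        simpa using h0.symm
    have hw : W *ᵥ s = fun _ => Complex.I * t := by
      ext i
      simp only [mulVec, dotProduct]
      rw [hWs i s, hs]
      have h1 : ((Fin.castLE h i : Fin n₂) : ℕ) < n₁ := i.2
      simp only [h1, dif_pos]
      have h2 : ((σ i : ℝ) : ℂ) ≠ 0 := by exact_mod_cast hσ0 i
      have h3 : (⟨((Fin.castLE h i : Fin n₂) : ℕ), h1⟩ : Fin n₁) = i := by
        ext
        simp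
      rw [h3]
      field_simp
    have hss : s ⬝ᵥ s = (((-(t ^ 2 * ∑ i, 1 / lam n₁ i) : ℝ)) : ℂ) := by
      have h1 : s ⬝ᵥ s = ∑ i : Fin n₁, s (Fin.castLE h i) * s (Fin.castLE h i) := by
        rw [dotProduct]
        symm
        have h2 : ∑ i : Fin n₁, s (Fin.castLE h i) * s (Fin.castLE h i) =
            ∑ j ∈ univ.map (Fin.castLEEmb h), s j * s j := by
          rw [Finset.sum_map]
          rfl
        rw [h2]
        apply Finset.sum_subset (Finset.subset_univ _)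
        intro j _ hj
        have h3 : ¬ ((j : ℕ) < n₁) := by
          intro h4
          apply hj
          rw [Finset.mem_map]
          exact ⟨⟨j, h4⟩, mem_univ _, by ext; simp⟩
        simp [hs, h3]
      rw [h1]
      have h4 : ∀ i : Fin n₁, s (Fin.castLE h i) * s (Fin.castLE h i) = ((-(t ^ 2 * (1 / lam n₁ i)) : ℝ) : ℂ) := by
        intro i
        rw [hs]
        have h1 : ((Fin.castLE h i : Fin n₂) : ℕ) < n₁ := i.2
        simp only [h1, dif_pos]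
        have h2 : ((σ i : ℝ) : ℂ) ≠ 0 := by exact_mod_cast hσ0 i
        have h3 : (⟨((Fin.castLE h i : Fin n₂) : ℕ), h1⟩ : Fin n₁) = i := by
          ext
          simp
        rw [h3, ← hσ2 i]
        push_cast
        field_simp
        linear_combination (t : ℂ) ^ 2 * Complex.I_sq
      simp only [h4]
      rw [← Complex.ofReal_sum, Finset.sum_neg_distrib, Finset.mul_sum]
    rw [hM, hw, hss]
    refine ⟨?_, ht⟩
    rw [eval_gD, Finset.prod_ne_zero_iff]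
    intro i _
    rw [zero_sub, neg_ne_zero]
    exact_mod_cast (lam_pos n₁ i).ne'

end

end Pool.Agent.MP_b0e20b_ag
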